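import Pool.Agent.R470.AK.Lac3
import Pool.Agent.V7H31.GS.Gad

/-!
# A good subset in every large finite set of slopes (MP_169869_co)
-/

set_option autoImplicit false

namespace Pool.Agent.V7H10.AK

open Finset
open Pool.Agent.R470.AK
open Pool.Agent.V7H31.GS (Gad)

/-- the number of the bad parameters -/
lemma bad_card (n : ℕ) (Z F : Finset ℚ) [DecidablePred fun ν => ¬ Good n ν Z] :
    (F.filter fun ν => ¬ Good n ν Z).card ≤ n * (Z.card ^ n) ^ 2 := by
  classical
  set W := (Fintype.piFinset fun _ : Fin n => Z) with hW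
  let p : (Fin n → ℚ) × (Fin n → ℚ) → Polynomial ℚ := fun q =>
    ∑ i : Fin n, Polynomial.C (q.1 i - q.2 i) * Polynomial.X ^ (i : ℕ)
  have hp0 : ∀ q : (Fin n → ℚ) × (Fin n → ℚ), q.1 ≠ q.2 → p q ≠ 0 := by
    intro q hq h0
    apply hq
    funext i
    have h1 : (p q).coeff (i : ℕ) = q.1 i - q.2 i := by
      simp only [p, Polynomial.finset_sum_coeff, Polynomial.coeff_C_mul, Polynomial.coeff_X_pow]
      rw [Finset.sum_eq_single i]
      · simp
      · intro j _ hj
        rw [if_neg, mul_zero]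
        intro h
        exact hj (Fin.ext h.symm)
      · intro h
        exact absurd (mem_univ i) h
    rw [h0, Polynomial.coeff_zero] at h1
    linarith
  have hsub : (F.filter fun ν => ¬ Good n ν Z) ⊆ (W ×ˢ W).biUnion fun q => (p q).roots.toFinset := by
    intro ν hν
    rw [mem_filter] at hν
    have hν := hν.2
    simp only [Good, Set.InjOn] at hν
    push Not at hν
    obtain ⟨z, hz, z', hz', he, hne⟩ := hν
    rw [mem_biUnion]
    refine ⟨(z, z'), mem_product.2 ⟨mem_coe.1 hz, mem_coe.1 hz'⟩, ?_⟩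
    rw [Multiset.mem_toFinset, Polynomial.mem_roots (hp0 _ hne)]
    simp only [Polynomial.IsRoot, p, Polynomial.eval_finset_sum,
      Polynomial.eval_mul, Polynomial.eval_C, Polynomial.eval_pow, Polynomial.eval_X]
    have : (∑ i : Fin n, (z i - z' i) * ν ^ (i : ℕ)) = Pool.Agent.R470.AK.val n ν z - Pool.Agent.R470.AK.val n ν z' := by
      simp only [Pool.Agent.R470.AK.val, ← sum_sub_distrib]
      exact sum_congr rfl fun i _ => by ring
    rw [this, he, sub_self]
  have hdeg : ∀ q, (p q).roots.toFinset.card ≤ n := by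
    intro q
    refine (Multiset.toFinset_card_le _).trans ((Polynomial.card_roots' _).trans ?_)
    refine Polynomial.natDegree_sum_le_of_forall_le _ _ fun i _ => ?_
    refine (Polynomial.natDegree_C_mul_X_pow_le _ _).trans i.2.le
  refine (card_le_card hsub).trans ((card_biUnion_le).trans ((sum_le_sum fun q _ => hdeg q).trans ?_))
  rw [sum_const, card_product, smul_eq_mul, hW, Fintype.card_piFinset]
  simp only [prod_const, card_univ, Fintype.card_fin]
  exact le_of_eq (by ring)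

lemma X_congr {n m : ℕ} {ν ν' : ℕ → ℚ} {k : ℕ} (h : ∀ j < k, ν j = ν' j) : X n m ν k = X n m ν' k := by
  induction k with
  | zero => rfl
  | succ k ih =>
    simp only [X]
    rw [ih fun j hj => h j (by omega), h k (by omega)]

/-- the greedy choice in a finite set -/
lemma exists_fin {n m : ℕ} (hm : 1 ≤ m) (t : ℚ) (U : Finset ℚ) (k : ℕ)
    (hU : k + 1 + n * (m ^ (4 * n ^ k)) < U.card) (hn : 1 ≤ n) :
    ∃ ν : ℕ → ℚ, (∀ j < k, t + ν j ∈ U ∧ ν j ≠ 0) ∧ (∀ i < k, ∀ j < k, ν i = ν j → i = j) ∧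
      ∀ i < k, Good n (ν i) (comb (-t) (X n m ν i) (X n m ν i)) := by
  classical
  induction k with
  | zero => exact ⟨fun _ => 0, fun j hj => absurd hj (by omega), fun i hi => absurd hi (by omega), fun i hi => absurd hi (by omega)⟩
  | succ k ih =>
    have hmono : m ^ (4 * n ^ k) ≤ m ^ (4 * n ^ (k + 1)) :=
      Nat.pow_le_pow_right hm (Nat.mul_le_mul_left _ (Nat.pow_le_pow_right hn (by omega)))
    obtain ⟨ν, h1, h2, h3⟩ := ih (by
      have := Nat.mul_le_mul_left n hmono
      omega)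
    set Z := comb (-t) (X n m ν k) (X n m ν k) with hZ
    have hZc : Z.card ≤ (m ^ n ^ k) ^ 2 := by
      rw [hZ, comb]
      refine (card_image₂_le _ _ _).trans ?_
      rw [sq]
      exact Nat.mul_le_mul (card_X_le n m ν k) (card_X_le n m ν k)
    have hZc2 : (Z.card ^ n) ^ 2 ≤ m ^ (4 * n ^ (k + 1)) := by
      calc (Z.card ^ n) ^ 2 ≤ (((m ^ n ^ k) ^ 2) ^ n) ^ 2 := by gcongr
        _ = m ^ (4 * n ^ (k + 1)) := by
            rw [← pow_mul, ← pow_mul, ← pow_mul]
            congr 1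
            ring
    set F := U.image (fun u => u - t) with hF
    have hFc : F.card = U.card := card_image_of_injective _ fun x y h => by simpa using h
    set R := (insert 0 ((range k).image ν)) ∪ (F.filter fun c => ¬ Good n c Z) with hR
    have hRc : R.card ≤ (k + 1) + n * m ^ (4 * n ^ (k + 1)) := by
      refine (card_union_le _ _).trans (Nat.add_le_add ?_ ?_)
      · refine (card_insert_le _ _).trans (Nat.add_le_add_right (card_image_le.trans (by simp)) 1)
      · exact (bad_card n Z F).trans (Nat.mul_le_mul_left n hZc2)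
    obtain ⟨c, hcF, hcR⟩ : ∃ c ∈ F, c ∉ R := by
      by_contra hcon
      push Not at hcon
      have := card_le_card (show F ⊆ R from hcon)
      omega
    rw [hR, mem_union, mem_insert, mem_image, mem_filter] at hcR
    push Not at hcR
    obtain ⟨⟨hc0, hcν⟩, hcG⟩ := hcR
    have hcU : t + c ∈ U := by
      rw [hF, mem_image] at hcF
      obtain ⟨u, hu, rfl⟩ := hcF
      rwa [add_sub_cancel]
    refine ⟨Function.update ν k c, ?_, ?_, ?_⟩
    · intro j hj
      rcases Nat.lt_succ_iff_lt_or_eq.1 hj with h | rfl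
      · rw [Function.update_of_ne (by omega)]
        exact h1 j h
      · rw [Function.update_self]
        exact ⟨hcU, hc0⟩
    · intro i hi j hj hij
      rcases Nat.lt_succ_iff_lt_or_eq.1 hi with h | rfl
      · rcases Nat.lt_succ_iff_lt_or_eq.1 hj with h' | rfl
        · rw [Function.update_of_ne (by omega), Function.update_of_ne (by omega)] at hij
          exact h2 i h j h' hij
        · rw [Function.update_of_ne (by omega), Function.update_self] at hij
          exact absurd hij (hcν i (mem_range.2 h))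
      · rcases Nat.lt_succ_iff_lt_or_eq.1 hj with h' | rfl
        · rw [Function.update_self, Function.update_of_ne (by omega)] at hij
          exact absurd hij.symm (hcν j (mem_range.2 h'))
        · rfl
    · intro i hi
      have hX : X n m (Function.update ν k c) i = X n m ν i :=
        X_congr fun j hj => by rw [Function.update_of_ne (by omega)]
      rw [hX]
      rcases Nat.lt_succ_iff_lt_or_eq.1 hi with h | rfl
      · rw [Function.update_of_ne (by omega)]
        exact h3 i h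
      · rw [Function.update_self]
        exact hcG hcF

/-- the digit sets give points with few projections and many differences (as `assemble`) -/
lemma assemble' {n m : ℕ} (hm : 0 < m) (t : ℚ) (ν : ℕ → ℚ) (k : ℕ)
    (h0 : (comb (-t) (X n m ν 0) (X n m ν 0)).card = m ^ 2)
    (hg : ∀ i < k, Good n (ν i) (comb (-t) (X n m ν i) (X n m ν i))) :
    ∃ A : Finset (ℤ × ℤ), (proj (-1) A).card = (m ^ n ^ k) ^ 2 ∧
      (projInf A).card ^ n ≤ ((2 * m) ^ n ^ k) ^ (n + 1) ∧
      ∀ r : ℚ, (r + 1 = t ∨ ∃ j < k, r + 1 = t + ν j) →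
        (proj r A).card ^ n ≤ ((2 * m) ^ n ^ k) ^ (n + 1) := by
  classical
  set D := X n m ν k with hD
  set B : Finset (ℚ × ℚ) := (D ×ˢ D).image fun p => (p.1 + (1 - t) * p.2, p.2) with hB
  obtain ⟨A, hA0, hA1, hA2⟩ := int_points B
  have hBr : ∀ r : ℚ, (B.image fun p => p.1 + r * p.2) = comb (r + 1 - t) D D := by
    intro r
    rw [hB, image_image]
    ext w
    rw [mem_comb, mem_image]
    constructor
    · rintro ⟨p, hp, rfl⟩
      rw [mem_product] at hp
      exact ⟨p.1, hp.1, p.2, hp.2, by simp only [Function.comp]; ring⟩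
    · rintro ⟨x, hx, y, hy, rfl⟩
      exact ⟨(x, y), mem_product.2 ⟨hx, hy⟩, by simp only [Function.comp]; ring⟩
  have hsmall : D.card ^ n ≤ ((2 * m) ^ n ^ k) ^ (n + 1) := by
    have h1 : D.card ≤ (2 * m) ^ n ^ k :=
      (card_X_le n m ν k).trans (Nat.pow_le_pow_left (by omega) _)
    refine (Nat.pow_le_pow_left h1 n).trans ?_
    exact Nat.pow_le_pow_right (Nat.pos_of_ne_zero (by positivity)) (Nat.le_succ n)
  refine ⟨A, ?_, ?_, ?_⟩
  · rw [hA1, hBr]
    have : (-1 : ℚ) + 1 - t = -t := by ring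
    rw [this]
    exact card_target t ν k h0 hg
  · rw [hA2]
    refine (Nat.pow_le_pow_left (card_le_card ?_) n).trans hsmall
    intro w hw
    rw [mem_image] at hw
    obtain ⟨p, hp, rfl⟩ := hw
    rw [hB, mem_image] at hp
    obtain ⟨q, hq, rfl⟩ := hp
    exact (mem_product.1 hq).2
  · intro r hS
    rw [hA1, hBr]
    rcases hS with h | ⟨j, hj, h⟩
    · refine (Nat.pow_le_pow_left (card_le_card ?_) n).trans hsmall
      intro w hw
      obtain ⟨x, hx, y, _, rfl⟩ := mem_comb.1 hw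
      have : r + 1 - t = 0 := by linarith
      rw [this, zero_mul, add_zero]
      exact hx
    · have : r + 1 - t = ν j := by linarith
      rw [this]
      exact card_comb_le hm ν j k hj

/-- a subset on which the map is injective, with the same image -/
lemma exists_section {α β : Type*} [DecidableEq α] [DecidableEq β] (A : Finset α) (f : α → β) :
    ∃ A' ⊆ A, Set.InjOn f (A' : Set α) ∧ A'.card = (A.image f).card := by
  classical
  induction A using Finset.induction_on with
  | empty => exact ⟨∅, subset_rfl, by simp, by simp⟩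
  | insert a A ha ih =>
    obtain ⟨A', h1, h2, h3⟩ := ih
    by_cases hf : f a ∈ A.image f
    · refine ⟨A', h1.trans (subset_insert _ _), h2, ?_⟩
      rw [image_insert, insert_eq_of_mem hf, h3]
    · have haA' : a ∉ A' := fun h => ha (h1 h)
      refine ⟨insert a A', insert_subset_insert _ h1, ?_, ?_⟩
      · rw [coe_insert, Set.injOn_insert (by simpa using haA')]
        refine ⟨h2, ?_⟩
        rintro ⟨x, hx, hxa⟩
        exact hf (mem_image.2 ⟨x, h1 (mem_coe.1 hx), hxa⟩)
      · rw [card_insert_of_notMem haA', image_insert, card_insert_of_notMem hf, h3]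

/-- the size of the set of slopes which is sufficient -/
def K (m D e : ℕ) : ℕ := (2 * 2 ^ e + 1) ^ 2 + (m + 2 + D * (2 ^ e) ^ (4 * D ^ m))

/-- the root of the bound -/
lemma root_le {D e m B : ℕ} (hD : 1 ≤ D) (hm : 1 ≤ m)
    (h : B ^ D ≤ ((2 * 2 ^ e) ^ D ^ m) ^ (D + 1)) : B ≤ 2 ^ ((e + 1) * (D + 1) * D ^ (m - 1)) := by
  have h1 : ((2 * 2 ^ e) ^ D ^ m) ^ (D + 1) = (2 ^ ((e + 1) * (D + 1) * D ^ (m - 1))) ^ D := by
    obtain ⟨k, rfl⟩ : ∃ k, m = k + 1 := ⟨m - 1, by omega⟩
    rw [Nat.add_sub_cancel, ← pow_succ', ← pow_mul, ← pow_mul, ← pow_mul]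
    congr 1
    ring
  rw [h1] at h
  exact (Nat.pow_le_pow_iff_left (by omega)).1 h

/-- **The core.** In every finite set of at least `K m D e` numbers different from `w₁` there are `m + 1` numbers
which have, together with `w₁`, a gadget. -/
theorem core {m D e : ℕ} (hm : 1 ≤ m) (hD : 1 ≤ D) (w₁ : ℚ) (T : Finset ℚ) (hw : w₁ ∉ T)
    (hT : K m D e ≤ T.card) : ∃ T₁ ⊆ T, T₁.card = m + 1 ∧
      Gad (insert w₁ (T₁ : Set ℚ)) (2 * e * D ^ m) ((e + 1) * (D + 1) * D ^ (m - 1)) := by
  classical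
  set M : ℕ := 2 ^ e with hM
  have hM1 : 1 ≤ M := Nat.one_le_two_pow
  have hne : ∀ w ∈ T, w - w₁ ≠ 0 := fun w h h0 => hw (by rwa [← sub_eq_zero.1 h0])
  set U : Finset ℚ := T.image (fun w => (w - w₁)⁻¹) with hU
  have hUc : U.card = T.card := by
    refine card_image_of_injOn fun x _ y _ h => ?_
    have := inv_injective h
    linarith
  have hU0 : ∀ u ∈ U, u ≠ 0 ∧ w₁ + u⁻¹ ∈ T := by
    intro u hu
    obtain ⟨w, hwT, rfl⟩ := mem_image.1 hu
    refine ⟨inv_ne_zero (hne w hwT), ?_⟩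
    rw [inv_inv]
    simpa using hwT
  -- the choice of `t`
  have hbad : (bad0 M).card ≤ (2 * M + 1) ^ 2 := by
    unfold bad0
    refine card_image_le.trans ?_
    rw [card_product, Int.card_Icc, sq]
    have : ((M : ℤ) + 1 - -(M : ℤ)).toNat = 2 * M + 1 := by omega
    rw [this]
  obtain ⟨t, htU, ht⟩ : ∃ t ∈ U, t ∉ bad0 M := by
    by_contra hcon
    push Not at hcon
    have h1 := card_le_card (show U ⊆ bad0 M from hcon)
    have : (2 * 2 ^ e + 1) ^ 2 + (m + 2 + D * (2 ^ e) ^ (4 * D ^ m)) ≤ T.card := hT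
    rw [← hM] at this
    omega
  obtain ⟨ν, h1, h2, h3⟩ := exists_fin (n := D) (m := M) hM1 t U m (by
    have : (2 * 2 ^ e + 1) ^ 2 + (m + 2 + D * (2 ^ e) ^ (4 * D ^ m)) ≤ T.card := hT
    rw [← hM] at this
    rw [hUc]
    omega) hD
  obtain ⟨A, hA1, hA2, hA3⟩ := assemble' (n := D) (m := M) hM1 t ν m (base_of_not_mem ν ht) h3
  -- the subset
  set V : Finset ℚ := insert t ((range m).image fun j => t + ν j) with hV
  have hVU : V ⊆ U := by
    intro v hv
    rw [hV, mem_insert, mem_image] at hv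
    rcases hv with rfl | ⟨j, hj, rfl⟩
    · exact htU
    · exact (h1 j (mem_range.1 hj)).1
  have hVc : V.card = m + 1 := by
    rw [hV, card_insert_of_notMem, card_image_of_injOn, card_range]
    · intro i hi j hj hij
      rw [mem_coe, mem_range] at hi hj
      exact h2 i hi j hj (by simpa using hij)
    · intro h
      obtain ⟨j, hj, h⟩ := mem_image.1 h
      exact (h1 j (mem_range.1 hj)).2 (by linarith)
  refine ⟨V.image (fun u => w₁ + u⁻¹), ?_, ?_, ?_⟩
  · intro w hwV
    obtain ⟨u, hu, rfl⟩ := mem_image.1 hwV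
    exact (hU0 u (hVU hu)).2
  · rw [card_image_of_injective _ (fun x y h => by simpa using h), hVc]
  -- the gadget
  obtain ⟨A', hA'1, hA'2, hA'3⟩ := exists_section A (fun p : ℤ × ℤ => (p.1 : ℚ) + (-1) * (p.2 : ℚ))
  have hA'c : A'.card = 2 ^ (2 * e * D ^ m) := by
    rw [hA'3]
    have : (A.image fun p : ℤ × ℤ => (p.1 : ℚ) + (-1) * (p.2 : ℚ)).card = (M ^ D ^ m) ^ 2 := hA1
    rw [this, hM, ← pow_mul, ← pow_mul]
    congr 1
    ring
  set g : ℤ × ℤ → ℚ × ℚ := fun p =>
    ((p.1 : ℚ) + (-1) * (p.2 : ℚ), (p.2 : ℚ) - w₁ * ((p.1 : ℚ) + (-1) * (p.2 : ℚ))) with hg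
  have hginj : Set.InjOn g (A' : Set (ℤ × ℤ)) := fun x hx y hy h => hA'2 hx hy (congrArg Prod.fst h)
  refine ⟨A'.image g, ?_, ?_, ?_⟩
  · intro x hx y hy hxy
    rw [mem_coe, mem_image] at hx hy
    obtain ⟨x, hx, rfl⟩ := hx
    obtain ⟨y, hy, rfl⟩ := hy
    rw [hA'2 (mem_coe.2 hx) (mem_coe.2 hy) hxy]
  · rw [card_image_of_injOn hginj, hA'c]
  · intro w hwT
    rcases hwT with rfl | hwT
    · -- the slope `∞`
      refine root_le hD hm ((Nat.pow_le_pow_left (card_le_card ?_) D).trans hA2)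
      intro v hv
      rw [image_image, mem_image] at hv
      obtain ⟨p, hp, rfl⟩ := hv
      refine mem_image.2 ⟨p, hA'1 hp, ?_⟩
      simp only [hg, Function.comp]
      ring
    · rw [mem_coe, mem_image] at hwT
      obtain ⟨u, hu, rfl⟩ := hwT
      have hu0 : u ≠ 0 := (hU0 u (hVU hu)).1
      have hr := hA3 (u - 1) (by
        rw [hV, mem_insert, mem_image] at hu
        rcases hu with rfl | ⟨j, hj, rfl⟩
        · exact Or.inl (by ring)
        · exact Or.inr ⟨j, mem_range.1 hj, by ring⟩)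
      refine root_le hD hm ((Nat.pow_le_pow_left ?_ D).trans hr)
      have hsub : (A'.image g).image (fun p => p.2 + (w₁ + u⁻¹) * p.1) ⊆
          (proj (u - 1) A).image (fun x => u⁻¹ * x) := by
        intro v hv
        rw [image_image, mem_image] at hv
        obtain ⟨p, hp, rfl⟩ := hv
        refine mem_image.2 ⟨(p.1 : ℚ) + (u - 1) * (p.2 : ℚ), mem_image.2 ⟨p, hA'1 hp, rfl⟩, ?_⟩
        simp only [hg, Function.comp]
        field_simp
        ring
      exact (card_le_card hsub).trans card_image_le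

/-- **A good subset in every large set.** -/
theorem good_subset {m D e : ℕ} (hm : 1 ≤ m) (hD : 1 ≤ D) (T : Finset ℚ)
    (hT : K m D e + 1 ≤ T.card) : ∃ T₁ ⊆ T, T₁.card = m + 2 ∧
      Gad (T₁ : Set ℚ) (2 * e * D ^ m) ((e + 1) * (D + 1) * D ^ (m - 1)) := by
  classical
  obtain ⟨w₁, hw⟩ : T.Nonempty := card_pos.1 (by omega)
  obtain ⟨T₁, h1, h2, h3⟩ := core (e := e) hm hD w₁ (T.erase w₁) (notMem_erase _ _) (by
    rw [card_erase_of_mem hw]
    omega)
  refine ⟨insert w₁ T₁, insert_subset hw (h1.trans (erase_subset _ _)), ?_, ?_⟩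
  · rw [card_insert_of_notMem fun h => (notMem_erase w₁ T) (h1 h), h2]
  · rw [coe_insert]
    exact h3

/-- the version with the slope `∞`, that is with the number `0` -/
theorem good_zero {m D e : ℕ} (hm : 1 ≤ m) (hD : 1 ≤ D) (T : Finset ℚ) (h0 : (0 : ℚ) ∉ T)
    (hT : K m D e ≤ T.card) : ∃ T₁ ⊆ T, T₁.card = m + 1 ∧
      Gad (insert 0 (T₁ : Set ℚ)) (2 * e * D ^ m) ((e + 1) * (D + 1) * D ^ (m - 1)) :=
  core hm hD 0 T h0 hT

/-- a bound for the size -/
theorem K_le {m : ℕ} (hm : 1 ≤ m) : K m 2 6 + 1 ≤ 2 ^ 2 ^ (m + 5) := by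
  have h1 : (2 ^ 6) ^ (4 * 2 ^ m) = 2 ^ (24 * 2 ^ m) := by
    rw [← pow_mul]
    congr 1
    ring
  have h2 : 2 ^ 2 ^ (m + 5) = 2 ^ (24 * 2 ^ m) * 2 ^ (8 * 2 ^ m) := by
    rw [← pow_add]
    congr 1
    rw [pow_add]
    ring
  have hx : 2 ≤ 2 ^ m := by
    calc 2 = 2 ^ 1 := by norm_num
      _ ≤ 2 ^ m := Nat.pow_le_pow_right (by norm_num) hm
  have h3 : 2 ^ 16 ≤ 2 ^ (8 * 2 ^ m) := Nat.pow_le_pow_right (by norm_num) (by omega)
  have h4 : 2 ^ 48 ≤ 2 ^ (24 * 2 ^ m) := Nat.pow_le_pow_right (by norm_num) (by omega)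
  have h5 : m < 2 ^ (24 * 2 ^ m) := by
    have : m < 2 ^ m := Nat.lt_two_pow_self
    have h6 : 2 ^ m ≤ 2 ^ (24 * 2 ^ m) := Nat.pow_le_pow_right (by norm_num) (by omega)
    omega
  unfold K
  rw [h1, h2]
  generalize 2 ^ (24 * 2 ^ m) = X at *
  generalize 2 ^ (8 * 2 ^ m) = Y at *
  have h7 : X * 2 ^ 16 ≤ X * Y := Nat.mul_le_mul_left _ h3
  norm_num at h3 h4 h7 ⊢
  omega

end Pool.Agent.V7H10.AK
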