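import Pool.Agent.V7H10.TB

set_option autoImplicit false

/-! The tool `avoid_boxes` for sets of tuples with a power saving at all heights (helper10). -/

namespace Pool.Agent.V7H10.TB

open Finset Classical
open Pool.Agent.N733.TG (LM Box mem_Box tuples)

/-- **Tool.** Let `κ r < δ ≤ r`. For large `N`, uniformly in the set `B` with at most `C X ^ (r - δ)` elements in
`[0, X] ^ r` for `X ≥ N`: for all but `N ^ r / (log N) ^ U` of the tuples `m` in `[1, N] ^ r` no member of `B` is in the box of radius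
`N ^ κ` around `(α_1 F_1(m_1), …, α_r F_r(m_r))`. -/
theorem avoid_boxes_all {r : ℕ} {F : Fin r → ℕ → ℕ} (hF : ∀ i, LM (F i)) (α : Fin r → ℝ) (hα : ∀ i, 0 < α i)
    {δ κ : ℝ} (hκ : 0 ≤ κ) (h1 : κ * r < δ) (hδr : δ ≤ r) (C : ℝ) (U : ℕ) :
    ∃ N₀ : ℕ, ∀ N : ℕ, N₀ ≤ N → ∀ B : Set (Fin r → ℕ),
      (∀ X : ℕ, N ≤ X → {h | h ∈ B ∧ ∀ i, h i ≤ X}.Finite ∧
        ({h | h ∈ B ∧ ∀ i, h i ≤ X}.ncard : ℝ) ≤ C * (X : ℝ) ^ ((r : ℝ) - δ)) →
      ({m : Fin r → ℕ | (∀ i, 1 ≤ m i ∧ m i ≤ N) ∧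
        ∃ h ∈ B, ∀ i, |(h i : ℝ) - α i * F i (m i)| ≤ (N : ℝ) ^ κ}.ncard : ℝ) ≤ (N : ℝ) ^ r / Real.log N ^ U := by
  have hδ0 : 0 < δ := lt_of_le_of_lt (by positivity) h1
  -- an upper bound for the multipliers
  obtain ⟨M, hM1, hM⟩ : ∃ M : ℝ, 1 ≤ M ∧ ∀ i, α i ≤ M := by
    refine ⟨1 + ∑ i, α i, ?_, fun i => ?_⟩
    · have : 0 ≤ ∑ i, α i := sum_nonneg fun i _ => (hα i).le
      linarith
    · have := single_le_sum (f := α) (fun i _ => (hα i).le) (mem_univ i)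
      linarith
  obtain ⟨ρ, hρ0, hρ1, hρ⟩ : ∃ ρ : ℝ, 0 < ρ ∧ κ ≤ 1 + ρ ∧ (1 + ρ) * ((r : ℝ) - δ) + κ * r ≤ r - (δ - κ * r) / 2 := by
    refine ⟨(δ - κ * r) / (2 * (r + 1)) + κ * 0 + 0, ?_, ?_, ?_⟩
    · have : 0 < δ - κ * r := by linarith
      have h2 : 0 < (δ - κ * r) / (2 * (r + 1)) := by positivity
      linarith
    · have h2 : 0 ≤ (δ - κ * r) / (2 * (r + 1)) := by
        apply div_nonneg (by linarith) (by positivity)
      have h3 : κ ≤ 1 := by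
        rcases Nat.eq_zero_or_pos r with h0 | h0
        · subst h0
          simp only [Nat.cast_zero] at hδr
          linarith
        · have h4 : (1 : ℝ) ≤ r := by exact_mod_cast h0
          by_contra hcon
          push Not at hcon
          nlinarith
      linarith
    · have hr0 : (0 : ℝ) ≤ r := Nat.cast_nonneg r
      have h2 : (δ - κ * r) / (2 * (r + 1)) * ((r : ℝ) - δ) ≤ (δ - κ * r) / 2 := by
        rw [div_mul_eq_mul_div, div_le_div_iff₀ (by positivity) two_pos]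
        have h3 : 0 < δ - κ * r := by linarith
        nlinarith
      nlinarith
  obtain ⟨N₀, hN₀⟩ := tuples r F hF ((δ - κ * r) / 2) ρ (by linarith) hρ0
    ((∏ i, (2 / α i + 1)) * (|C| * (M + 2) ^ ((r : ℝ) - δ))) U
  refine ⟨max N₀ 1, fun N hN B hB => ?_⟩
  have hN1 : 1 ≤ N := (le_max_right _ _).trans hN
  have hN1' : (1 : ℝ) ≤ N := by exact_mod_cast hN1
  have hN0 : (0 : ℝ) < N := by linarith
  obtain ⟨W, hW⟩ : ∃ W : Set (Fin r → ℕ), W = {w | ∃ h ∈ B, ∀ i, |(h i : ℝ) - α i * w i| ≤ (N : ℝ) ^ κ} := ⟨_, rfl⟩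
  have hP : 0 ≤ ∏ i, (2 / α i + 1) := prod_nonneg fun i _ => by
    have := div_pos two_pos (hα i)
    linarith
  -- the members of `B` which matter
  obtain ⟨X, hX⟩ : ∃ X : ℕ, X = ⌊(M + 1) * (N : ℝ) ^ (1 + ρ)⌋₊ + 1 := ⟨_, rfl⟩
  have hNρ : (1 : ℝ) ≤ (N : ℝ) ^ (1 + ρ) := Real.one_le_rpow hN1' (by linarith)
  have hXN : N ≤ X := by
    have h3 : (N : ℝ) ≤ (M + 1) * (N : ℝ) ^ (1 + ρ) := by
      have h4 : (N : ℝ) ≤ (N : ℝ) ^ (1 + ρ) := by
        calc (N : ℝ) = (N : ℝ) ^ (1 : ℝ) := (Real.rpow_one _).symm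
          _ ≤ _ := Real.rpow_le_rpow_of_exponent_le hN1' (by linarith)
      nlinarith
    have h5 := Nat.le_floor h3
    rw [hX]
    omega
  have hXle : (X : ℝ) ≤ (M + 2) * (N : ℝ) ^ (1 + ρ) := by
    rw [hX]
    push_cast
    have := Nat.floor_le (show 0 ≤ (M + 1) * (N : ℝ) ^ (1 + ρ) by positivity)
    linarith
  obtain ⟨hfin, hcard⟩ := hB X hXN
  have h2 := hN₀ N ((le_max_left _ _).trans hN) W (by
    refine (near_count hfin.toFinset α hα (Real.one_le_rpow hN1' hκ) _ (fun w hw => ?_)).trans ?_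
    · rw [mem_filter, mem_Box, hW] at hw
      obtain ⟨hw1, h, hh, hw2⟩ := hw
      refine ⟨h, ?_, hw2⟩
      rw [Set.Finite.mem_toFinset]
      refine ⟨hh, fun i => ?_⟩
      have h3 : (w i : ℝ) ≤ (N : ℝ) ^ (1 + ρ) := by
        have h4 : (w i : ℝ) ≤ (⌊(N : ℝ) ^ (1 + ρ)⌋₊ : ℝ) := by exact_mod_cast (hw1 i).2
        exact h4.trans (Nat.floor_le (by positivity))
      have h5 := (abs_le.1 (hw2 i)).2
      have h6 : (N : ℝ) ^ κ ≤ (N : ℝ) ^ (1 + ρ) := Real.rpow_le_rpow_of_exponent_le hN1' hρ1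
      have h7 : α i * (w i : ℝ) ≤ M * (N : ℝ) ^ (1 + ρ) :=
        mul_le_mul (hM i) h3 (Nat.cast_nonneg _) (by linarith)
      have h8 : (h i : ℝ) ≤ (M + 1) * (N : ℝ) ^ (1 + ρ) := by linarith
      have h9 := Nat.le_floor h8
      rw [hX]
      omega
    · have hcard' : (hfin.toFinset.card : ℝ) ≤ |C| * (M + 2) ^ ((r : ℝ) - δ) * (N : ℝ) ^ ((1 + ρ) * ((r : ℝ) - δ)) := by
        rw [← Set.ncard_eq_toFinset_card _ hfin]
        calc (({h | h ∈ B ∧ ∀ i, h i ≤ X}.ncard : ℕ) : ℝ) ≤ C * (X : ℝ) ^ ((r : ℝ) - δ) := hcard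
          _ ≤ |C| * ((M + 2) * (N : ℝ) ^ (1 + ρ)) ^ ((r : ℝ) - δ) := by
              apply mul_le_mul (le_abs_self C) _ (by positivity) (abs_nonneg C)
              exact Real.rpow_le_rpow (Nat.cast_nonneg _) hXle (by linarith)
          _ = _ := by
              rw [Real.mul_rpow (by linarith) (by positivity), ← Real.rpow_mul hN0.le]
              ring
      have e1 : ((N : ℝ) ^ κ) ^ r = (N : ℝ) ^ (κ * r) := by
        rw [← Real.rpow_natCast, ← Real.rpow_mul hN0.le]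
      rw [e1]
      calc (∏ i, (2 / α i + 1)) * (N : ℝ) ^ (κ * r) * (hfin.toFinset.card : ℝ)
          ≤ (∏ i, (2 / α i + 1)) * (N : ℝ) ^ (κ * r) *
            (|C| * (M + 2) ^ ((r : ℝ) - δ) * (N : ℝ) ^ ((1 + ρ) * ((r : ℝ) - δ))) :=
            mul_le_mul_of_nonneg_left hcard' (by positivity)
        _ = (∏ i, (2 / α i + 1)) * (|C| * (M + 2) ^ ((r : ℝ) - δ)) *
            ((N : ℝ) ^ ((1 + ρ) * ((r : ℝ) - δ)) * (N : ℝ) ^ (κ * r)) := by ring
        _ = (∏ i, (2 / α i + 1)) * (|C| * (M + 2) ^ ((r : ℝ) - δ)) *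
            (N : ℝ) ^ ((1 + ρ) * ((r : ℝ) - δ) + κ * r) := by rw [← Real.rpow_add hN0]
        _ ≤ (∏ i, (2 / α i + 1)) * (|C| * (M + 2) ^ ((r : ℝ) - δ)) * (N : ℝ) ^ ((r : ℝ) - (δ - κ * r) / 2) := by
            apply mul_le_mul_of_nonneg_left _ (by positivity)
            exact Real.rpow_le_rpow_of_exponent_le hN1' hρ)
  refine le_trans (le_of_eq ?_) h2
  congr 1
  rw [← Set.ncard_coe_finset]
  congr 1
  ext m
  rw [coe_filter, Set.mem_ofPred_eq, Set.mem_ofPred_eq, mem_Box, hW, Set.mem_ofPred_eq]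

end Pool.Agent.V7H10.TB
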