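import Pool.Agent.TH464.PW.Quad
import Pool.Agent.TH464.PO.Poly

set_option autoImplicit false

/-!
# The systems `X ^ 2 + 1, X ^ 2 + 3` and `X, 8 X ^ 2 - 1`
-/

namespace Pool.Agent.V7H10.S2

open Polynomial Finset
open Pool.Agent.W123.RU.Poly Pool.Agent.TH464.PW Pool.Agent.TH464.PO

/-- the system `X ^ 2 + 1, X ^ 2 + 3` -/
noncomputable def sysA : Fin 2 → ℤ[X] := ![quad 1 0 1, quad 1 0 3]

lemma evA0 (m : ℤ) : (sysA 0).eval m = m ^ 2 + 1 := by
  change (quad 1 0 1).eval m = m ^ 2 + 1
  rw [quad_eval]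
  ring

lemma evA1 (m : ℤ) : (sysA 1).eval m = m ^ 2 + 3 := by
  change (quad 1 0 3).eval m = m ^ 2 + 3
  rw [quad_eval]
  ring

lemma not_sq {n : ℤ} (hn : n < 0) : ¬ IsSquare n := by
  rintro ⟨r, hr⟩
  nlinarith [mul_self_nonneg r]

lemma sysA_sys : Sys sysA where
  irr := fun i => by
    fin_cases i
    · exact quad_irr 1 0 1 one_ne_zero (fun p hp h => hp.one_lt.ne' (by
        have := h.1
        exact Nat.dvd_one.1 (by exact_mod_cast this))) (not_sq (by norm_num))
    · exact quad_irr 1 0 3 one_ne_zero (fun p hp h => hp.one_lt.ne' (by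
        have := h.1
        exact Nat.dvd_one.1 (by exact_mod_cast this))) (not_sq (by norm_num))
  deg := fun i => by
    fin_cases i
    · change 0 < (quad 1 0 1).natDegree
      rw [quad_deg _ _ _ one_ne_zero]
      norm_num
    · change 0 < (quad 1 0 3).natDegree
      rw [quad_deg _ _ _ one_ne_zero]
      norm_num
  lead := fun i => by
    fin_cases i
    · change 0 < (quad 1 0 1).leadingCoeff
      rw [quad_lead _ _ _ one_ne_zero]
      norm_num
    · change 0 < (quad 1 0 3).leadingCoeff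
      rw [quad_lead _ _ _ one_ne_zero]
      norm_num
  inj := fun i j hij => by
    have h := congrArg (Polynomial.eval 0) hij
    fin_cases i <;> fin_cases j
    · rfl
    · change (sysA 0).eval 0 = (sysA 1).eval 0 at h
      rw [evA0, evA1] at h
      norm_num at h
    · change (sysA 1).eval 0 = (sysA 0).eval 0 at h
      rw [evA0, evA1] at h
      norm_num at h
    · rfl
  adm := fun p hp => by
    by_cases h3 : p = 3
    · refine ⟨1, fun i => ?_⟩
      subst h3
      fin_cases i
      · change ¬ ((3 : ℕ) : ℤ) ∣ (sysA 0).eval ((1 : ℕ) : ℤ)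
        rw [evA0]
        norm_num
      · change ¬ ((3 : ℕ) : ℤ) ∣ (sysA 1).eval ((1 : ℕ) : ℤ)
        rw [evA1]
        norm_num
    · refine ⟨0, fun i => ?_⟩
      fin_cases i
      · change ¬ (p : ℤ) ∣ (sysA 0).eval ((0 : ℕ) : ℤ)
        rw [evA0]
        intro h
        norm_num at h
        exact hp.one_lt.ne' (Nat.dvd_one.1 (Int.natCast_dvd_natCast.1 (by simpa using h)))
      · change ¬ (p : ℤ) ∣ (sysA 1).eval ((0 : ℕ) : ℤ)
        rw [evA1]
        intro h
        norm_num at h
        have h5 : p ∣ 3 := by exact_mod_cast h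
        exact h3 ((Nat.prime_dvd_prime_iff_eq hp Nat.prime_three).1 h5)

lemma sysA_noTr : NoTr sysA := by
  intro i j t ht heq
  have h0 := congrArg (Polynomial.eval 0) heq
  rw [eval_comp, eval_add, eval_X, eval_C, zero_add] at h0
  have ht1 : (1 : ℤ) ≤ t := by exact_mod_cast ht
  fin_cases i <;> fin_cases j
  · change (sysA 0).eval 0 = (sysA 0).eval (t : ℤ) at h0
    rw [evA0, evA0] at h0
    nlinarith
  · change (sysA 0).eval 0 = (sysA 1).eval (t : ℤ) at h0
    rw [evA0, evA1] at h0
    nlinarith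
  · change (sysA 1).eval 0 = (sysA 0).eval (t : ℤ) at h0
    rw [evA0, evA1] at h0
    have h1 : (t : ℤ) = 1 ∨ 2 ≤ (t : ℤ) := by omega
    rcases h1 with h1 | h1
    · rw [h1] at h0
      norm_num at h0
    · nlinarith
  · change (sysA 1).eval 0 = (sysA 1).eval (t : ℤ) at h0
    rw [evA1, evA1] at h0
    nlinarith

lemma QA_iff (p m : ℕ) : Q sysA p m ↔ p ∣ m ^ 2 + 1 ∨ p ∣ m ^ 2 + 3 := by
  unfold Q
  constructor
  · rintro ⟨i, hi⟩
    fin_cases i
    · change (p : ℤ) ∣ (sysA 0).eval (m : ℤ) at hi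
      rw [evA0] at hi
      left
      exact_mod_cast hi
    · change (p : ℤ) ∣ (sysA 1).eval (m : ℤ) at hi
      rw [evA1] at hi
      right
      exact_mod_cast hi
  · rintro (h | h)
    · refine ⟨0, ?_⟩
      rw [evA0]
      exact_mod_cast h
    · refine ⟨1, ?_⟩
      rw [evA1]
      exact_mod_cast h

/-- the system `X, 8 X ^ 2 - 1` -/
noncomputable def sysB : Fin 2 → ℤ[X] := ![X, quad 8 0 (-1)]

lemma evB0 (m : ℤ) : (sysB 0).eval m = m := by
  unfold sysB
  simp

lemma evB1 (m : ℤ) : (sysB 1).eval m = 8 * m ^ 2 - 1 := by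
  change (quad 8 0 (-1)).eval m = 8 * m ^ 2 - 1
  rw [quad_eval]
  ring

lemma not_sq32 : ¬ IsSquare ((0 : ℤ) ^ 2 - 4 * 8 * (-1)) := by
  rintro ⟨r, hr⟩
  norm_num at hr
  have h1 : r ≤ 5 := by nlinarith
  have h2 : -5 ≤ r := by nlinarith
  interval_cases r <;> omega

lemma sysB_sys : Sys sysB where
  irr := fun i => by
    fin_cases i
    · exact Polynomial.irreducible_X
    · exact quad_irr 8 0 (-1) (by norm_num) (fun p hp h => hp.one_lt.ne' (by
        have h1 := h.2.2
        rw [dvd_neg] at h1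
        exact Nat.dvd_one.1 (by exact_mod_cast h1))) not_sq32
  deg := fun i => by
    fin_cases i
    · change 0 < (X : ℤ[X]).natDegree
      rw [natDegree_X]
      norm_num
    · change 0 < (quad 8 0 (-1)).natDegree
      rw [quad_deg _ _ _ (by norm_num)]
      norm_num
  lead := fun i => by
    fin_cases i
    · change 0 < (X : ℤ[X]).leadingCoeff
      rw [leadingCoeff_X]
      norm_num
    · change 0 < (quad 8 0 (-1)).leadingCoeff
      rw [quad_lead _ _ _ (by norm_num)]
      norm_num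
  inj := fun i j hij => by
    have h := congrArg (Polynomial.eval 0) hij
    fin_cases i <;> fin_cases j
    · rfl
    · change (sysB 0).eval 0 = (sysB 1).eval 0 at h
      rw [evB0, evB1] at h
      norm_num at h
    · change (sysB 1).eval 0 = (sysB 0).eval 0 at h
      rw [evB0, evB1] at h
      norm_num at h
    · rfl
  adm := fun p hp => by
    by_cases h7 : p = 7
    · refine ⟨2, fun i => ?_⟩
      subst h7
      fin_cases i
      · change ¬ ((7 : ℕ) : ℤ) ∣ (sysB 0).eval ((2 : ℕ) : ℤ)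
        rw [evB0]
        norm_num
      · change ¬ ((7 : ℕ) : ℤ) ∣ (sysB 1).eval ((2 : ℕ) : ℤ)
        rw [evB1]
        norm_num
    · refine ⟨1, fun i => ?_⟩
      fin_cases i
      · change ¬ (p : ℤ) ∣ (sysB 0).eval ((1 : ℕ) : ℤ)
        rw [evB0]
        intro h
        exact hp.one_lt.ne' (Nat.dvd_one.1 (by exact_mod_cast h))
      · change ¬ (p : ℤ) ∣ (sysB 1).eval ((1 : ℕ) : ℤ)
        rw [evB1]
        intro h
        norm_num at h
        have h5 : p ∣ 7 := by exact_mod_cast h
        exact h7 ((Nat.prime_dvd_prime_iff_eq hp (by norm_num)).1 h5)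

lemma sysB_noTr : NoTr sysB := by
  intro i j t ht heq
  have h0 := congrArg (Polynomial.eval 0) heq
  rw [eval_comp, eval_add, eval_X, eval_C, zero_add] at h0
  have ht1 : (1 : ℤ) ≤ t := by exact_mod_cast ht
  fin_cases i <;> fin_cases j
  · change (sysB 0).eval 0 = (sysB 0).eval (t : ℤ) at h0
    rw [evB0, evB0] at h0
    linarith
  · change (sysB 0).eval 0 = (sysB 1).eval (t : ℤ) at h0
    rw [evB0, evB1] at h0
    nlinarith
  · change (sysB 1).eval 0 = (sysB 0).eval (t : ℤ) at h0
    rw [evB0, evB1] at h0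
    nlinarith
  · change (sysB 1).eval 0 = (sysB 1).eval (t : ℤ) at h0
    rw [evB1, evB1] at h0
    nlinarith

lemma QB_iff (p m : ℕ) : Q sysB p m ↔ p ∣ m ∨ p ∣ 8 * m ^ 2 - 1 := by
  have hcast : m ≠ 0 → 8 * (m : ℤ) ^ 2 - 1 = ((8 * m ^ 2 - 1 : ℕ) : ℤ) := by
    intro hm
    have h : 1 ≤ 8 * m ^ 2 := by
      have : 1 ≤ m := by omega
      nlinarith
    push_cast [Nat.cast_sub h]
    ring
  unfold Q
  constructor
  · rintro ⟨i, hi⟩
    fin_cases i
    · change (p : ℤ) ∣ (sysB 0).eval (m : ℤ) at hi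
      rw [evB0] at hi
      left
      exact_mod_cast hi
    · change (p : ℤ) ∣ (sysB 1).eval (m : ℤ) at hi
      rw [evB1] at hi
      by_cases hm : m = 0
      · left
        rw [hm]
        exact dvd_zero p
      · right
        rw [hcast hm] at hi
        exact_mod_cast hi
  · rintro (h | h)
    · refine ⟨0, ?_⟩
      rw [evB0]
      exact_mod_cast h
    · by_cases hm : m = 0
      · refine ⟨0, ?_⟩
        rw [evB0, hm]
        simp
      · refine ⟨1, ?_⟩
        rw [evB1, hcast hm]
        exact_mod_cast h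

end Pool.Agent.V7H10.S2
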