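import Mathlib

set_option autoImplicit false

/-! Slices of sets of tuples with a power saving (helper10): for all but few values of the other coordinates the set of
the exceptional values of the first coordinate, from a power of the scale on, has a power saving at all heights. -/

namespace Pool.Agent.V7H10.SL

open Finset

/-- the exceptional values of the first coordinate from `N ^ (1 - κ)` on -/
def Slice (A : ℕ) (κ : ℝ) {r : ℕ} (Bad : (Fin (r + 1) → ℕ) → Prop) (N : ℕ) (h' : Fin r → ℕ) : Set ℕ :=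
  {t : ℕ | (N : ℝ) ^ (1 - κ) ≤ t ∧ t ≤ A * N ∧ Bad (Fin.cons t h' : Fin (r + 1) → ℕ)}

open Classical in
/-- **Slices.** Uniform in the set `Bad` of exceptional tuples. -/
theorem slice (A r : ℕ) {δ : ℝ} (hδ : 0 < δ) (hδ1 : δ ≤ 1) (C : ℝ) :
    ∃ N₁ : ℕ, ∀ N : ℕ, N₁ ≤ N → ∀ Bad : (Fin (r + 1) → ℕ) → Prop,
      ((((Fintype.piFinset fun _ : Fin (r + 1) => Icc 1 (A * N)).filter Bad).card : ℕ) : ℝ) ≤
        C * (N : ℝ) ^ (((r + 1 : ℕ) : ℝ) - δ) →
      ∃ X : Finset (Fin r → ℕ), (X.card : ℝ) ≤ (N : ℝ) ^ ((r : ℝ) - δ / 8) ∧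
        ∀ h' : Fin r → ℕ, (∀ i, 1 ≤ h' i ∧ h' i ≤ A * N) → h' ∉ X → ∀ Z : ℝ, 1 ≤ Z →
          {t : ℕ | t ∈ Slice A (δ / 8) Bad N h' ∧ (t : ℝ) ≤ Z}.Finite ∧
          ({t : ℕ | t ∈ Slice A (δ / 8) Bad N h' ∧ (t : ℝ) ≤ Z}.ncard : ℝ) ≤ 1 * Z ^ (1 - δ / 4) := by
  obtain ⟨N₂, hN₂⟩ : ∃ N₂ : ℕ, ∀ N : ℕ, N₂ ≤ N → C ≤ (N : ℝ) ^ (3 * δ / 8) := by
    have h1 := (tendsto_rpow_atTop (show 0 < 3 * δ / 8 by positivity)).comp (tendsto_natCast_atTop_atTop (R := ℝ))
    exact Filter.eventually_atTop.1 (h1.eventually_ge_atTop C)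
  refine ⟨max N₂ 1, fun N hN Bad hbad => ?_⟩
  have hN1 : 1 ≤ N := (le_max_right _ _).trans hN
  have hN1' : (1 : ℝ) ≤ N := by exact_mod_cast hN1
  have hN0 : (0 : ℝ) < N := by linarith
  have hC := hN₂ N ((le_max_left _ _).trans hN)
  obtain ⟨fib, hfib⟩ : ∃ fib : (Fin r → ℕ) → Finset ℕ, fib = fun h' =>
      (Icc 1 (A * N)).filter (fun t => (Fin.cons t h' : Fin (r + 1) → ℕ) ∈
        (Fintype.piFinset fun _ : Fin (r + 1) => Icc 1 (A * N)).filter Bad) := ⟨_, rfl⟩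
  obtain ⟨X, hX⟩ : ∃ X : Finset (Fin r → ℕ), X = (Fintype.piFinset fun _ : Fin r => Icc 1 (A * N)).filter
      (fun h' => (N : ℝ) ^ (1 - δ / 2) < ((fib h').card : ℝ)) := ⟨_, rfl⟩
  refine ⟨X, ?_, fun h' hh' hX' Z hZ => ?_⟩
  · have h1 : (X.sigma fib).card ≤ ((Fintype.piFinset fun _ : Fin (r + 1) => Icc 1 (A * N)).filter Bad).card := by
      apply card_le_card_of_injOn (fun q => (Fin.cons q.2 q.1 : Fin (r + 1) → ℕ))
      · rintro ⟨h', t⟩ hq
        rw [mem_coe, mem_sigma] at hq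
        obtain ⟨_, h2⟩ := hq
        rw [hfib, mem_filter] at h2
        exact h2.2
      · rintro ⟨h', t⟩ _ ⟨g', s⟩ _ he
        dsimp only at he
        have h0 := congrFun he 0
        rw [Fin.cons_zero, Fin.cons_zero] at h0
        subst h0
        have h2 : h' = g' := by
          funext i
          have := congrFun he i.succ
          rw [Fin.cons_succ, Fin.cons_succ] at this
          exact this
        subst h2
        rfl
    rw [card_sigma] at h1
    have h2 : (X.card : ℝ) * (N : ℝ) ^ (1 - δ / 2) ≤ ((∑ h' ∈ X, (fib h').card : ℕ) : ℝ) := by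
      push_cast
      rw [← nsmul_eq_mul]
      apply card_nsmul_le_sum
      intro h' hh
      rw [hX, mem_filter] at hh
      exact hh.2.le
    have h3 : (X.card : ℝ) * (N : ℝ) ^ (1 - δ / 2) ≤ C * (N : ℝ) ^ (((r + 1 : ℕ) : ℝ) - δ) :=
      h2.trans ((by exact_mod_cast h1 : ((∑ h' ∈ X, (fib h').card : ℕ) : ℝ) ≤
        ((((Fintype.piFinset fun _ : Fin (r + 1) => Icc 1 (A * N)).filter Bad).card : ℕ) : ℝ)).trans hbad)
    have e1 : (N : ℝ) ^ (((r + 1 : ℕ) : ℝ) - δ) = (N : ℝ) ^ ((r : ℝ) - δ / 2) * (N : ℝ) ^ (1 - δ / 2) := by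
      rw [← Real.rpow_add hN0]
      congr 1
      push_cast
      ring
    rw [e1, ← mul_assoc] at h3
    have h4 := le_of_mul_le_mul_right h3 (by positivity)
    refine h4.trans ?_
    calc C * (N : ℝ) ^ ((r : ℝ) - δ / 2) ≤ (N : ℝ) ^ (3 * δ / 8) * (N : ℝ) ^ ((r : ℝ) - δ / 2) :=
          mul_le_mul_of_nonneg_right hC (by positivity)
      _ = (N : ℝ) ^ ((r : ℝ) - δ / 8) := by
          rw [← Real.rpow_add hN0]
          congr 1
          ring
  · have hcard : ((fib h').card : ℝ) ≤ (N : ℝ) ^ (1 - δ / 2) := by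
      by_contra hcon
      rw [not_le] at hcon
      apply hX'
      rw [hX, mem_filter, Fintype.mem_piFinset]
      exact ⟨fun i => mem_Icc.2 (hh' i), hcon⟩
    have hsub : {t : ℕ | t ∈ Slice A (δ / 8) Bad N h' ∧ (t : ℝ) ≤ Z} ⊆ (fib h' : Set ℕ) := by
      rintro t ⟨⟨h1, h2, h3⟩, _⟩
      have ht : 1 ≤ t := by
        have h4 : (0 : ℝ) < t := lt_of_lt_of_le (by positivity) h1
        exact_mod_cast h4
      rw [hfib, mem_coe, mem_filter, mem_Icc, mem_filter, Fintype.mem_piFinset]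
      refine ⟨⟨ht, h2⟩, fun i => ?_, h3⟩
      refine Fin.cases ?_ (fun j => ?_) i
      · rw [Fin.cons_zero, mem_Icc]
        exact ⟨ht, h2⟩
      · rw [Fin.cons_succ, mem_Icc]
        exact hh' j
    refine ⟨(finite_toSet _).subset hsub, ?_⟩
    rcases lt_or_ge Z ((N : ℝ) ^ (1 - δ / 8)) with h1 | h1
    · have : {t : ℕ | t ∈ Slice A (δ / 8) Bad N h' ∧ (t : ℝ) ≤ Z} = ∅ := by
        ext t
        constructor
        · rintro ⟨⟨h2, _⟩, h3⟩
          exact absurd (h2.trans h3) (not_le.2 h1)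
        · intro h2
          exact absurd h2 (Set.notMem_empty t)
      rw [this, Set.ncard_empty, Nat.cast_zero]
      positivity
    · have h2 := Set.ncard_le_ncard hsub (finite_toSet _)
      rw [Set.ncard_coe_finset] at h2
      have hexp : 1 - δ / 2 ≤ (1 - δ / 8) * (1 - δ / 4) := by nlinarith
      have h3 : (N : ℝ) ^ (1 - δ / 2) ≤ Z ^ (1 - δ / 4) := by
        calc (N : ℝ) ^ (1 - δ / 2) ≤ (N : ℝ) ^ ((1 - δ / 8) * (1 - δ / 4)) :=
              Real.rpow_le_rpow_of_exponent_le hN1' hexp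
          _ = ((N : ℝ) ^ (1 - δ / 8)) ^ (1 - δ / 4) := Real.rpow_mul hN0.le _ _
          _ ≤ Z ^ (1 - δ / 4) := Real.rpow_le_rpow (by positivity) h1 (by linarith)
      rw [one_mul]
      exact (Nat.cast_le.2 h2).trans (hcard.trans h3)

end Pool.Agent.V7H10.SL
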