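import Pool.Agent.N733.TG.M

set_option autoImplicit false

/-! Tuples of values of multiplicative functions avoid the neighbourhoods of the members of a set of tuples with a power
saving, uniformly in the set (helper10). -/

namespace Pool.Agent.V7H10.TB

open Finset Classical
open Pool.Agent.N733.TG (LM Box mem_Box tuples)

/-- the natural numbers `w` with `|x - a w| ≤ z` -/
lemma near_one (x a z : ℝ) (ha : 0 < a) (hz : 0 ≤ z) (hx : 0 ≤ x) :
    ∃ S : Finset ℕ, (S.card : ℝ) ≤ 2 * z / a + 1 ∧ ∀ w : ℕ, |x - a * w| ≤ z → w ∈ S := by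
  refine ⟨Icc ⌈(x - z) / a⌉₊ ⌊(x + z) / a⌋₊, ?_, fun w hw => ?_⟩
  · rw [Nat.card_Icc]
    have h1 : (⌊(x + z) / a⌋₊ : ℝ) ≤ (x + z) / a := Nat.floor_le (by positivity)
    have h2 : (x - z) / a ≤ (⌈(x - z) / a⌉₊ : ℝ) := Nat.le_ceil _
    have h3 : (x + z) / a - (x - z) / a = 2 * z / a := by field_simp; ring
    rcases le_total ⌈(x - z) / a⌉₊ (⌊(x + z) / a⌋₊ + 1) with h | h
    · rw [Nat.cast_sub h]
      push_cast
      linarith
    · rw [Nat.sub_eq_zero_of_le h, Nat.cast_zero]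
      positivity
  · rw [abs_le] at hw
    rw [mem_Icc]
    constructor
    · apply Nat.ceil_le.2
      rw [div_le_iff₀ ha]
      linarith [hw.2]
    · apply Nat.le_floor
      rw [le_div_iff₀ ha]
      linarith [hw.1]

/-- the tuples near the members of a finite set of tuples -/
lemma near_count {r : ℕ} (B : Finset (Fin r → ℕ)) (α : Fin r → ℝ) (hα : ∀ i, 0 < α i) {z : ℝ} (hz : 1 ≤ z)
    (V : Finset (Fin r → ℕ)) (hV : ∀ w ∈ V, ∃ h ∈ B, ∀ i, |(h i : ℝ) - α i * w i| ≤ z) :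
    (V.card : ℝ) ≤ (∏ i, (2 / α i + 1)) * z ^ r * B.card := by
  choose S hS1 hS2 using fun (h : Fin r → ℕ) (i : Fin r) =>
    near_one (h i : ℝ) (α i) z (hα i) (by linarith) (Nat.cast_nonneg _)
  have hsub : V ⊆ B.biUnion (fun h => Fintype.piFinset fun i => S h i) := by
    intro w hw
    obtain ⟨h, hh, h1⟩ := hV w hw
    rw [mem_biUnion]
    refine ⟨h, hh, ?_⟩
    rw [Fintype.mem_piFinset]
    exact fun i => hS2 h i (w i) (h1 i)
  have h1 : ∀ h ∈ B, ((Fintype.piFinset fun i => S h i).card : ℝ) ≤ (∏ i, (2 / α i + 1)) * z ^ r := by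
    intro h _
    rw [Fintype.card_piFinset]
    push_cast
    have e : (∏ i : Fin r, (2 / α i + 1)) * z ^ r = ∏ i : Fin r, ((2 / α i + 1) * z) := by
      rw [prod_mul_distrib, prod_const, card_univ, Fintype.card_fin]
    rw [e]
    apply prod_le_prod (fun i _ => Nat.cast_nonneg _)
    intro i _
    refine (hS1 h i).trans ?_
    have h2 : 0 < 2 / α i := div_pos two_pos (hα i)
    have h3 : 2 * z / α i = 2 / α i * z := by ring
    rw [h3]
    nlinarith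
  calc (V.card : ℝ) ≤ ((B.biUnion (fun h => Fintype.piFinset fun i => S h i)).card : ℝ) := by
        exact_mod_cast card_le_card hsub
    _ ≤ ∑ h ∈ B, ((Fintype.piFinset fun i => S h i).card : ℝ) := by exact_mod_cast card_biUnion_le
    _ ≤ ∑ h ∈ B, ((∏ i, (2 / α i + 1)) * z ^ r) := sum_le_sum h1
    _ = (∏ i, (2 / α i + 1)) * z ^ r * B.card := by rw [sum_const, nsmul_eq_mul]; ring

/-- **Tool.** For large `N`, uniformly in the finite set `B` of at most `C N ^ (r - δ)` tuples: for all but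
`N ^ r / (log N) ^ U` of the tuples `m` in `[1, N] ^ r` no member of `B` is in the box of radius `N ^ κ` around
`(α_1 F_1(m_1), …, α_r F_r(m_r))`; here `κ r < δ`. -/
theorem avoid_boxes {r : ℕ} {F : Fin r → ℕ → ℕ} (hF : ∀ i, LM (F i)) (α : Fin r → ℝ) (hα : ∀ i, 0 < α i)
    {δ κ : ℝ} (hκ : 0 ≤ κ) (h1 : κ * r < δ) (C : ℝ) (U : ℕ) :
    ∃ N₀ : ℕ, ∀ N : ℕ, N₀ ≤ N → ∀ B : Finset (Fin r → ℕ), (B.card : ℝ) ≤ C * (N : ℝ) ^ ((r : ℝ) - δ) →
      ({m : Fin r → ℕ | (∀ i, 1 ≤ m i ∧ m i ≤ N) ∧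
        ∃ h ∈ B, ∀ i, |(h i : ℝ) - α i * F i (m i)| ≤ (N : ℝ) ^ κ}.ncard : ℝ) ≤ (N : ℝ) ^ r / Real.log N ^ U := by
  obtain ⟨N₀, hN₀⟩ := tuples r F hF (δ - κ * r) 1 (by linarith) one_pos ((∏ i, (2 / α i + 1)) * |C|) U
  refine ⟨max N₀ 1, fun N hN B hB => ?_⟩
  have hN1 : 1 ≤ N := (le_max_right _ _).trans hN
  have hN1' : (1 : ℝ) ≤ N := by exact_mod_cast hN1
  have hN0 : (0 : ℝ) < N := by linarith
  obtain ⟨W, hW⟩ : ∃ W : Set (Fin r → ℕ), W = {w | ∃ h ∈ B, ∀ i, |(h i : ℝ) - α i * w i| ≤ (N : ℝ) ^ κ} := ⟨_, rfl⟩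
  have hP : 0 ≤ ∏ i, (2 / α i + 1) := prod_nonneg fun i _ => by
    have := div_pos two_pos (hα i)
    linarith
  have h2 := hN₀ N ((le_max_left _ _).trans hN) W (by
    refine (near_count B α hα (Real.one_le_rpow hN1' hκ) _ (fun w hw => ?_)).trans ?_
    · rw [mem_filter, hW] at hw
      exact hw.2
    · have e1 : ((N : ℝ) ^ κ) ^ r = (N : ℝ) ^ (κ * r) := by
        rw [← Real.rpow_natCast, ← Real.rpow_mul hN0.le]
      have e2 : (N : ℝ) ^ ((r : ℝ) - (δ - κ * r)) = (N : ℝ) ^ (κ * r) * (N : ℝ) ^ ((r : ℝ) - δ) := by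
        rw [← Real.rpow_add hN0]
        congr 1
        ring
      rw [e1, e2]
      have h3 : (B.card : ℝ) ≤ |C| * (N : ℝ) ^ ((r : ℝ) - δ) :=
        hB.trans (mul_le_mul_of_nonneg_right (le_abs_self C) (by positivity))
      calc (∏ i, (2 / α i + 1)) * (N : ℝ) ^ (κ * r) * (B.card : ℝ)
          ≤ (∏ i, (2 / α i + 1)) * (N : ℝ) ^ (κ * r) * (|C| * (N : ℝ) ^ ((r : ℝ) - δ)) :=
            mul_le_mul_of_nonneg_left h3 (by positivity)
        _ = _ := by ring)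
  refine le_trans (le_of_eq ?_) h2
  congr 1
  rw [← Set.ncard_coe_finset]
  congr 1
  ext m
  rw [coe_filter, Set.mem_ofPred_eq, Set.mem_ofPred_eq, mem_Box, hW, Set.mem_ofPred_eq]

end Pool.Agent.V7H10.TB
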