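import Pool.Agent.V7H10.BP

set_option autoImplicit false

/-!
# Exact blocks: explicit form
-/

namespace Pool.Agent.V7H10.BG

open Polynomial Finset Filter
open Pool.Agent.W123.RP Pool.Agent.H373R2.T7 Pool.Agent.W123.RU Pool.Agent.W123.RU.Poly
open Pool.Agent.TH464.PW Pool.Agent.TH464.PO Pool.Agent.R463.PP Pool.Agent.R463.EX Pool.Agent.Y879.PR

/-- no prime `p ≤ y` with `D p m` -/
def Rg (D : ℕ → ℕ → Prop) (y m : ℕ) : Prop := ∀ p : ℕ, p.Prime → p ≤ y → ¬ D p m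

open Classical in
/-- the number of the residues `m` mod `p` with `D p (m + h)` for some `h ∈ H` -/
noncomputable def om (D : ℕ → ℕ → Prop) (H : Finset ℕ) (p : ℕ) : ℕ :=
  ((range p).filter (fun m => ∃ h ∈ H, D p (m + h))).card

/-- the density -/
noncomputable def V (D : ℕ → ℕ → Prop) (H : Finset ℕ) (y : ℕ) : ℝ :=
  ∏ p ∈ (Icc 1 y).filter Nat.Prime, (1 - (om D H p : ℝ) / p)

/-- the number of the blocks -/
noncomputable def blocks (D : ℕ → ℕ → Prop) (H : Finset ℕ) (L y Z Y : ℕ) : ℕ :=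
  Set.ncard {m : ℕ | Z < m ∧ m ≤ Z + Y ∧ ∀ h ≤ L, (Rg D y (m + h) ↔ h ∈ H)}

/-- the number of the blocks with `a m + b` prime -/
noncomputable def pblocks (D : ℕ → ℕ → Prop) (a b : ℕ) (H : Finset ℕ) (L y Z Y : ℕ) : ℕ :=
  Set.ncard {m : ℕ | Z < m ∧ m ≤ Z + Y ∧ (a * m + b).Prime ∧ ∀ h ≤ L, (Rg D y (m + h) ↔ h ∈ H)}

variable {ι : Type} (f : ι → ℤ[X]) (D : ℕ → ℕ → Prop)

lemma rg_iff (hD : ∀ p m : ℕ, Q f p m ↔ D p m) (y n : ℕ) : Rg D y n ↔ Sf (Q f) y n := by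
  constructor
  · intro h p hp hQ
    obtain ⟨h1, h2⟩ := mem_pz.1 hp
    exact h p h2 h1 ((hD p n).1 hQ)
  · intro h p hp hpy hd
    exact h p (mem_pz.2 ⟨hpy, hp⟩) ((hD p n).2 hd)

lemma V_eq (hD : ∀ p m : ℕ, Q f p m ↔ D p m) (H : Finset ℕ) (y : ℕ) : Vq (QH (Q f) H) y = V D H y := by
  classical
  unfold V Vq
  apply Finset.prod_congr rfl
  intro p _
  have : nuB (QH (Q f) H) p = om D H p := by
    unfold om nuB QH
    apply congrArg
    ext m
    simp only [mem_filter, hD]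
  rw [this]

lemma V0_eq (hD : ∀ p m : ℕ, Q f p m ↔ D p m) (y : ℕ) : Vq (Q f) y = V D {0} y := by
  classical
  unfold V Vq
  apply Finset.prod_congr rfl
  intro p _
  have : nuB (Q f) p = om D {0} p := by
    unfold om nuB
    apply congrArg
    ext m
    simp only [mem_filter, hD, mem_singleton, exists_eq_left, add_zero]
  rw [this]

lemma blocks_eq (hD : ∀ p m : ℕ, Q f p m ↔ D p m) (H : Finset ℕ) (L y Z Y : ℕ) :
    exN (Q f) H L y Z Y = blocks D H L y Z Y := by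
  classical
  unfold exN blocks
  rw [← Set.ncard_coe_finset]
  congr 1
  ext n
  simp only [coe_filter, mem_Icc, Set.mem_ofPred_eq, rg_iff f D hD]
  constructor
  · rintro ⟨⟨h1, h2⟩, h3⟩
    exact ⟨by omega, h2, h3⟩
  · rintro ⟨h1, h2, h3⟩
    exact ⟨⟨by omega, h2⟩, h3⟩

lemma pblocks_eq (hD : ∀ p m : ℕ, Q f p m ↔ D p m) (a b : ℕ) (H : Finset ℕ) (L y Z Y : ℕ) :
    exP a b (Q f) H L y Z Y = pblocks D a b H L y Z Y := by
  classical
  unfold exP pblocks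
  rw [← Set.ncard_coe_finset]
  congr 1
  ext n
  simp only [coe_filter, mem_Ioc, Set.mem_ofPred_eq, rg_iff f D hD]
  constructor
  · rintro ⟨⟨h1, h2⟩, h3, h4⟩
    exact ⟨h1, h2, h3, h4⟩
  · rintro ⟨h1, h2, h3, h4⟩
    exact ⟨⟨h1, h2⟩, h3, h4⟩

/-- **Exact blocks**, explicit form. -/
theorem short [Fintype ι] [Nonempty ι] (hf : Sys f) (hT : NoTr f) (hD : ∀ p m : ℕ, Q f p m ↔ D p m)
    (K : ℕ) (x0 ε : ℝ) (hε : 0 < ε) :
    ∃ s y0 : ℕ, ∀ y : ℕ, y0 ≤ y → ∀ Z Y : ℕ, y ^ s ≤ Y → ∀ H : Finset ℕ, H.card ≤ K → 0 ∈ H →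
      ∀ L : ℕ, (∀ h ∈ H, h ≤ L) → L * V D {0} y ≤ x0 →
        |(blocks D H L y Z Y : ℝ) - Y * V D H y * Real.exp (-(L * V D {0} y))| ≤
          ε * (Y * V D H y * Real.exp (-(L * V D {0} y))) := by
  obtain ⟨s, y0, h⟩ := Pool.Agent.V7H10.BP.short_all f hf hT K x0 ε hε
  refine ⟨s, y0, ?_⟩
  intro y hy Z Y hY H hH h0 L hHL hL
  rw [← V0_eq f D hD] at hL ⊢
  rw [← blocks_eq f D hD, ← V_eq f D hD]
  exact h y hy Z Y hY H hH h0 L hHL hL

/-- **Exact blocks with a prime**, explicit form. -/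
theorem withPrime [Fintype ι] [Nonempty ι] (hf : Sys f) (hT : NoTr f) (hD : ∀ p m : ℕ, Q f p m ↔ D p m)
    (a c0 : ℕ) (ha : Squarefree a)
    (hcop : Nat.Coprime a c0) (hnon : ∀ p n : ℕ, p.Prime → p ∣ a → ¬ D p n)
    (hc0 : ∀ p n : ℕ, p.Prime → ¬ p ∣ a → p ∣ a * n + c0 → D p n) (K : ℕ) (x0 ε δ : ℝ)
    (hε : 0 < ε) (hδ : 0 < δ) (hδ1 : δ ≤ 1) :
    ∃ s y0 : ℕ, ∀ y : ℕ, y0 ≤ y → ∀ X : ℕ, y ^ s ≤ X → ∀ H : Finset ℕ, H.card ≤ K → 0 ∈ H →
      ∀ h ∈ H, ∀ L : ℕ, (∀ x ∈ H, x ≤ L) → L * V D {0} y ≤ x0 →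
      ∀ Z Y : ℕ, δ * X ≤ Z → δ * X ≤ Y → Z + Y ≤ X →
        |(pblocks D a (a * h + c0) H L y Z Y : ℝ) * Real.log X -
          Y * (V D H y / ∏ p ∈ (Icc 1 y).filter Nat.Prime, (1 - 1 / (p : ℝ))) * Real.exp (-(L * V D {0} y))| ≤
          ε * (Y * (V D H y / ∏ p ∈ (Icc 1 y).filter Nat.Prime, (1 - 1 / (p : ℝ))) *
            Real.exp (-(L * V D {0} y))) := by
  obtain ⟨s, y0, h⟩ := Pool.Agent.V7H10.BP.prime_all f hf hT a c0 ha hcop
    (fun p n hp hpa hQ => hnon p n hp hpa ((hD p n).1 hQ))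
    (fun p n hp hpa hn => (hD p n).2 (hc0 p n hp hpa hn)) K x0 ε δ hε hδ hδ1
  refine ⟨s, y0, ?_⟩
  intro y hy X hX H hH h0 h' hh' L hHL hL Z Y hZ hY hZY
  rw [← V0_eq f D hD] at hL ⊢
  rw [← pblocks_eq f D hD, ← V_eq f D hD]
  exact h y hy X hX H hH h0 h' hh' L hHL hL Z Y hZ hY hZY

/-- few prime factors -/
lemma few (z s N : ℕ) (hN : 0 < N) (hNz : N ≤ z ^ s) (h : ∀ p : ℕ, p.Prime → p ≤ z → ¬ p ∣ N) :
    N.primeFactorsList.length ≤ s := by
  by_contra hcon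
  rw [not_le] at hcon
  have h1 : ∀ q ∈ N.primeFactorsList, z + 1 ≤ q := by
    intro q hq
    by_contra h2
    exact h q (Nat.prime_of_mem_primeFactorsList hq) (by omega) (Nat.dvd_of_mem_primeFactorsList hq)
  have h2 : (z + 1) ^ N.primeFactorsList.length ≤ N.primeFactorsList.prod := List.pow_card_le_prod _ _ h1
  rw [Nat.prod_primeFactorsList hN.ne'] at h2
  have h3 : z ^ s < (z + 1) ^ N.primeFactorsList.length := by
    calc z ^ s ≤ (z + 1) ^ s := Nat.pow_le_pow_left (by omega) s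
      _ < (z + 1) ^ N.primeFactorsList.length := Nat.pow_lt_pow_right (by
          rcases Nat.eq_zero_or_pos z with h4 | h4
          · exfalso
            subst h4
            rcases Nat.eq_zero_or_pos s with h5 | h5
            · subst h5
              have : N = 1 := by simp at hNz; omega
              rw [this] at hcon
              simp at hcon
            · rw [Nat.zero_pow h5] at hNz
              omega
          · omega) hcon
  omega

end Pool.Agent.V7H10.BG
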