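import Pool.Agent.R463.EX9
import Pool.Agent.V11146.MK.Poly

set_option autoImplicit false

/-!
# Exact blocks of almost prime values of a system of polynomials, in all short intervals, and with a prime at a
prescribed place
-/

namespace Pool.Agent.V7H10.BP

open Polynomial Finset Filter
open Pool.Agent.W123.RP Pool.Agent.H373R2.T7 Pool.Agent.W123.RU Pool.Agent.W123.RU.Poly
open Pool.Agent.TH464.PW Pool.Agent.TH464.PO Pool.Agent.R463.PP Pool.Agent.R463.EX Pool.Agent.Y879.PR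

variable {ι : Type} [Fintype ι]

/-- powers of the logarithm are small -/
lemma logpow_le (A : ℝ) (n : ℕ) : ∃ y0 : ℕ, ∀ y : ℕ, y0 ≤ y → A * Real.log y ^ n ≤ y := by
  obtain ⟨y0, h0⟩ := eventually_atTop.1 (logpow_rpow n (|A| + 1) 1 (by positivity) one_pos)
  refine ⟨max y0 1, ?_⟩
  intro y hy
  have h1 := h0 y ((le_max_left _ _).trans hy)
  rw [Real.rpow_one] at h1
  have hy1 : (1 : ℝ) ≤ y := by exact_mod_cast (le_max_right _ _).trans hy
  have h2 : 0 ≤ Real.log (y : ℝ) ^ n := pow_nonneg (Real.log_nonneg hy1) _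
  have h3 : A ≤ |A| + 1 := (le_abs_self A).trans (by linarith)
  exact (mul_le_mul_of_nonneg_right h3 h2).trans h1

/-- the logarithm is large -/
lemma log_ge (A : ℝ) : ∃ y0 : ℕ, ∀ y : ℕ, y0 ≤ y → A ≤ Real.log y := by
  have hlogX : Tendsto (fun X : ℕ => Real.log (X : ℝ)) atTop atTop :=
    Real.tendsto_log_atTop.comp tendsto_natCast_atTop_atTop
  exact eventually_atTop.1 (hlogX.eventually_ge_atTop A)

/-- a set of shifts without local obstruction -/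
lemma adm_of (Q : ℕ → ℕ → Prop) (c y : ℕ) (hQ : PerB Q c) (hy : c < y)
    (h : ∀ p ∈ pz y, nuB Q p < p) (p : ℕ) (hp : p.Prime) : nuB Q p < p := by
  by_cases hpy : p ≤ y
  · exact h p (mem_pz.2 ⟨hpy, hp⟩)
  · have := hQ.few p hp
    omega

open Classical in
/-- **Exact blocks in all short intervals.** -/
theorem short_sys [Nonempty ι] (f : ι → ℤ[X]) (hf : Sys f) (hT : NoTr f) (g : ℕ) (hg : 1 ≤ g)
    (x0 ε : ℝ) (hε : 0 < ε) :
    ∃ K y0 : ℕ, ∀ y : ℕ, y0 ≤ y → ∀ Z Y : ℕ, y ^ K ≤ Y → ∀ H : Finset ℕ, H.card = g → 0 ∈ H →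
      ∀ L : ℕ, H ⊆ range (L + 1) → L * Vq (Q f) y ≤ x0 →
        |(exN (Q f) H L y Z Y : ℝ) - Y * Vq (QH (Q f) H) y * Real.exp (-(L * Vq (Q f) y))| ≤
          ε * (Y * Vq (QH (Q f) H) y * Real.exp (-(L * Vq (Q f) y))) := by
  obtain ⟨c, hc, hQ⟩ := exists_c f hf
  obtain ⟨P, hP⟩ := patt c g hc hg x0 ε hε
  obtain ⟨v, Cv, hv, hCv, hV⟩ := V_bounds f hf
  obtain ⟨k, hk⟩ : ∃ k, k = Fintype.card ι := ⟨_, rfl⟩
  have hk1 : 1 ≤ k := by rw [hk]; exact Fintype.card_pos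
  rw [← hk] at hV
  obtain ⟨v', hv', hV'⟩ := V_lower_unif (g * c)
  obtain ⟨y1, h1⟩ := Pool.Agent.V11146.MK.sizes_y f hf hT P.T0 P.R0 P.η P.κ P.x1 P.hη P.hκ P.hx1.le
  have hκ := P.hκ
  have hx1 := P.hx1
  obtain ⟨y2, h2⟩ := log_ge (1 + Cv / P.κ)
  obtain ⟨y3, h3⟩ := logpow_le (1 / (v * P.κ)) k
  obtain ⟨y4, h4⟩ := logpow_le (P.x1 / (P.κ * v ^ 2)) (k * 2)
  obtain ⟨y5, h5⟩ := logpow_le ((P.x1 / v) ^ P.R0 / (P.κ * v')) (k * P.R0 + g * c)
  refine ⟨P.K0 + 2, P.y0 + y1 + y2 + y3 + y4 + y5 + g * c + 3, ?_⟩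
  intro y hy Z Y hY H hHg h0 L hHL hLx
  have hy1 : 1 ≤ y := by omega
  have hyr1 : (1 : ℝ) ≤ y := by exact_mod_cast hy1
  have hyr : (0 : ℝ) < y := by linarith
  have hlog := h2 y (by omega)
  have hl1 : 1 ≤ Real.log (y : ℝ) := by
    have : 0 ≤ Cv / P.κ := by positivity
    linarith
  have hl0 : 0 < Real.log (y : ℝ) := by linarith
  obtain ⟨hVlo, hVup⟩ := hV y (by omega)
  have hlk : 0 < Real.log (y : ℝ) ^ k := by positivity
  have hVpos : 0 < Vq (Q f) y := lt_of_lt_of_le (by positivity) hVlo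
  have hY2 : y ^ 2 ≤ Y := (Nat.pow_le_pow_right hy1 (by omega)).trans hY
  have hYr2 : (y : ℝ) ^ 2 ≤ Y := by exact_mod_cast hY2
  have hY0 : (0 : ℝ) < Y := lt_of_lt_of_le (by positivity) hYr2
  have hsq : (y : ℝ) ≤ √(Y : ℝ) := Real.le_sqrt_of_sq_le hYr2
  have hsq0 : 0 < √(Y : ℝ) := by linarith
  have hss : √(Y : ℝ) * √(Y : ℝ) = Y := Real.mul_self_sqrt hY0.le
  have hVκ : Vq (Q f) y ≤ P.κ := by
    refine hVup.trans ?_
    rw [div_le_iff₀ hlk]
    have h6 : Real.log (y : ℝ) ≤ Real.log y ^ k := by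
      calc Real.log (y : ℝ) = Real.log y ^ 1 := (pow_one _).symm
        _ ≤ Real.log y ^ k := pow_le_pow_right₀ hl1 hk1
    calc Cv = P.κ * (Cv / P.κ) := by field_simp
      _ ≤ P.κ * Real.log y ^ k := mul_le_mul_of_nonneg_left (by linarith) hκ.le
  have hκV : 1 ≤ P.κ * (y * Vq (Q f) y) := by
    have h6 := h3 y (by omega)
    rw [one_div, inv_mul_le_iff₀ (by positivity)] at h6
    have h7 : (y : ℝ) * (v / Real.log y ^ k) ≤ y * Vq (Q f) y := mul_le_mul_of_nonneg_left hVlo hyr.le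
    have h8 : 1 ≤ P.κ * (y * (v / Real.log y ^ k)) := by
      rw [show P.κ * ((y : ℝ) * (v / Real.log y ^ k)) = v * P.κ * y / Real.log y ^ k by ring,
        le_div_iff₀ hlk, one_mul]
      exact h6
    exact h8.trans (mul_le_mul_of_nonneg_left h7 hκ.le)
  have hok : Ok P c 1 (Q f) Y y := by
    refine ⟨hQ, fun p hp => Poly.adm f hf p hp, ?_, by omega,
      (Nat.pow_le_pow_right hy1 (by omega)).trans hY, hVκ, ?_, ?_, ?_⟩
    · intro p hp hp1
      exact absurd (Nat.dvd_one.1 hp1) hp.one_lt.ne'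
    · have h6 : P.κ * (y * Vq (Q f) y) ≤ P.κ * (√(Y : ℝ) * Vq (Q f) y) := by gcongr
      calc √(Y : ℝ) = √(Y : ℝ) * 1 := (mul_one _).symm
        _ ≤ √(Y : ℝ) * (P.κ * (√(Y : ℝ) * Vq (Q f) y)) := by gcongr; linarith
        _ = P.κ * (√(Y : ℝ) * √(Y : ℝ) * Vq (Q f) y) := by ring
        _ = P.κ * (Y * Vq (Q f) y) := by rw [hss]
    · have h6 := h4 y (by omega)
      rw [div_mul_eq_mul_div, div_le_iff₀ (by positivity)] at h6
      rw [div_le_iff₀ hVpos]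
      have h7 : P.x1 ≤ P.κ * y * (v / Real.log y ^ k) ^ 2 := by
        rw [div_pow, ← pow_mul, mul_div_assoc', le_div_iff₀ (by positivity)]
        calc P.x1 * Real.log y ^ (k * 2) ≤ y * (P.κ * v ^ 2) := h6
          _ = P.κ * y * v ^ 2 := by ring
      calc P.x1 ≤ P.κ * y * (v / Real.log y ^ k) ^ 2 := h7
        _ ≤ P.κ * y ^ 2 * (Vq (Q f) y) ^ 2 := by
            have h8 : (y : ℝ) ≤ y ^ 2 := by nlinarith
            gcongr
        _ ≤ P.κ * Y * (Vq (Q f) y) ^ 2 := by gcongr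
        _ = P.κ * (Y * Vq (Q f) y) * Vq (Q f) y := by ring
    · intro T hT1 hT2
      obtain ⟨a1, a2, a3⟩ := h1 y (by omega) T hT1 hT2
      refine ⟨a1, a2.trans ?_, a3⟩
      exact (Nat.le_self_pow (by norm_num) y).trans hY2
  have hperH := perB_QH (Q f) c hQ H
  rw [hHg] at hperH
  by_cases hzero : ∀ p ∈ pz y, nuB (QH (Q f) H) p < p
  · apply hP (Q f) Y y hok Z H hHg h0 L hHL hLx
    intro T hT
    have hadmH := adm_of _ _ y hperH (by omega) hzero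
    have hVH := hV' (QH (Q f) H) hperH hadmH y (by omega)
    have hT3 : (T : ℝ) ≤ P.x1 / v * Real.log y ^ k := by
      have h6 : (T : ℝ) * (v / Real.log y ^ k) ≤ P.x1 :=
        (mul_le_mul_of_nonneg_left hVlo (Nat.cast_nonneg _)).trans hT
      rw [← mul_div_assoc, div_le_iff₀ hlk] at h6
      rw [div_mul_eq_mul_div, le_div_iff₀ hv]
      exact h6
    have h6 : (T : ℝ) ^ P.R0 ≤ (P.x1 / v) ^ P.R0 * Real.log y ^ (k * P.R0) := by
      calc (T : ℝ) ^ P.R0 ≤ (P.x1 / v * Real.log y ^ k) ^ P.R0 := pow_le_pow_left₀ (Nat.cast_nonneg _) hT3 _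
        _ = (P.x1 / v) ^ P.R0 * Real.log y ^ (k * P.R0) := by rw [mul_pow, pow_mul]
    have h7 := h5 y (by omega)
    rw [div_mul_eq_mul_div, div_le_iff₀ (by positivity), pow_add] at h7
    have h8 : (T : ℝ) ^ P.R0 ≤ P.κ * (y * Vq (QH (Q f) H) y) := by
      refine h6.trans ?_
      calc (P.x1 / v) ^ P.R0 * Real.log y ^ (k * P.R0) =
            (P.x1 / v) ^ P.R0 * (Real.log y ^ (k * P.R0) * Real.log y ^ (g * c)) / Real.log y ^ (g * c) := by
            field_simp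
        _ ≤ y * (P.κ * v') / Real.log y ^ (g * c) := by gcongr
        _ = P.κ * (y * (v' / Real.log y ^ (g * c))) := by ring
        _ ≤ P.κ * (y * Vq (QH (Q f) H) y) := by gcongr
    have hVH0 : 0 < Vq (QH (Q f) H) y := Vq_pos _ hadmH y
    calc (T : ℝ) ^ P.R0 * √(Y : ℝ) ≤ P.κ * (y * Vq (QH (Q f) H) y) * √(Y : ℝ) := by gcongr
      _ ≤ P.κ * (√(Y : ℝ) * Vq (QH (Q f) H) y) * √(Y : ℝ) := by gcongr
      _ = P.κ * (√(Y : ℝ) * √(Y : ℝ) * Vq (QH (Q f) H) y) := by ring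
      _ = P.κ * (Y * Vq (QH (Q f) H) y) := by rw [hss]
  · push Not at hzero
    obtain ⟨p, hp, hnu⟩ := hzero
    have hnu' : nuB (QH (Q f) H) p = p := le_antisymm (nuB_le _ p) hnu
    have hp0 : (0 : ℝ) < p := by exact_mod_cast (mem_pz.1 hp).2.pos
    have hV0 : Vq (QH (Q f) H) y = 0 := by
      unfold Vq
      apply Finset.prod_eq_zero hp
      rw [hnu', div_self hp0.ne', sub_self]
    rw [exN_eq_zero (Q f) c hQ H L y Z Y hHL p hp hnu', hV0]
    simp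

open Classical in
/-- **Exact blocks with a prime at a prescribed place.** Here `a n + c₀` is one of the members of the system. -/
theorem prime_sys [Nonempty ι] (f : ι → ℤ[X]) (hf : Sys f) (hT : NoTr f) (a c0 : ℕ) (ha : Squarefree a)
    (hcop : Nat.Coprime a c0) (hnon : ∀ p n : ℕ, p.Prime → p ∣ a → ¬ Q f p n)
    (hc0 : ∀ p n : ℕ, p.Prime → ¬ p ∣ a → p ∣ a * n + c0 → Q f p n) (g : ℕ) (hg : 1 ≤ g) (x0 ε δ : ℝ)
    (hε : 0 < ε) (hδ : 0 < δ) (hδ1 : δ ≤ 1) :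
    ∃ K y0 : ℕ, ∀ y : ℕ, y0 ≤ y → ∀ X : ℕ, y ^ K ≤ X → ∀ H : Finset ℕ, H.card = g → 0 ∈ H →
      ∀ h ∈ H, ∀ L : ℕ, H ⊆ range (L + 1) → L * Vq (Q f) y ≤ x0 →
      ∀ u Y : ℕ, δ * X ≤ u → δ * X ≤ Y → u + Y ≤ X →
        |(exP a (a * h + c0) (Q f) H L y u Y : ℝ) * Real.log X - Y * (Vq (QH (Q f) H) y / Vz y) *
          Real.exp (-(L * Vq (Q f) y))| ≤
          ε * (Y * (Vq (QH (Q f) H) y / Vz y) * Real.exp (-(L * Vq (Q f) y))) := by
  obtain ⟨ε1, hε1⟩ : ∃ ε1 : ℝ, ε1 = min 1 (ε * Real.exp (-x0)) := ⟨_, rfl⟩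
  have hex := Real.exp_pos (-x0)
  have hε10 : 0 < ε1 := by rw [hε1]; positivity
  obtain ⟨c, hc, hQ⟩ := exists_c f hf
  obtain ⟨K, y1, T0, η', κ, x1, hη', hκ, hx1, hmain⟩ := pattP0 a c g (g * c + 1) ha hg x0 ε1 δ hε10
    (by rw [hε1]; exact min_le_left _ _) hδ hδ1
  obtain ⟨v, Cv, hv, hCv, hV⟩ := V_bounds f hf
  obtain ⟨k, hk⟩ : ∃ k, k = Fintype.card ι := ⟨_, rfl⟩
  have hk1 : 1 ≤ k := by rw [hk]; exact Fintype.card_pos
  rw [← hk] at hV
  obtain ⟨v', hv', hV'⟩ := V_lower_unif (g * c)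
  obtain ⟨y2, h2⟩ := Pool.Agent.V11146.MK.sizes_y f hf hT T0 0 η' κ x1 hη' hκ hx1.le
  obtain ⟨y3, h3⟩ := log_ge (1 + Cv / κ)
  obtain ⟨y4, h4⟩ := log_ge (1 / v')
  obtain ⟨y5, h5⟩ := logpow_le (|x0| / v) k
  refine ⟨K + 2, y1 + y2 + y3 + y4 + y5 + g * c + c0 + a + 3, ?_⟩
  intro y hy X hX H hHg h0 h hh L hHL hLx u Y hu hY huY
  have hy1 : 1 ≤ y := by omega
  have hyr1 : (1 : ℝ) ≤ y := by exact_mod_cast hy1
  have hlog := h3 y (by omega)
  have hl1 : 1 ≤ Real.log (y : ℝ) := by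
    have : 0 ≤ Cv / κ := by positivity
    linarith
  have hl0 : 0 < Real.log (y : ℝ) := by linarith
  obtain ⟨hVlo, hVup⟩ := hV y (by omega)
  have hlk : 0 < Real.log (y : ℝ) ^ k := by positivity
  have hX2 : y ^ 2 ≤ X := (Nat.pow_le_pow_right hy1 (by omega)).trans hX
  have hyX : y ≤ X := (Nat.le_self_pow (by norm_num) y).trans hX2
  have hXr : (y : ℝ) ≤ X := by exact_mod_cast hyX
  have hlyX : Real.log (y : ℝ) ≤ Real.log X := Real.log_le_log (by linarith) hXr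
  have hlX : 0 < Real.log (X : ℝ) := hl0.trans_le hlyX
  have hVκ : Vq (Q f) y ≤ κ := by
    refine hVup.trans ?_
    rw [div_le_iff₀ hlk]
    have h6 : Real.log (y : ℝ) ≤ Real.log y ^ k := by
      calc Real.log (y : ℝ) = Real.log y ^ 1 := (pow_one _).symm
        _ ≤ Real.log y ^ k := pow_le_pow_right₀ hl1 hk1
    calc Cv = κ * (Cv / κ) := by field_simp
      _ ≤ κ * Real.log y ^ k := mul_le_mul_of_nonneg_left (by linarith) hκ.le
  have hhL : h ≤ L := by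
    have := mem_range.1 (hHL hh)
    omega
  have hLy : L ≤ y := by
    have h6 : (L : ℝ) * (v / Real.log y ^ k) ≤ |x0| :=
      ((mul_le_mul_of_nonneg_left hVlo (Nat.cast_nonneg _)).trans hLx).trans (le_abs_self _)
    rw [← mul_div_assoc, div_le_iff₀ hlk] at h6
    have h7 : (L : ℝ) ≤ |x0| / v * Real.log y ^ k := by
      rw [div_mul_eq_mul_div, le_div_iff₀ hv]
      exact h6
    exact_mod_cast h7.trans (h5 y (by omega))
  have hbX : a * h + c0 ≤ X := by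
    have e1 : a * h ≤ a * y := Nat.mul_le_mul_left _ (hhL.trans hLy)
    have e2 : a * y + c0 ≤ y ^ 2 := by
      obtain ⟨t, ht⟩ : ∃ t, y = a + c0 + 3 + t := ⟨y - (a + c0 + 3), by omega⟩
      have : c0 ≤ c0 * y := Nat.le_mul_of_pos_right _ (by omega)
      calc a * y + c0 ≤ a * y + c0 * y := by omega
        _ ≤ (a + c0 + 3 + t) * y := by nlinarith
        _ = y ^ 2 := by rw [← ht]; ring
    omega
  have hperH := perB_QH (Q f) c hQ H
  rw [hHg] at hperH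
  have hM0 : 0 ≤ (Y : ℝ) * (Vq (QH (Q f) H) y / Vz y) := mul_nonneg (Nat.cast_nonneg _)
    (div_nonneg (Vq_nonneg _ y) (Pool.Agent.H373R2.T7.Vz_pos y).le)
  by_cases hzero : ∀ p ∈ pz y, nuB (QH (Q f) H) p < p
  · have hadmH := adm_of _ _ y hperH (by omega) hzero
    have h1 := hmain X y (by omega) ((Nat.pow_le_pow_right (by omega) (by omega)).trans hX) (a * h + c0) hbX
      (by rw [Nat.mul_comm a h]; exact (Nat.coprime_mul_right_add_right a c0 h).2 hcop) (Q f) hQ (fun p hp => Poly.adm f hf p hp) hVκ (by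
        intro T hT1 hT2
        obtain ⟨a1, -, a3⟩ := h2 y (by omega) T hT1 hT2
        exact ⟨a1, a3⟩) H hHg h0 (by
        intro S
        refine ⟨perB_QH (Q f) c hQ (H ∪ S), ?_, ?_⟩
        · rintro p n hp hp1 ⟨g', _, hg'⟩
          exact hnon p _ hp hp1 hg'
        · intro p n hp hpa hn
          exact ⟨h, mem_union_left _ hh, hc0 p (n + h) hp hpa (by rw [mul_add, add_assoc]; exact hn)⟩) (by
        have h6 := hV' (QH (Q f) H) hperH hadmH y (by omega)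
        refine le_trans ?_ h6
        have h7 := h4 y (by omega)
        rw [div_le_div_iff₀ (by positivity) (by positivity), one_mul, pow_succ]
        rw [div_le_iff₀ hv'] at h7
        have h8 : Real.log (y : ℝ) ^ (g * c) ≤ Real.log (X : ℝ) ^ (g * c) := pow_le_pow_left₀ hl0.le hlyX _
        have h9 : 0 ≤ Real.log (X : ℝ) ^ (g * c) := by positivity
        calc Real.log (y : ℝ) ^ (g * c) ≤ Real.log (X : ℝ) ^ (g * c) * 1 := by linarith
          _ ≤ Real.log (X : ℝ) ^ (g * c) * (Real.log y * v') := mul_le_mul_of_nonneg_left h7 h9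
          _ ≤ Real.log (X : ℝ) ^ (g * c) * (Real.log X * v') := by
              apply mul_le_mul_of_nonneg_left _ h9
              exact mul_le_mul_of_nonneg_right hlyX hv'.le
          _ = v' * (Real.log (X : ℝ) ^ (g * c) * Real.log X) := by ring) L hHL hLx u Y hu hY huY
    refine h1.trans ?_
    have h6 : ε1 ≤ ε * Real.exp (-(L * Vq (Q f) y)) := by
      refine (show ε1 ≤ ε * Real.exp (-x0) by rw [hε1]; exact min_le_right _ _).trans ?_
      apply mul_le_mul_of_nonneg_left _ hε.le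
      exact Real.exp_le_exp.2 (by linarith)
    calc ε1 * (Y * (Vq (QH (Q f) H) y / Vz y)) ≤
          ε * Real.exp (-(L * Vq (Q f) y)) * (Y * (Vq (QH (Q f) H) y / Vz y)) :=
          mul_le_mul_of_nonneg_right h6 hM0
      _ = _ := by ring
  · push Not at hzero
    obtain ⟨p, hp, hnu⟩ := hzero
    have hnu' : nuB (QH (Q f) H) p = p := le_antisymm (nuB_le _ p) hnu
    have hp0 : (0 : ℝ) < p := by exact_mod_cast (mem_pz.1 hp).2.pos
    have hV0 : Vq (QH (Q f) H) y = 0 := by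
      unfold Vq
      apply Finset.prod_eq_zero hp
      rw [hnu', div_self hp0.ne', sub_self]
    have h1 := exP_le a (a * h + c0) (Q f) H L y u Y
    rw [exN_eq_zero (Q f) c hQ H L y u Y hHL p hp hnu'] at h1
    have h6 : exP a (a * h + c0) (Q f) H L y u Y = 0 := by omega
    rw [h6, hV0]
    simp

open Classical in
/-- exact blocks, for all sets of at most `K` elements -/
theorem short_all [Nonempty ι] (f : ι → ℤ[X]) (hf : Sys f) (hT : NoTr f) (K : ℕ) (x0 ε : ℝ) (hε : 0 < ε) :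
    ∃ s y0 : ℕ, ∀ y : ℕ, y0 ≤ y → ∀ Z Y : ℕ, y ^ s ≤ Y → ∀ H : Finset ℕ, H.card ≤ K → 0 ∈ H →
      ∀ L : ℕ, (∀ h ∈ H, h ≤ L) → L * Vq (Q f) y ≤ x0 →
        |(exN (Q f) H L y Z Y : ℝ) - Y * Vq (QH (Q f) H) y * Real.exp (-(L * Vq (Q f) y))| ≤
          ε * (Y * Vq (QH (Q f) H) y * Real.exp (-(L * Vq (Q f) y))) := by
  choose s y0 h using fun g : ℕ => short_sys f hf hT (g + 1) (by omega) x0 ε hε
  refine ⟨∑ g ∈ range K, s g, ∑ g ∈ range K, y0 g + 1, ?_⟩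
  intro y hy Z Y hY H hH h0 L hHL hL
  have hpos : 1 ≤ H.card := Finset.card_pos.2 ⟨0, h0⟩
  obtain ⟨g, hg⟩ : ∃ g, H.card = g + 1 := ⟨H.card - 1, by omega⟩
  have hgK : g ∈ range K := by
    rw [mem_range]
    omega
  have h1 : s g ≤ ∑ g ∈ range K, s g := Finset.single_le_sum (f := s) (fun _ _ => Nat.zero_le _) hgK
  have h2 : y0 g ≤ ∑ g ∈ range K, y0 g := Finset.single_le_sum (f := y0) (fun _ _ => Nat.zero_le _) hgK
  refine h g y (by omega) Z Y ((Nat.pow_le_pow_right (by omega) h1).trans hY) H hg h0 L ?_ hL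
  intro x hx
  rw [mem_range]
  have := hHL x hx
  omega

open Classical in
/-- exact blocks with a prime, for all sets of at most `K` elements -/
theorem prime_all [Nonempty ι] (f : ι → ℤ[X]) (hf : Sys f) (hT : NoTr f) (a c0 : ℕ) (ha : Squarefree a)
    (hcop : Nat.Coprime a c0) (hnon : ∀ p n : ℕ, p.Prime → p ∣ a → ¬ Q f p n)
    (hc0 : ∀ p n : ℕ, p.Prime → ¬ p ∣ a → p ∣ a * n + c0 → Q f p n) (K : ℕ) (x0 ε δ : ℝ)
    (hε : 0 < ε) (hδ : 0 < δ) (hδ1 : δ ≤ 1) :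
    ∃ s y0 : ℕ, ∀ y : ℕ, y0 ≤ y → ∀ X : ℕ, y ^ s ≤ X → ∀ H : Finset ℕ, H.card ≤ K → 0 ∈ H →
      ∀ h ∈ H, ∀ L : ℕ, (∀ x ∈ H, x ≤ L) → L * Vq (Q f) y ≤ x0 →
      ∀ u Y : ℕ, δ * X ≤ u → δ * X ≤ Y → u + Y ≤ X →
        |(exP a (a * h + c0) (Q f) H L y u Y : ℝ) * Real.log X - Y * (Vq (QH (Q f) H) y / Vz y) *
          Real.exp (-(L * Vq (Q f) y))| ≤
          ε * (Y * (Vq (QH (Q f) H) y / Vz y) * Real.exp (-(L * Vq (Q f) y))) := by
  choose s y0 h using fun g : ℕ => prime_sys f hf hT a c0 ha hcop hnon hc0 (g + 1) (by omega) x0 ε δ hε hδ hδ1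
  refine ⟨∑ g ∈ range K, s g, ∑ g ∈ range K, y0 g + 1, ?_⟩
  intro y hy X hX H hH h0 h' hh' L hHL hL
  have hpos : 1 ≤ H.card := Finset.card_pos.2 ⟨0, h0⟩
  obtain ⟨g, hg⟩ : ∃ g, H.card = g + 1 := ⟨H.card - 1, by omega⟩
  have hgK : g ∈ range K := by
    rw [mem_range]
    omega
  have h1 : s g ≤ ∑ g ∈ range K, s g := Finset.single_le_sum (f := s) (fun _ _ => Nat.zero_le _) hgK
  have h2 : y0 g ≤ ∑ g ∈ range K, y0 g := Finset.single_le_sum (f := y0) (fun _ _ => Nat.zero_le _) hgK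
  refine h g y (by omega) X ((Nat.pow_le_pow_right (by omega) h1).trans hX) H hg h0 h' hh' L ?_ hL
  intro x hx
  rw [mem_range]
  have := hHL x hx
  omega

end Pool.Agent.V7H10.BP
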