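import Pool.Agent.N760.IT.C
import Pool.Agent.N375.AV.D

set_option autoImplicit false

/-! Diagonal arguments for countably many thin sets (helper10). -/

namespace Pool.Agent.V7H10.Diag

open Finset Filter Topology Classical
open Pool.Agent.N826.IT.Orb (AlmostAll almostAll_iff almostAll_mono almostAll_finset almostAll_true diagonal card_mono')

/-- the number of the elements up to `N` of a set of natural numbers -/
noncomputable def cnt (B : Set ℕ) (N : ℕ) : ℕ := {m : ℕ | 1 ≤ m ∧ m ≤ N ∧ m ∈ B}.ncard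

lemma cnt_fin (B : Set ℕ) (N : ℕ) : {m : ℕ | 1 ≤ m ∧ m ≤ N ∧ m ∈ B}.Finite := by
  apply (Set.finite_Icc 1 N).subset
  rintro m ⟨h1, h2, _⟩
  exact ⟨h1, h2⟩

lemma cnt_union (B : ℕ → Set ℕ) (N i : ℕ) : cnt {m | ∃ j ≤ i, m ∈ B j} N ≤ ∑ j ∈ range (i + 1), cnt (B j) N := by
  induction i with
  | zero =>
    rw [zero_add, sum_range_one]
    apply Set.ncard_le_ncard _ (cnt_fin _ _)
    rintro m ⟨h1, h2, j, hj, h3⟩
    rw [Nat.le_zero.1 hj] at h3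
    exact ⟨h1, h2, h3⟩
  | succ i ih =>
    rw [sum_range_succ]
    have h1 : {m : ℕ | 1 ≤ m ∧ m ≤ N ∧ m ∈ {m | ∃ j ≤ i + 1, m ∈ B j}} ⊆
        {m : ℕ | 1 ≤ m ∧ m ≤ N ∧ m ∈ {m | ∃ j ≤ i, m ∈ B j}} ∪ {m : ℕ | 1 ≤ m ∧ m ≤ N ∧ m ∈ B (i + 1)} := by
      rintro m ⟨h1, h2, j, hj, h3⟩
      rcases Nat.lt_or_ge j (i + 1) with h | h
      · exact Or.inl ⟨h1, h2, j, by omega, h3⟩
      · obtain rfl : j = i + 1 := by omega
        exact Or.inr ⟨h1, h2, h3⟩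
    have h2 := (Set.ncard_le_ncard h1 ((cnt_fin _ _).union (cnt_fin _ _))).trans (Set.ncard_union_le _ _)
    unfold cnt at ih ⊢
    omega

/-- **Diagonal argument for gauges.** -/
theorem gauge (g : ℕ → ℕ → ℝ) (hg : ∀ i : ℕ, ∃ N₀ : ℕ, ∀ N : ℕ, N₀ ≤ N → ((i : ℝ) + 1) * g (i + 1) N ≤ g i N)
    {N₁ : ℕ} (hmono : ∀ N : ℕ, N₁ ≤ N → ∀ A j : ℕ, A ≤ j → g j N ≤ g A N)
    (B : ℕ → Set ℕ) (hB : ∀ i A : ℕ, ∃ N₀ : ℕ, ∀ N : ℕ, N₀ ≤ N → (cnt (B i) N : ℝ) ≤ g A N) :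
    ∃ R : Set ℕ, (∀ A : ℕ, ∃ N₀ : ℕ, ∀ N : ℕ, N₀ ≤ N → (cnt R N : ℝ) ≤ g A N) ∧
      ∀ i : ℕ, ∃ m₀ : ℕ, ∀ m : ℕ, m₀ ≤ m → m ∈ B i → m ∈ R := by
  -- thresholds
  have h1 : ∀ i : ℕ, ∃ T : ℕ, ∀ N : ℕ, T ≤ N → (cnt {m | ∃ j ≤ i, m ∈ B j} N : ℝ) ≤ g i N := by
    intro i
    choose T hT using fun j : ℕ => hB j (i + 1)
    obtain ⟨N₀, hN₀⟩ := hg i
    refine ⟨max N₀ ((range (i + 1)).sup T), fun N hN => ?_⟩
    have h2 : (cnt {m | ∃ j ≤ i, m ∈ B j} N : ℝ) ≤ ∑ j ∈ range (i + 1), (cnt (B j) N : ℝ) := by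
      exact_mod_cast cnt_union B N i
    have h3 : ∑ j ∈ range (i + 1), (cnt (B j) N : ℝ) ≤ ∑ _j ∈ range (i + 1), g (i + 1) N := by
      apply sum_le_sum
      intro j hj
      exact hT j N ((le_sup hj).trans ((le_max_right _ _).trans hN))
    rw [sum_const, card_range, nsmul_eq_mul] at h3
    push_cast at h3
    exact h2.trans (h3.trans (hN₀ N ((le_max_left _ _).trans hN)))
  choose T hT using h1
  -- increasing thresholds
  obtain ⟨S, hS⟩ : ∃ S : ℕ → ℕ, S = fun i => (range (i + 1)).sup T + i := ⟨_, rfl⟩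
  have hST : ∀ i, T i ≤ S i := by
    intro i
    rw [hS]
    exact (le_sup (f := T) (mem_range.2 (Nat.lt_succ_self i))).trans (Nat.le_add_right _ _)
  have hSm : ∀ i j, i ≤ j → S i ≤ S j := by
    intro i j hij
    rw [hS]
    apply Nat.add_le_add _ hij
    apply sup_mono
    intro x hx
    rw [mem_range] at hx ⊢
    omega
  have hSi : ∀ i, i ≤ S i := by
    intro i
    rw [hS]
    exact Nat.le_add_left _ _
  refine ⟨{m | ∃ i, S i ≤ m ∧ m ∈ B i}, fun A => ?_, fun i => ⟨S i, fun m hm h => ⟨i, hm, h⟩⟩⟩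
  refine ⟨max N₁ (S A), fun N hN => ?_⟩
  obtain ⟨J, hJ⟩ : ∃ J : ℕ, J = Nat.findGreatest (fun j => S j ≤ N) N := ⟨_, rfl⟩
  have hSA : S A ≤ N := (le_max_right _ _).trans hN
  have hAJ : A ≤ J := by
    rw [hJ]
    exact Nat.le_findGreatest ((hSi A).trans hSA) hSA
  have hSJ : S J ≤ N := by
    rw [hJ]
    exact Nat.findGreatest_spec (P := fun j => S j ≤ N) ((hSi A).trans hSA) hSA
  have hmax : ∀ i, S i ≤ N → i ≤ J := by
    intro i hi
    rw [hJ]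
    exact Nat.le_findGreatest ((hSi i).trans hi) hi
  have h2 : cnt {m | ∃ i, S i ≤ m ∧ m ∈ B i} N ≤ cnt {m | ∃ j ≤ J, m ∈ B j} N := by
    apply Set.ncard_le_ncard _ (cnt_fin _ _)
    rintro m ⟨h3, h4, i, h5, h6⟩
    exact ⟨h3, h4, i, hmax i (h5.trans h4), h6⟩
  have h3 : (cnt {m | ∃ i, S i ≤ m ∧ m ∈ B i} N : ℝ) ≤ cnt {m | ∃ j ≤ J, m ∈ B j} N := by exact_mod_cast h2
  exact h3.trans ((hT J N ((hST J).trans hSJ)).trans (hmono N ((le_max_left _ _).trans hN) A J hAJ))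

/-- the same for a countable family -/
theorem gaugeC {ι : Type*} [Countable ι] (g : ℕ → ℕ → ℝ)
    (hg : ∀ i : ℕ, ∃ N₀ : ℕ, ∀ N : ℕ, N₀ ≤ N → ((i : ℝ) + 1) * g (i + 1) N ≤ g i N)
    {N₁ : ℕ} (hmono : ∀ N : ℕ, N₁ ≤ N → ∀ A j : ℕ, A ≤ j → g j N ≤ g A N) (hpos : ∀ A N, 0 ≤ g A N)
    (B : ι → Set ℕ) (hB : ∀ i, ∀ A : ℕ, ∃ N₀ : ℕ, ∀ N : ℕ, N₀ ≤ N → (cnt (B i) N : ℝ) ≤ g A N) :
    ∃ R : Set ℕ, (∀ A : ℕ, ∃ N₀ : ℕ, ∀ N : ℕ, N₀ ≤ N → (cnt R N : ℝ) ≤ g A N) ∧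
      ∀ i, ∃ m₀ : ℕ, ∀ m : ℕ, m₀ ≤ m → m ∈ B i → m ∈ R := by
  obtain ⟨enc, henc⟩ := exists_injective_nat ι
  obtain ⟨R, hR, h⟩ := gauge g hg hmono (fun n => {m | ∃ i, enc i = n ∧ m ∈ B i}) (by
    intro n A
    by_cases hn : ∃ i, enc i = n
    · obtain ⟨i, rfl⟩ := hn
      obtain ⟨N₀, hN₀⟩ := hB i A
      refine ⟨N₀, fun N hN => ?_⟩
      have e : {m | ∃ j, enc j = enc i ∧ m ∈ B j} = B i := by
        ext m
        constructor
        · rintro ⟨j, hj, hm⟩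
          rwa [henc hj] at hm
        · intro hm
          exact ⟨i, rfl, hm⟩
      rw [e]
      exact hN₀ N hN
    · refine ⟨0, fun N _ => ?_⟩
      have e : {m : ℕ | 1 ≤ m ∧ m ≤ N ∧ m ∈ {m | ∃ j, enc j = n ∧ m ∈ B j}} = ∅ := by
        ext m
        constructor
        · rintro ⟨_, _, j, hj, _⟩
          exact absurd ⟨j, hj⟩ hn
        · intro h
          exact absurd h (Set.notMem_empty m)
      unfold cnt
      rw [e, Set.ncard_empty, Nat.cast_zero]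
      exact hpos A N)
  refine ⟨R, hR, fun i => ?_⟩
  obtain ⟨m₀, hm₀⟩ := h (enc i)
  exact ⟨m₀, fun m hm hmB => hm₀ m hm ⟨i, rfl, hmB⟩⟩

/-- the gauges `N / (log N) ^ A` -/
theorem logC {ι : Type*} [Countable ι] (B : ι → Set ℕ)
    (hB : ∀ i, ∀ A : ℕ, ∃ N₀ : ℕ, ∀ N : ℕ, N₀ ≤ N → (cnt (B i) N : ℝ) ≤ N / Real.log N ^ A) :
    ∃ R : Set ℕ, (∀ A : ℕ, ∃ N₀ : ℕ, ∀ N : ℕ, N₀ ≤ N → (cnt R N : ℝ) ≤ N / Real.log N ^ A) ∧
      ∀ i, ∃ m₀ : ℕ, ∀ m : ℕ, m₀ ≤ m → m ∈ B i → m ∈ R := by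
  have hlog : ∀ T : ℝ, ∃ N₀ : ℕ, ∀ N : ℕ, N₀ ≤ N → T ≤ Real.log N := by
    intro T
    have h1 : Tendsto (fun N : ℕ => Real.log N) atTop atTop :=
      Real.tendsto_log_atTop.comp tendsto_natCast_atTop_atTop
    exact eventually_atTop.1 (h1.eventually_ge_atTop T)
  obtain ⟨N₁, hN₁⟩ := hlog 1
  refine gaugeC (fun A N => (N : ℝ) / Real.log N ^ A) (fun i => ?_) (N₁ := N₁) (fun N hN A j hAj => ?_)
    (fun A N => div_nonneg (Nat.cast_nonneg _) (pow_nonneg (Real.log_natCast_nonneg N) _)) B hB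
  · obtain ⟨N₀, hN₀⟩ := hlog ((i : ℝ) + 1)
    refine ⟨N₀, fun N hN => ?_⟩
    have h1 := hN₀ N hN
    have hi : (0 : ℝ) < (i : ℝ) + 1 := by positivity
    have hl : 0 < Real.log N := by linarith
    show ((i : ℝ) + 1) * ((N : ℝ) / Real.log N ^ (i + 1)) ≤ (N : ℝ) / Real.log N ^ i
    rw [pow_succ, ← mul_div_assoc, div_le_div_iff₀ (by positivity) (by positivity)]
    have h2 : 0 ≤ (N : ℝ) * Real.log N ^ i := by positivity
    nlinarith
  · have h1 := hN₁ N hN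
    exact div_le_div_of_nonneg_left (Nat.cast_nonneg _) (by positivity) (pow_le_pow_right₀ h1 hAj)

/-- the gauges `N exp (- (log N) ^ γ)` with `0 < γ < β` -/
theorem expC {ι : Type*} [Countable ι] {β : ℝ} (hβ : 0 < β) (B : ι → Set ℕ)
    (hB : ∀ i, ∃ c K : ℝ, 0 < c ∧ ∀ N : ℕ, 1 ≤ N → (cnt (B i) N : ℝ) ≤ K * N * Real.exp (-(c * Real.log N ^ β))) :
    ∃ R : Set ℕ, (∀ γ : ℝ, 0 < γ → γ < β → ∃ N₀ : ℕ, ∀ N : ℕ, N₀ ≤ N →
        (cnt R N : ℝ) ≤ N * Real.exp (-(Real.log N ^ γ))) ∧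
      ∀ i, ∃ m₀ : ℕ, ∀ m : ℕ, m₀ ≤ m → m ∈ B i → m ∈ R := by
  have hlog : Tendsto (fun N : ℕ => Real.log N) atTop atTop :=
    Real.tendsto_log_atTop.comp tendsto_natCast_atTop_atTop
  obtain ⟨N₁, hN₁⟩ := eventually_atTop.1 (hlog.eventually_ge_atTop 1)
  -- comparison of the powers of the logarithm
  have hcmp : ∀ (c K γ γ' : ℝ), 0 < c → 0 < γ → γ < γ' → ∃ N₀ : ℕ, ∀ N : ℕ, N₀ ≤ N →
      K * N * Real.exp (-(c * Real.log N ^ γ')) ≤ N * Real.exp (-(Real.log N ^ γ)) := by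
    intro c K γ γ' hc hγ0 hγ
    have h1 : Tendsto (fun x : ℝ => c * x ^ (γ' - γ)) atTop atTop :=
      (tendsto_rpow_atTop (by linarith)).const_mul_atTop hc
    have h2 : ∀ᶠ N : ℕ in atTop, max 0 (Real.log (max K 1)) + 1 ≤ c * Real.log N ^ (γ' - γ) :=
      (h1.comp hlog).eventually_ge_atTop _
    obtain ⟨N₀, hN₀⟩ := eventually_atTop.1 (h2.and (hlog.eventually_ge_atTop 1))
    refine ⟨N₀, fun N hN => ?_⟩
    obtain ⟨e1, e2⟩ := hN₀ N hN
    have e3 : (1 : ℝ) ≤ Real.log N ^ γ := Real.one_le_rpow e2 hγ0.le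
    have e4 : 0 ≤ max 0 (Real.log (max K 1)) := le_max_left _ _
    have e5 : Real.log (max K 1) ≤ max 0 (Real.log (max K 1)) := le_max_right _ _
    have e6 : Real.log N ^ γ' = Real.log N ^ γ * Real.log N ^ (γ' - γ) := by
      rw [← Real.rpow_add (by linarith)]
      congr 1
      ring
    have e7 : Real.log (max K 1) + Real.log N ^ γ ≤ c * Real.log N ^ γ' := by
      rw [e6]
      nlinarith
    have hK : (0 : ℝ) < max K 1 := lt_of_lt_of_le one_pos (le_max_right _ _)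
    calc K * N * Real.exp (-(c * Real.log N ^ γ'))
        ≤ max K 1 * N * Real.exp (-(c * Real.log N ^ γ')) := by
          apply mul_le_mul_of_nonneg_right _ (Real.exp_pos _).le
          exact mul_le_mul_of_nonneg_right (le_max_left _ _) (Nat.cast_nonneg _)
      _ = N * Real.exp (Real.log (max K 1) - c * Real.log N ^ γ') := by
          rw [Real.exp_sub, Real.exp_log hK, Real.exp_neg]
          ring
      _ ≤ N * Real.exp (-(Real.log N ^ γ)) := by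
          apply mul_le_mul_of_nonneg_left _ (Nat.cast_nonneg _)
          exact Real.exp_le_exp.2 (by linarith)
  -- the exponents
  obtain ⟨e, he⟩ : ∃ e : ℕ → ℝ, e = fun A : ℕ => β - β / ((A : ℝ) + 2) := ⟨_, rfl⟩
  have he0 : ∀ A, 0 < e A := by
    intro A
    rw [he]
    have h1 : β / ((A : ℝ) + 2) < β := div_lt_self hβ (by linarith [(Nat.cast_nonneg A : (0 : ℝ) ≤ A)])
    show 0 < β - β / ((A : ℝ) + 2)
    linarith
  have heβ : ∀ A, e A < β := by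
    intro A
    rw [he]
    have h1 : 0 < β / ((A : ℝ) + 2) := by positivity
    show β - β / ((A : ℝ) + 2) < β
    linarith
  have hem : ∀ A j : ℕ, A ≤ j → e A ≤ e j := by
    intro A j hAj
    rw [he]
    have h1 : (A : ℝ) ≤ j := by exact_mod_cast hAj
    have h2 : β / ((j : ℝ) + 2) ≤ β / ((A : ℝ) + 2) := div_le_div_of_nonneg_left hβ.le (by positivity) (by linarith)
    show β - β / ((A : ℝ) + 2) ≤ β - β / ((j : ℝ) + 2)
    linarith
  have hes : ∀ A : ℕ, e A < e (A + 1) := by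
    intro A
    rw [he]
    have h2 : β / (((A + 1 : ℕ) : ℝ) + 2) < β / ((A : ℝ) + 2) := by
      apply div_lt_div_of_pos_left hβ (by positivity)
      push_cast
      linarith
    show β - β / ((A : ℝ) + 2) < β - β / (((A + 1 : ℕ) : ℝ) + 2)
    linarith
  obtain ⟨R, hR, h⟩ := gaugeC (fun A N => (N : ℝ) * Real.exp (-(Real.log N ^ e A))) (fun i => by
      obtain ⟨N₀, hN₀⟩ := hcmp 1 ((i : ℝ) + 1) (e i) (e (i + 1)) one_pos (he0 i) (hes i)
      refine ⟨N₀, fun N hN => ?_⟩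
      have h1 := hN₀ N hN
      rw [one_mul] at h1
      show ((i : ℝ) + 1) * ((N : ℝ) * Real.exp (-(Real.log N ^ e (i + 1)))) ≤ _
      rw [← mul_assoc]
      exact h1) (N₁ := N₁) (fun N hN A j hAj => by
      have h1 := hN₁ N hN
      show (N : ℝ) * Real.exp (-(Real.log N ^ e j)) ≤ (N : ℝ) * Real.exp (-(Real.log N ^ e A))
      apply mul_le_mul_of_nonneg_left _ (Nat.cast_nonneg _)
      apply Real.exp_le_exp.2
      have h2 := Real.rpow_le_rpow_of_exponent_le h1 (hem A j hAj)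
      linarith)
    (fun A N => mul_nonneg (Nat.cast_nonneg _) (Real.exp_pos _).le) B (fun i A => by
      obtain ⟨c, K, hc, hK⟩ := hB i
      obtain ⟨N₀, hN₀⟩ := hcmp c K (e A) β hc (he0 A) (heβ A)
      exact ⟨max N₀ 1, fun N hN => (hK N ((le_max_right _ _).trans hN)).trans (hN₀ N ((le_max_left _ _).trans hN))⟩)
  refine ⟨R, fun γ hγ0 hγ => ?_, h⟩
  obtain ⟨A, hA⟩ : ∃ A : ℕ, γ ≤ e A := by
    obtain ⟨A, hA⟩ := exists_nat_ge (β / (β - γ))
    refine ⟨A, ?_⟩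
    rw [he]
    have h1 : 0 < β - γ := by linarith
    have h2 : β / ((A : ℝ) + 2) ≤ β - γ := by
      rw [div_le_iff₀ (by positivity)]
      rw [div_le_iff₀ h1] at hA
      nlinarith
    show γ ≤ β - β / ((A : ℝ) + 2)
    linarith
  obtain ⟨N₀, hN₀⟩ := hR A
  refine ⟨max N₀ N₁, fun N hN => (hN₀ N ((le_max_left _ _).trans hN)).trans ?_⟩
  have h1 := hN₁ N ((le_max_right _ _).trans hN)
  apply mul_le_mul_of_nonneg_left _ (Nat.cast_nonneg _)
  apply Real.exp_le_exp.2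
  have h2 := Real.rpow_le_rpow_of_exponent_le h1 hA
  linarith

/-- true for all large `m` -/
theorem almostAll_ev {P : ℕ → Prop} (m₀ : ℕ) (h : ∀ m, m₀ ≤ m → P m) : AlmostAll P := by
  rw [almostAll_iff]
  intro ε hε
  obtain ⟨N₀, hN₀⟩ := exists_nat_ge ((m₀ : ℝ) / ε)
  refine ⟨N₀, fun N hN => ?_⟩
  have h1 : (((Icc 1 N).filter (fun m => ¬ P m)).card : ℝ) ≤ m₀ := by
    have h2 : (Icc 1 N).filter (fun m => ¬ P m) ⊆ range m₀ := by
      intro m hm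
      rw [mem_filter] at hm
      rw [mem_range]
      by_contra hcon
      exact hm.2 (h m (by omega))
    have h3 := card_le_card h2
    rw [card_range] at h3
    exact_mod_cast h3
  have h2 : (m₀ : ℝ) ≤ ε * N := by
    rw [div_le_iff₀ hε] at hN₀
    have h3 : (N₀ : ℝ) ≤ N := by exact_mod_cast hN
    nlinarith
  exact h1.trans h2

/-- **Diagonal argument for sets of density zero**: one set of density one and one number of steps -/
theorem steps {ι : Type*} [Countable ι] (P : ι → ℕ → ℕ → Prop) (h : ∀ i k, AlmostAll (P i k)) :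
    ∃ (M : Set ℕ) (J : ℕ → ℕ), AlmostAll (fun m => m ∈ M) ∧ Tendsto J atTop atTop ∧
      ∀ i, ∃ m₀ : ℕ, ∀ m : ℕ, m₀ ≤ m → m ∈ M → ∀ k ≤ J m, P i k m := by
  obtain ⟨enc, henc⟩ := exists_injective_nat ι
  obtain ⟨J, hJ, hA⟩ := diagonal (P := fun j m => ∀ n ≤ j, ∀ k ≤ j, ∀ i, enc i = n → P i k m)
    (fun i j m hij h n hn k hk => h n (hn.trans hij) k (hk.trans hij)) (fun j => by
      have h1 := almostAll_finset (range (j + 1)) (P := fun n m => ∀ k ≤ j, ∀ i, enc i = n → P i k m) (fun n _ => by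
        have h2 := almostAll_finset (range (j + 1)) (P := fun k m => ∀ i, enc i = n → P i k m) (fun k _ => by
          by_cases hn : ∃ i, enc i = n
          · obtain ⟨i, hi⟩ := hn
            refine almostAll_mono (h i k) (fun m hm i' hi' => ?_)
            rw [henc (hi'.trans hi.symm)]
            exact hm
          · exact almostAll_true (fun m i hi => absurd ⟨i, hi⟩ hn))
        exact almostAll_mono h2 (fun m hm k hk => hm k (mem_range.2 (by omega))))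
      exact almostAll_mono h1 (fun m hm n hn => hm n (mem_range.2 (by omega))))
  refine ⟨{m | ∀ n ≤ J m, ∀ k ≤ J m, ∀ i, enc i = n → P i k m}, J, hA, hJ, fun i => ?_⟩
  obtain ⟨m₀, hm₀⟩ := eventually_atTop.1 (hJ.eventually_ge_atTop (enc i))
  exact ⟨m₀, fun m hm hmM k hk => hmM (enc i) (hm₀ m hm) k hk i rfl⟩

end Pool.Agent.V7H10.Diag
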