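import Mathlib
import Pool.Agent.R488.TM

/-!
# Ratios of consecutive terms of the twisted Fibonacci sequence: tools

`X n = |h (4 n)|`, `Y n = |h (4 n + 1)|`, `z n = X n / Y n`.
-/

set_option autoImplicit false

namespace Pool.Agent.V7H10.E68

open Pool.Agent.R488.TM

/-! ### Absolute values -/

lemma abs_t (n : ℕ) : |t n| = 1 := by
  rcases t_cases n with h | h <;> rw [h] <;> rfl

lemma abs_h (n : ℕ) : |h (4 * n)| = X n ∧ |h (4 * n + 1)| = Y n ∧ |h (4 * n + 2)| = X n + Y n ∧
    |h (4 * n + 3)| = X n := by
  obtain ⟨h0, h1, h2, h3⟩ := h_values n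
  obtain ⟨p1, p2, -, -⟩ := XY_pos n
  rw [h0, h1, h2, h3, Y_succ]
  refine ⟨?_, ?_, ?_, ?_⟩
  · rw [abs_neg, abs_of_nonneg p1]
  · rw [abs_mul, abs_t, one_mul, abs_of_nonneg (by omega)]
  · rw [abs_neg, abs_of_nonneg (by omega)]
  · rw [abs_neg, abs_mul, abs_t, one_mul, abs_of_nonneg p1]

lemma abs_h4 (n : ℕ) : |h (4 * n + 4)| = X (n + 1) := by
  have := (abs_h (n + 1)).1
  rwa [show 4 * (n + 1) = 4 * n + 4 by ring] at this

/-! ### Linear forms -/

/-- a nonzero linear form with coefficients of the same sign -/
lemma good (a b : ℤ) (hab : 0 ≤ a * b) (h0 : a ≠ 0 ∨ b ≠ 0) (m : ℕ) (hm : 1 ≤ m) :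
    Y m ≤ 3 * |a * X m + b * Y m| := by
  obtain ⟨p1, p2, p3, p4⟩ := XY_pos m
  have p5 := p4 hm
  have hX : 1 ≤ X m := by omega
  have key : X m ≤ |a * X m + b * Y m| ∨ Y m ≤ |a * X m + b * Y m| := by
    rcases lt_trichotomy a 0 with ha | ha | ha
    · have hb : b ≤ 0 := by
        by_contra hcon
        push Not at hcon
        have := mul_neg_of_neg_of_pos ha hcon
        omega
      left
      have h1 : a * X m + b * Y m ≤ -X m := by nlinarith
      rw [abs_of_nonpos (by omega)]
      omega
    · subst ha
      have hb : b ≠ 0 := by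
        rcases h0 with h | h
        · exact absurd rfl h
        · exact h
      right
      rw [zero_mul, zero_add, abs_mul, abs_of_pos (by omega : 0 < Y m)]
      have : 1 ≤ |b| := Int.one_le_abs hb
      nlinarith
    · have hb : 0 ≤ b := by
        by_contra hcon
        push Not at hcon
        have := mul_neg_of_pos_of_neg ha hcon
        omega
      left
      have h1 : X m ≤ a * X m + b * Y m := by nlinarith
      rw [abs_of_nonneg (by omega)]
      exact h1
  rcases key with h | h <;> omega

/-- a nonzero linear form with small coefficients is not small at `(X m, Y m)` -/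
lemma form_bound (N : ℕ) : ∀ a b : ℤ, (a ≠ 0 ∨ b ≠ 0) → |a| + |b| ≤ N → ∀ m : ℕ, N + 1 ≤ m →
    Y m ≤ 3 ^ (N + 1) * |a * X m + b * Y m| := by
  induction N with
  | zero =>
    intro a b h0 hab m _
    exfalso
    have h1 : |a| = 0 := by have := abs_nonneg a; have := abs_nonneg b; push_cast at hab; omega
    have h2 : |b| = 0 := by have := abs_nonneg a; have := abs_nonneg b; push_cast at hab; omega
    rw [abs_eq_zero] at h1 h2
    tauto
  | succ N ih =>
    intro a b h0 hab m hm
    have hnn := abs_nonneg (a * X m + b * Y m)
    have hpow : (1 : ℤ) ≤ 3 ^ N := one_le_pow₀ (by norm_num)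
    rcases le_or_gt 0 (a * b) with hs | hs
    · have h1 := good a b hs h0 m (by omega)
      have h2 : (3 : ℤ) * |a * X m + b * Y m| ≤ 3 ^ (N + 1 + 1) * |a * X m + b * Y m| := by
        apply mul_le_mul_of_nonneg_right _ hnn
        rw [pow_succ, pow_succ]; linarith
      exact h1.trans h2
    · obtain ⟨m', rfl⟩ : ∃ m', m = m' + 1 := ⟨m - 1, by omega⟩
      obtain ⟨p1, p2, p3, -⟩ := XY_pos m'
      have hY : Y (m' + 1) ≤ 3 * Y m' := by rw [Y_succ]; omega
      obtain ⟨a', b', he, hn, hsm⟩ : ∃ a' b' : ℤ,
          a * X (m' + 1) + b * Y (m' + 1) = a' * X m' + b' * Y m' ∧ (a' ≠ 0 ∨ b' ≠ 0) ∧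
          (0 ≤ a' * b' ∨ |a'| + |b'| < |a| + |b|) := by
        have hopp : (0 < a ∧ b < 0) ∨ (a < 0 ∧ 0 < b) := by
          rcases lt_trichotomy a 0 with ha | ha | ha
          · right
            refine ⟨ha, ?_⟩
            by_contra hcon
            push Not at hcon
            have := mul_nonneg_of_nonpos_of_nonpos ha.le hcon
            omega
          · subst ha; simp at hs
          · left
            refine ⟨ha, ?_⟩
            by_contra hcon
            push Not at hcon
            have := mul_nonneg ha.le hcon
            omega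
        rcases tt_cases (m' + 1) m' with h | h
        · refine ⟨2 * a + b, a + b, ?_, ?_, ?_⟩
          · rw [X_succ, Y_succ, h]; ring
          · omega
          · rcases le_or_gt 0 ((2 * a + b) * (a + b)) with h2 | h2
            · exact Or.inl h2
            · right
              rcases hopp with ⟨ha, hb⟩ | ⟨ha, hb⟩
              · have h3 : a + b < 0 := by
                  by_contra hcon
                  push Not at hcon
                  have : 0 ≤ (2 * a + b) * (a + b) := mul_nonneg (by omega) hcon
                  omega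
                have h4 : 0 < 2 * a + b := by
                  by_contra hcon
                  push Not at hcon
                  have : 0 ≤ (2 * a + b) * (a + b) := mul_nonneg_of_nonpos_of_nonpos hcon h3.le
                  omega
                rw [abs_of_pos h4, abs_of_neg h3, abs_of_pos ha, abs_of_neg hb]
                omega
              · have h3 : 0 < a + b := by
                  by_contra hcon
                  push Not at hcon
                  have : 0 ≤ (2 * a + b) * (a + b) := mul_nonneg_of_nonpos_of_nonpos (by omega) hcon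
                  omega
                have h4 : 2 * a + b < 0 := by
                  by_contra hcon
                  push Not at hcon
                  have : 0 ≤ (2 * a + b) * (a + b) := mul_nonneg hcon h3.le
                  omega
                rw [abs_of_neg h4, abs_of_pos h3, abs_of_neg ha, abs_of_pos hb]
                omega
        · refine ⟨b, a + b, ?_, ?_, ?_⟩
          · rw [X_succ, Y_succ, h]; ring
          · omega
          · rcases le_or_gt 0 (b * (a + b)) with h2 | h2
            · exact Or.inl h2
            · right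
              rcases hopp with ⟨ha, hb⟩ | ⟨ha, hb⟩
              · have h3 : 0 < a + b := by
                  by_contra hcon
                  push Not at hcon
                  have : 0 ≤ b * (a + b) := mul_nonneg_of_nonpos_of_nonpos hb.le hcon
                  omega
                rw [abs_of_pos h3, abs_of_pos ha, abs_of_neg hb]
                omega
              · have h3 : a + b < 0 := by
                  by_contra hcon
                  push Not at hcon
                  have : 0 ≤ b * (a + b) := mul_nonneg hb.le hcon
                  omega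
                rw [abs_of_neg h3, abs_of_neg ha, abs_of_pos hb]
                omega
      rw [he]
      have hnn' := abs_nonneg (a' * X m' + b' * Y m')
      rcases hsm with h2 | h2
      · have h3 := good a' b' h2 hn m' (by omega)
        have h4 : (9 : ℤ) * |a' * X m' + b' * Y m'| ≤ 3 ^ (N + 1 + 1) * |a' * X m' + b' * Y m'| := by
          apply mul_le_mul_of_nonneg_right _ hnn'
          rw [pow_succ, pow_succ]; linarith
        linarith
      · have h3 := ih a' b' hn (by push_cast at hab; omega) m' (by omega)
        have h4 : (3 : ℤ) ^ (N + 1 + 1) = 3 * 3 ^ (N + 1) := by rw [pow_succ]; ring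
        rw [h4, mul_assoc]
        linarith

/-- The pairs of consecutive absolute values are uniformly far from proportional to `(p, q)`. -/
lemma ratio_far (p q : ℤ) (hq : 0 < q) : ∃ C : ℤ, 0 < C ∧ ∃ M₀ : ℕ, ∀ M : ℕ, M₀ ≤ M →
    |h M| ≤ C * abs (q * abs (h (M + 1)) - p * abs (h M)) := by
  set N : ℕ := (4 * abs q + 2 * abs p).toNat with hN
  have hNc : (N : ℤ) = 4 * abs q + 2 * abs p := by
    rw [hN]; exact Int.toNat_of_nonneg (by positivity)
  refine ⟨3 * 3 ^ (N + 1), by positivity, 4 * (N + 2), fun M hM => ?_⟩
  obtain ⟨m, r, hr, rfl⟩ : ∃ m r, r < 4 ∧ M = 4 * m + r :=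
    ⟨M / 4, M % 4, Nat.mod_lt _ (by norm_num), (Nat.div_add_mod M 4).symm⟩
  have hm : N + 1 ≤ m := by omega
  obtain ⟨h0, h1, h2, h3⟩ := abs_h m
  have h4 := abs_h4 m
  obtain ⟨p1, p2, p3, p4⟩ := XY_pos m
  have hqa : |q| = q := abs_of_pos hq
  have key : ∀ a b : ℤ, (a ≠ 0 ∨ b ≠ 0) → |a| + |b| ≤ N →
      ∀ u : ℤ, u ≤ 3 * Y m → u ≤ 3 * 3 ^ (N + 1) * |a * X m + b * Y m| := by
    intro a b h0 hab u hu
    have := form_bound N a b h0 hab m hm
    rw [mul_assoc]
    linarith
  have hr' : r = 0 ∨ r = 1 ∨ r = 2 ∨ r = 3 := by omega
  rcases hr' with rfl | rfl | rfl | rfl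
  · rw [Nat.add_zero, h0, h1]
    have e : q * Y m - p * X m = (-p) * X m + q * Y m := by ring
    rw [e]
    exact key (-p) q (Or.inr hq.ne') (by rw [hNc, abs_neg]; have := abs_nonneg p; omega) _ (by omega)
  · rw [h1, show 4 * m + 1 + 1 = 4 * m + 2 by ring, h2]
    have e : q * (X m + Y m) - p * Y m = q * X m + (q - p) * Y m := by ring
    rw [e]
    exact key q (q - p) (Or.inl hq.ne')
      (by rw [hNc]; have := abs_sub q p; have := abs_nonneg p; omega) _ (by omega)
  · rw [h2, show 4 * m + 2 + 1 = 4 * m + 3 by ring, h3]
    have e : q * X m - p * (X m + Y m) = (q - p) * X m + (-p) * Y m := by ring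
    rw [e]
    exact key (q - p) (-p) (by omega)
      (by rw [hNc, abs_neg]; have := abs_sub q p; have := abs_nonneg p; omega) _ (by omega)
  · rw [h3, show 4 * m + 3 + 1 = 4 * m + 4 by ring, h4, X_succ]
    rcases tt_cases (m + 1) m with h | h
    · rw [h]
      have e : q * ((1 + 1) * X m + Y m) - p * X m = (2 * q - p) * X m + q * Y m := by ring
      rw [e]
      exact key (2 * q - p) q (Or.inr hq.ne')
        (by rw [hNc]
            have h5 : |2 * q - p| ≤ |2 * q| + |p| := abs_sub _ _
            rw [abs_mul, abs_two] at h5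
            have := abs_nonneg p; omega) _ (by omega)
    · rw [h]
      have e : q * ((1 + -1) * X m + Y m) - p * X m = (-p) * X m + q * Y m := by ring
      rw [e]
      exact key (-p) q (Or.inr hq.ne') (by rw [hNc, abs_neg]; have := abs_nonneg p; omega) _ (by omega)

end Pool.Agent.V7H10.E68
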