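import Pool.Agent.V7H10.E68

/-!
# Lower limits of the ratios of consecutive terms are irrational
-/

set_option autoImplicit false

namespace Pool.Agent.V7H10.E68

open Pool.Agent.R488.TM Filter

lemma h_bounds (M : ℕ) (hM : 4 ≤ M) : 1 ≤ |h M| ∧ |h (M + 1)| ≤ 5 * |h M| := by
  obtain ⟨m, r, hr, rfl⟩ : ∃ m r, r < 4 ∧ M = 4 * m + r :=
    ⟨M / 4, M % 4, Nat.mod_lt _ (by norm_num), (Nat.div_add_mod M 4).symm⟩
  obtain ⟨h0, h1, h2, h3⟩ := abs_h m
  have h4 := abs_h4 m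
  obtain ⟨p1, p2, p3, p4⟩ := XY_pos m
  have p5 := p4 (by omega)
  have hr' : r = 0 ∨ r = 1 ∨ r = 2 ∨ r = 3 := by omega
  rcases hr' with rfl | rfl | rfl | rfl
  · rw [Nat.add_zero, h0, h1]; omega
  · rw [h1, show 4 * m + 1 + 1 = 4 * m + 2 by ring, h2]; omega
  · rw [h2, show 4 * m + 2 + 1 = 4 * m + 3 by ring, h3]; omega
  · rw [h3, show 4 * m + 3 + 1 = 4 * m + 4 by ring, h4, X_succ]
    rcases tt_cases (m + 1) m with h | h <;> rw [h] <;> omega

/-- the ratio of the absolute values of the terms number `M + 1` and `M` -/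
noncomputable def ratio (M : ℕ) : ℝ := |(h (M + 1) : ℝ)| / |(h M : ℝ)|

lemma ratio_nonneg (M : ℕ) : 0 ≤ ratio M := by unfold ratio; positivity

lemma ratio_le (M : ℕ) (hM : 4 ≤ M) : ratio M ≤ 5 := by
  obtain ⟨h1, h2⟩ := h_bounds M hM
  have h1' : (1 : ℝ) ≤ |(h M : ℝ)| := by exact_mod_cast h1
  have h2' : |(h (M + 1) : ℝ)| ≤ 5 * |(h M : ℝ)| := by exact_mod_cast h2
  unfold ratio
  rw [div_le_iff₀ (by linarith)]
  exact h2'

lemma far (x : ℚ) : ∃ ε : ℝ, 0 < ε ∧ ∃ M₀ : ℕ, ∀ M : ℕ, M₀ ≤ M → ε ≤ |ratio M - x| := by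
  obtain ⟨C, hC, M₀, hM⟩ := ratio_far x.num x.den (by exact_mod_cast x.den_pos)
  have hCR : (0 : ℝ) < C := by exact_mod_cast hC
  have hdR : (0 : ℝ) < x.den := by exact_mod_cast x.den_pos
  refine ⟨1 / (C * x.den), by positivity, max M₀ 4, fun M hMM => ?_⟩
  have h1 := hM M ((le_max_left _ _).trans hMM)
  have h2 := (h_bounds M ((le_max_right _ _).trans hMM)).1
  have h2' : (1 : ℝ) ≤ |(h M : ℝ)| := by exact_mod_cast h2
  have hpos : (0 : ℝ) < |(h M : ℝ)| := by linarith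
  have h1' : |(h M : ℝ)| ≤ C * abs ((x.den : ℝ) * |(h (M + 1) : ℝ)| - x.num * |(h M : ℝ)|) := by
    exact_mod_cast h1
  have e : (x.den : ℝ) * |(h (M + 1) : ℝ)| - x.num * |(h M : ℝ)| =
      (x.den * |(h M : ℝ)|) * (ratio M - x) := by
    unfold ratio
    have hx : (x : ℝ) = x.num / x.den := by exact_mod_cast (Rat.num_div_den x).symm
    rw [hx]
    field_simp
  rw [e, abs_mul, abs_of_pos (by positivity : (0 : ℝ) < x.den * |(h M : ℝ)|)] at h1'
  rw [div_le_iff₀ (by positivity)]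
  have h3 : |(h M : ℝ)| * 1 ≤ |(h M : ℝ)| * (|ratio M - x| * (C * x.den)) := by
    calc |(h M : ℝ)| * 1 = |(h M : ℝ)| := mul_one _
      _ ≤ C * (x.den * |(h M : ℝ)| * |ratio M - x|) := h1'
      _ = _ := by ring
  exact le_of_mul_le_mul_left h3 hpos

theorem liminf_irrational (u : ℕ → ℕ) (hu : Tendsto u atTop atTop) :
    Irrational (liminf (fun n => ratio (u n)) atTop) := by
  rintro ⟨x, hx⟩
  obtain ⟨ε, hε, M₀, hM⟩ := far x
  have hb : IsBoundedUnder (· ≥ ·) atTop (fun n => ratio (u n)) :=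
    isBoundedUnder_of ⟨0, fun n => ratio_nonneg _⟩
  have hb2 : IsBoundedUnder (· ≤ ·) atTop (fun n => ratio (u n)) := by
    refine ⟨5, ?_⟩
    rw [eventually_map]
    filter_upwards [hu.eventually_ge_atTop 4] with n hn
    exact ratio_le _ hn
  have hc : IsCoboundedUnder (· ≥ ·) atTop (fun n => ratio (u n)) := hb2.isCoboundedUnder_flip
  have h1 : ∃ᶠ n in atTop, ratio (u n) < x + ε := by
    apply frequently_lt_of_liminf_lt hc
    rw [← hx]; linarith
  have h2 : ∀ᶠ n in atTop, (x : ℝ) - ε < ratio (u n) := by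
    apply eventually_lt_of_lt_liminf _ hb
    rw [← hx]; linarith
  have h3 : ∀ᶠ n in atTop, ε ≤ |ratio (u n) - x| := by
    filter_upwards [hu.eventually_ge_atTop M₀] with n hn
    exact hM _ hn
  obtain ⟨n, h4, h5, h6⟩ := (h1.and_eventually (h2.and h3)).exists
  have h7 : |ratio (u n) - x| < ε := by
    rw [abs_lt]; constructor <;> linarith
  linarith

end Pool.Agent.V7H10.E68
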