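import Pool.Agent.V7H10.E68b

/-!
# The minima of the ratios of consecutive terms are attained
-/

set_option autoImplicit false

namespace Pool.Agent.V7H10.E68

open Pool.Agent.R488.TM Filter

/-! ### The maps -/

/-- one step for the quotient `X / Y` -/
noncomputable def F (e : ℤ) (x : ℝ) : ℝ := ((1 + (e : ℝ)) * x + 1) / (x + 1)

lemma F_one_ge {x : ℝ} (hx : 0 ≤ x) : 1 ≤ F 1 x := by
  unfold F
  rw [le_div_iff₀ (by linarith)]
  push_cast
  linarith

lemma F_neg_le {x : ℝ} (hx : 0 ≤ x) : F (-1) x ≤ 1 := by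
  unfold F
  rw [div_le_iff₀ (by linarith)]
  push_cast
  linarith

lemma F_one_mono {x y : ℝ} (hx : 0 ≤ x) (hxy : x ≤ y) : F 1 x ≤ F 1 y := by
  unfold F
  rw [div_le_div_iff₀ (by linarith) (by linarith)]
  push_cast
  nlinarith

lemma F_neg_anti {x y : ℝ} (hx : 0 ≤ x) (hxy : x ≤ y) : F (-1) y ≤ F (-1) x := by
  unfold F
  rw [div_le_div_iff₀ (by linarith) (by linarith)]
  push_cast
  nlinarith

lemma F_nonneg {e : ℤ} (he : e = 1 ∨ e = -1) {x : ℝ} (hx : 0 ≤ x) : 0 ≤ F e x := by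
  rcases he with rfl | rfl
  · linarith [F_one_ge hx]
  · unfold F
    push_cast
    have : (0 : ℝ) < x + 1 := by linarith
    rw [show (1 + (-1 : ℝ)) * x + 1 = 1 by ring]
    positivity

/-- the quotient `X n / Y n` -/
noncomputable def z (n : ℕ) : ℝ := (X n : ℝ) / Y n

lemma z_zero : z 0 = 0 := by unfold z; rw [X_zero]; simp

lemma Y_posR (n : ℕ) : (0 : ℝ) < Y n := by
  have := (XY_pos n).2.1
  exact_mod_cast this

lemma z_succ (n : ℕ) : z (n + 1) = F (t (n + 1) * t n) (z n) := by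
  unfold z F
  have hY := Y_posR n
  have hX : (0 : ℝ) ≤ X n := by exact_mod_cast (XY_pos n).1
  rw [X_succ, Y_succ]
  push_cast
  have : (0 : ℝ) < X n + Y n := by linarith
  field_simp

lemma z_nonneg (n : ℕ) : 0 ≤ z n := by
  unfold z
  have hX : (0 : ℝ) ≤ X n := by exact_mod_cast (XY_pos n).1
  exact div_nonneg hX (Y_posR n).le

lemma z_pos {n : ℕ} (hn : 1 ≤ n) : 0 < z n := by
  unfold z
  have h1 := XY_pos n
  have h2 := h1.2.2.2 hn
  have hX : (0 : ℝ) < X n := by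
    have : 0 < X n := by omega
    exact_mod_cast this
  exact div_pos hX (Y_posR n)

/-- the composition of the first `r` steps -/
noncomputable def Ph : ℕ → ℝ → ℝ
  | 0, x => x
  | r + 1, x => F (t (r + 1) * t r) (Ph r x)

lemma Ph_nonneg (r : ℕ) {x : ℝ} (hx : 0 ≤ x) : 0 ≤ Ph r x := by
  induction r with
  | zero => exact hx
  | succ r ih => exact F_nonneg (tt_cases _ _) ih

lemma Ph_mono (r : ℕ) {x y : ℝ} (hx : 0 ≤ x) (hxy : x ≤ y) :
    (t r = 1 → Ph r x ≤ Ph r y) ∧ (t r = -1 → Ph r y ≤ Ph r x) := by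
  induction r with
  | zero =>
    constructor
    · intro _; exact hxy
    · intro h; rw [t_zero] at h; norm_num at h
  | succ r ih =>
    have h0 := Ph_nonneg r hx
    have h1 := Ph_nonneg r (hx.trans hxy)
    constructor
    · intro h
      rcases t_cases r with hr | hr
      · have : t (r + 1) * t r = 1 := by rw [h, hr]; norm_num
        unfold Ph
        rw [this]
        exact F_one_mono h0 (ih.1 hr)
      · have : t (r + 1) * t r = -1 := by rw [h, hr]; norm_num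
        unfold Ph
        rw [this]
        exact F_neg_anti h1 (ih.2 hr)
    · intro h
      rcases t_cases r with hr | hr
      · have : t (r + 1) * t r = -1 := by rw [h, hr]; norm_num
        unfold Ph
        rw [this]
        exact F_neg_anti h0 (ih.1 hr)
      · have : t (r + 1) * t r = 1 := by rw [h, hr]; norm_num
        unfold Ph
        rw [this]
        exact F_one_mono h1 (ih.2 hr)

lemma z_block (j u : ℕ) : ∀ r : ℕ, r < 2 ^ j → z (2 ^ j * u + r) = Ph r (z (2 ^ j * u)) := by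
  intro r
  induction r with
  | zero => intro _; rfl
  | succ r ih =>
    intro hr
    rw [← Nat.add_assoc, z_succ, ih (by omega)]
    have h2 : t (2 ^ j * u + r + 1) * t (2 ^ j * u + r) = t (r + 1) * t r := by
      rw [Nat.add_assoc, t_add j u (r + 1) hr, t_add j u r (by omega)]
      linear_combination t (r + 1) * t r * t_sq u
    rw [h2]
    rfl

lemma t_last (j : ℕ) : t (2 ^ j - 1) = (-1) ^ j := by
  induction j with
  | zero => simp [t_zero]
  | succ j ih =>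
    have : 2 ^ (j + 1) - 1 = 2 * (2 ^ j - 1) + 1 := by
      have : 1 ≤ 2 ^ j := Nat.one_le_two_pow
      rw [pow_succ]; omega
    rw [this, t_odd, ih, pow_succ]; ring

lemma t_boundary (j u : ℕ) : t (2 ^ j * (u + 1)) * t (2 ^ j * u + (2 ^ j - 1)) =
    t (u + 1) * t u * (-1) ^ j := by
  have h1 : 1 ≤ 2 ^ j := Nat.one_le_two_pow
  have e1 := t_add j (u + 1) 0 (by omega)
  have e2 := t_add j u (2 ^ j - 1) (by omega)
  rw [Nat.add_zero, t_zero, mul_one] at e1
  rw [e1, e2, t_last]; ring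

lemma z_step (j u : ℕ) : z (2 ^ j * (u + 1)) =
    F (t (u + 1) * t u * (-1) ^ j) (Ph (2 ^ j - 1) (z (2 ^ j * u))) := by
  have h1 : 1 ≤ 2 ^ j := Nat.one_le_two_pow
  have e : 2 ^ j * (u + 1) = (2 ^ j * u + (2 ^ j - 1)) + 1 := by
    rw [mul_add, mul_one]; omega
  have hb := t_boundary j u
  rw [e] at hb ⊢
  rw [z_succ, hb, z_block j u _ (by omega)]

/-! ### The extreme values along the multiples of `2 ^ j` -/

lemma s_odd (v : ℕ) : t (2 * v + 1) * t (2 * v) = -1 := by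
  rw [t_odd, t_even]
  linear_combination -t_sq v

lemma s_even (v : ℕ) : t (2 * v + 2) * t (2 * v + 1) = -(t (v + 1) * t v) := by
  rw [show 2 * v + 2 = 2 * (v + 1) by ring, t_even, t_odd]; ring

/-- abstract form of the recursion -/
structure Rec (Z : ℕ → ℝ) (B : ℝ → ℝ) (c : ℤ) : Prop where
  zero : Z 0 = 0
  nonneg : ∀ u, 0 ≤ Z u
  Bnn : ∀ x, 0 ≤ x → 0 ≤ B x
  step : ∀ u, Z (u + 1) = F (t (u + 1) * t u * c) (B (Z u))

lemma t1 : t 1 = -1 := by have := t_odd 0; rwa [t_zero] at this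
lemma t2 : t 2 = -1 := by have := t_even 1; rwa [t1] at this
lemma t3 : t 3 = 1 := by have := t_odd 1; rw [t1] at this; simpa using this
lemma t4' : t 4 = -1 := by have := t_even 2; rwa [t2] at this
lemma t5 : t 5 = 1 := by have := t_odd 2; rw [t2] at this; simpa using this
lemma t6 : t 6 = 1 := by have := t_even 3; rwa [t3] at this

/-- `j` even, maximum -/
lemma even_max {Z : ℕ → ℝ} {B : ℝ → ℝ} (hR : Rec Z B 1)
    (hB : ∀ x y, 0 ≤ x → x ≤ y → B x ≤ B y) (u : ℕ) : Z u ≤ Z 2 := by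
  have hZ1 : Z 1 = F (-1) (B 0) := by
    have := hR.step 0
    rw [hR.zero, show 0 + 1 = 1 from rfl, t1, t_zero] at this
    simpa using this
  have hZ2 : Z 2 = F 1 (B (Z 1)) := by
    have := hR.step 1
    rw [show 1 + 1 = 2 from rfl, t2, t1] at this
    simpa using this
  have hge : 1 ≤ Z 2 := by rw [hZ2]; exact F_one_ge (hR.Bnn _ (hR.nonneg _))
  rcases Nat.eq_zero_or_pos u with rfl | hu
  · rw [hR.zero]; linarith
  obtain ⟨n, rfl⟩ : ∃ n, u = n + 1 := ⟨u - 1, by omega⟩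
  have hs := hR.step n
  rw [mul_one] at hs
  rcases tt_cases (n + 1) n with h | h
  · rw [h] at hs
    have hodd : ∃ w, n = 2 * w + 1 := by
      rcases Nat.even_or_odd' n with ⟨w, rfl | rfl⟩
      · rw [s_odd w] at h; norm_num at h
      · exact ⟨w, rfl⟩
    obtain ⟨w, rfl⟩ := hodd
    have hs' := hR.step (2 * w)
    rw [mul_one, s_odd w] at hs'
    rw [hs, hZ2]
    apply F_one_mono (hR.Bnn _ (hR.nonneg _))
    apply hB _ _ (hR.nonneg _)
    rw [hs', hZ1]
    exact F_neg_anti (hR.Bnn _ le_rfl) (hB _ _ le_rfl (hR.nonneg _))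
  · rw [h] at hs
    rw [hs]
    exact (F_neg_le (hR.Bnn _ (hR.nonneg _))).trans hge

/-- `j` even, minimum -/
lemma even_min {Z : ℕ → ℝ} {B : ℝ → ℝ} (hR : Rec Z B 1)
    (hB : ∀ x y, 0 ≤ x → x ≤ y → B x ≤ B y) (u : ℕ) (hu : 1 ≤ u) : Z 3 ≤ Z u := by
  have hZ3 : Z 3 = F (-1) (B (Z 2)) := by
    have := hR.step 2
    rw [show 2 + 1 = 3 from rfl, t3, t2] at this
    simpa using this
  have hle : Z 3 ≤ 1 := by rw [hZ3]; exact F_neg_le (hR.Bnn _ (hR.nonneg _))
  obtain ⟨n, rfl⟩ : ∃ n, u = n + 1 := ⟨u - 1, by omega⟩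
  have hs := hR.step n
  rw [mul_one] at hs
  rcases tt_cases (n + 1) n with h | h
  · rw [h] at hs
    rw [hs]
    exact hle.trans (F_one_ge (hR.Bnn _ (hR.nonneg _)))
  · rw [h] at hs
    rw [hs, hZ3]
    exact F_neg_anti (hR.Bnn _ (hR.nonneg _)) (hB _ _ (hR.nonneg _) (even_max hR hB n))

/-- `j` odd, maximum -/
lemma odd_max {Z : ℕ → ℝ} {B : ℝ → ℝ} (hR : Rec Z B (-1))
    (hB : ∀ x y, 0 ≤ x → x ≤ y → B y ≤ B x) (u : ℕ) : Z u ≤ Z 1 := by
  have hZ1 : Z 1 = F 1 (B 0) := by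
    have := hR.step 0
    rw [hR.zero, show 0 + 1 = 1 from rfl, t1, t_zero] at this
    simpa using this
  have hge : 1 ≤ Z 1 := by rw [hZ1]; exact F_one_ge (hR.Bnn _ le_rfl)
  rcases Nat.eq_zero_or_pos u with rfl | hu
  · rw [hR.zero]; linarith
  obtain ⟨n, rfl⟩ : ∃ n, u = n + 1 := ⟨u - 1, by omega⟩
  have hs := hR.step n
  rcases tt_cases (n + 1) n with h | h
  · rw [h, one_mul] at hs
    rw [hs]
    exact (F_neg_le (hR.Bnn _ (hR.nonneg _))).trans hge
  · rw [h, show (-1 : ℤ) * -1 = 1 by norm_num] at hs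
    rw [hs, hZ1]
    exact F_one_mono (hR.Bnn _ (hR.nonneg _)) (hB _ _ le_rfl (hR.nonneg _))

/-- `j` odd, the main chain -/
lemma odd_chain {Z : ℕ → ℝ} {B : ℝ → ℝ} (hR : Rec Z B (-1))
    (hB : ∀ x y, 0 ≤ x → x ≤ y → B y ≤ B x) (w : ℕ) (hw : t (w + 1) * t w = -1) :
    Z (2 * w) ≤ Z 4 ∧ Z 5 ≤ Z (2 * w + 1) := by
  have hZ2 : Z 2 = F (-1) (B (Z 1)) := by
    have := hR.step 1
    rw [show 1 + 1 = 2 from rfl, t2, t1] at this
    simpa using this
  have hZ3 : Z 3 = F 1 (B (Z 2)) := by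
    have := hR.step 2
    rw [show 2 + 1 = 3 from rfl, t3, t2] at this
    simpa using this
  have hZ4 : Z 4 = F 1 (B (Z 3)) := by
    have := hR.step 3
    rw [show 3 + 1 = 4 from rfl, t4', t3] at this
    simpa using this
  have hZ5 : Z 5 = F 1 (B (Z 4)) := by
    have := hR.step 4
    rw [show 4 + 1 = 5 from rfl, t5, t4'] at this
    simpa using this
  have hBn : ∀ u, 0 ≤ B (Z u) := fun u => hR.Bnn _ (hR.nonneg _)
  have hstep_odd : ∀ y, Z (2 * y + 1) = F 1 (B (Z (2 * y))) := by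
    intro y
    have := hR.step (2 * y)
    rwa [s_odd y, show (-1 : ℤ) * -1 = 1 by norm_num] at this
  have hstep_even : ∀ y, Z (2 * y + 2) = F (t (y + 1) * t y) (B (Z (2 * y + 1))) := by
    intro y
    have := hR.step (2 * y + 1)
    rw [show 2 * y + 1 + 1 = 2 * y + 2 by ring, s_even y,
      show -(t (y + 1) * t y) * (-1 : ℤ) = t (y + 1) * t y by ring] at this
    exact this
  have h1 : Z (2 * w) ≤ Z 4 := by
    have hge : 1 ≤ Z 4 := by rw [hZ4]; exact F_one_ge (hBn _)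
    rcases Nat.eq_zero_or_pos w with rfl | hw0
    · rw [mul_zero, hR.zero]; linarith
    obtain ⟨v, rfl⟩ : ∃ v, w = v + 1 := ⟨w - 1, by omega⟩
    rw [show 2 * (v + 1) = 2 * v + 2 by ring, hstep_even v]
    rcases tt_cases (v + 1) v with h | h
    · rw [h, hZ4]
      apply F_one_mono (hBn _)
      apply hB _ _ (hR.nonneg _)
      rw [hstep_odd v, hZ3]
      apply F_one_mono (hBn _)
      apply hB _ _ (hR.nonneg _)
      have hodd : ∃ y, v = 2 * y + 1 := by
        rcases Nat.even_or_odd' v with ⟨y, rfl | rfl⟩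
        · rw [s_odd y] at h; norm_num at h
        · exact ⟨y, rfl⟩
      obtain ⟨y, rfl⟩ := hodd
      rw [show 2 * (2 * y + 1) = 2 * (2 * y) + 2 by ring, hstep_even (2 * y), s_odd y, hZ2]
      exact F_neg_anti (hBn _) (hB _ _ (hR.nonneg _) (odd_max hR hB _))
    · rw [h]
      exact (F_neg_le (hBn _)).trans hge
  refine ⟨h1, ?_⟩
  rw [hstep_odd w, hZ5]
  exact F_one_mono (hBn _) (hB _ _ (hR.nonneg _) h1)

/-- `j` odd, minimum -/
lemma odd_min {Z : ℕ → ℝ} {B : ℝ → ℝ} (hR : Rec Z B (-1))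
    (hB : ∀ x y, 0 ≤ x → x ≤ y → B y ≤ B x) (u : ℕ) (hu : 1 ≤ u) : Z 6 ≤ Z u := by
  have hZ6 : Z 6 = F (-1) (B (Z 5)) := by
    have := hR.step 5
    rw [show 5 + 1 = 6 from rfl, t6, t5] at this
    simpa using this
  have hle : Z 6 ≤ 1 := by rw [hZ6]; exact F_neg_le (hR.Bnn _ (hR.nonneg _))
  obtain ⟨n, rfl⟩ : ∃ n, u = n + 1 := ⟨u - 1, by omega⟩
  have hs := hR.step n
  rcases tt_cases (n + 1) n with h | h
  · rw [h, one_mul] at hs
    have hodd : ∃ w, n = 2 * w + 1 := by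
      rcases Nat.even_or_odd' n with ⟨w, rfl | rfl⟩
      · rw [s_odd w] at h; norm_num at h
      · exact ⟨w, rfl⟩
    obtain ⟨w, rfl⟩ := hodd
    have hw : t (w + 1) * t w = -1 := by
      rw [show 2 * w + 1 + 1 = 2 * w + 2 by ring, s_even w] at h
      linarith
    rw [hs, hZ6]
    exact F_neg_anti (hR.Bnn _ (hR.nonneg _)) (hB _ _ (hR.nonneg _) (odd_chain hR hB w hw).2)
  · rw [h, show (-1 : ℤ) * -1 = 1 by norm_num] at hs
    rw [hs]
    exact hle.trans (F_one_ge (hR.Bnn _ (hR.nonneg _)))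

lemma rec_z (j : ℕ) : Rec (fun u => z (2 ^ j * u)) (Ph (2 ^ j - 1)) ((-1) ^ j) where
  zero := by simp [z_zero]
  nonneg u := z_nonneg _
  Bnn x hx := Ph_nonneg _ hx
  step u := z_step j u

lemma rec_even {j : ℕ} (hj : Even j) : Rec (fun u => z (2 ^ j * u)) (Ph (2 ^ j - 1)) 1 := by
  have := rec_z j
  rwa [hj.neg_one_pow] at this

lemma rec_odd {j : ℕ} (hj : Odd j) : Rec (fun u => z (2 ^ j * u)) (Ph (2 ^ j - 1)) (-1) := by
  have := rec_z j
  rwa [hj.neg_one_pow] at this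

lemma B_mono {j : ℕ} (hj : Even j) (x y : ℝ) (hx : 0 ≤ x) (hxy : x ≤ y) :
    Ph (2 ^ j - 1) x ≤ Ph (2 ^ j - 1) y :=
  (Ph_mono _ hx hxy).1 (by rw [t_last, hj.neg_one_pow])

lemma B_anti {j : ℕ} (hj : Odd j) (x y : ℝ) (hx : 0 ≤ x) (hxy : x ≤ y) :
    Ph (2 ^ j - 1) y ≤ Ph (2 ^ j - 1) x :=
  (Ph_mono _ hx hxy).2 (by rw [t_last, hj.neg_one_pow])

/-- extreme values along the multiples of `2 ^ j` -/
lemma ext_mult (j : ℕ) : (∃ a, 1 ≤ a ∧ ∀ u, z (2 ^ j * u) ≤ z (2 ^ j * a)) ∧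
    (∃ b, 1 ≤ b ∧ ∀ u, 1 ≤ u → z (2 ^ j * b) ≤ z (2 ^ j * u)) := by
  rcases Nat.even_or_odd j with hj | hj
  · exact ⟨⟨2, by norm_num, fun u => even_max (rec_even hj) (B_mono hj) u⟩,
      ⟨3, by norm_num, fun u hu => even_min (rec_even hj) (B_mono hj) u hu⟩⟩
  · exact ⟨⟨1, by norm_num, fun u => odd_max (rec_odd hj) (B_anti hj) u⟩,
      ⟨6, by norm_num, fun u hu => odd_min (rec_odd hj) (B_anti hj) u hu⟩⟩

/-- extreme values of `z` on a residue class modulo `2 ^ j` -/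
lemma ext_class (j r : ℕ) (hr : r < 2 ^ j) :
    (∃ a, 1 ≤ 2 ^ j * a + r ∧ ∀ u, 1 ≤ 2 ^ j * u + r → z (2 ^ j * u + r) ≤ z (2 ^ j * a + r)) ∧
    (∃ b, 1 ≤ 2 ^ j * b + r ∧ ∀ u, 1 ≤ 2 ^ j * u + r → z (2 ^ j * b + r) ≤ z (2 ^ j * u + r)) := by
  obtain ⟨⟨a, ha, hmax⟩, ⟨b, hb, hmin⟩⟩ := ext_mult j
  have h1 : 1 ≤ 2 ^ j := Nat.one_le_two_pow
  have ha' : 1 ≤ 2 ^ j * a := Nat.one_le_iff_ne_zero.2 (by positivity)
  have hb' : 1 ≤ 2 ^ j * b := Nat.one_le_iff_ne_zero.2 (by positivity)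
  rcases Nat.eq_zero_or_pos r with rfl | hr0
  · refine ⟨⟨a, by omega, fun u _ => by simpa using hmax u⟩, ⟨b, by omega, fun u hu => ?_⟩⟩
    have : 1 ≤ u := by
      rcases Nat.eq_zero_or_pos u with rfl | h
      · simp at hu
      · exact h
    simpa using hmin u this
  · have h00 : z (2 ^ j * 0) = 0 := by simp [z_zero]
    rcases t_cases r with ht | ht
    · refine ⟨⟨a, by omega, fun u _ => ?_⟩, ⟨0, by omega, fun u _ => ?_⟩⟩
      · rw [z_block j u r hr, z_block j a r hr]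
        exact (Ph_mono r (z_nonneg _) (hmax u)).1 ht
      · rw [z_block j u r hr, z_block j 0 r hr]
        exact (Ph_mono r (z_nonneg _) (by rw [h00]; exact z_nonneg _)).1 ht
    · refine ⟨⟨0, by omega, fun u _ => ?_⟩, ⟨a, by omega, fun u _ => ?_⟩⟩
      · rw [z_block j u r hr, z_block j 0 r hr]
        exact (Ph_mono r (z_nonneg _) (by rw [h00]; exact z_nonneg _)).2 ht
      · rw [z_block j u r hr, z_block j a r hr]
        exact (Ph_mono r (z_nonneg _) (hmax u)).2 ht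

lemma z_two : z 2 = 3 / 2 := by
  unfold z
  have hX1 : X 1 = 1 := by
    have := X_succ 0
    rw [X_zero, Y_zero] at this; simpa using this
  have hY1 : Y 1 = 1 := by
    have := Y_succ 0
    rw [X_zero, Y_zero] at this; simpa using this
  have hX2 : X 2 = 3 := by
    have := X_succ 1
    rw [hX1, hY1, show 1 + 1 = 2 from rfl, t2, t1] at this; simpa using this
  have hY2 : Y 2 = 2 := by
    have := Y_succ 1
    rw [hX1, hY1] at this; simpa using this
  rw [hX2, hY2]; norm_num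

lemma z_three : z 3 = 2 / 5 := by
  have := z_succ 2
  rw [show 2 + 1 = 3 from rfl, z_two, t3, t2] at this
  rw [this]; unfold F; norm_num

lemma z_le (u : ℕ) : z u ≤ 3 / 2 := by
  have := even_max (rec_even (j := 0) (by decide)) (B_mono (by decide)) u
  simp only [pow_zero, one_mul] at this
  rwa [z_two] at this

lemma z_ge (u : ℕ) (hu : 1 ≤ u) : 2 / 5 ≤ z u := by
  have := even_min (rec_even (j := 0) (by decide)) (B_mono (by decide)) u hu
  simp only [pow_zero, one_mul] at this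
  rwa [z_three] at this

end Pool.Agent.V7H10.E68
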