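import Pool.Agent.V7H10.E68c

/-!
# The minima of the ratios of consecutive terms are attained: all residue classes
-/

set_option autoImplicit false

namespace Pool.Agent.V7H10.E68

open Pool.Agent.R488.TM Filter

lemma abs_hR (n : ℕ) : |(h (4 * n) : ℝ)| = X n ∧ |(h (4 * n + 1) : ℝ)| = Y n ∧
    |(h (4 * n + 2) : ℝ)| = X n + Y n ∧ |(h (4 * n + 3) : ℝ)| = X n ∧
    |(h (4 * n + 4) : ℝ)| = X (n + 1) := by
  obtain ⟨h0, h1, h2, h3⟩ := abs_h n
  have h4 := abs_h4 n
  refine ⟨?_, ?_, ?_, ?_, ?_⟩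
  · exact_mod_cast h0
  · exact_mod_cast h1
  · exact_mod_cast h2
  · exact_mod_cast h3
  · exact_mod_cast h4

lemma ratio0 (m : ℕ) (hm : 1 ≤ m) : ratio (4 * m) = 1 / z m := by
  obtain ⟨h0, h1, -, -, -⟩ := abs_hR m
  have hz := z_pos hm
  unfold ratio z at *
  rw [h0, h1, one_div_div]

lemma ratio1 (m : ℕ) : ratio (4 * m + 1) = 1 + z m := by
  obtain ⟨-, h1, h2, -, -⟩ := abs_hR m
  have hY := Y_posR m
  unfold ratio z
  rw [show 4 * m + 1 + 1 = 4 * m + 2 by ring, h1, h2]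
  field_simp
  ring

lemma ratio2 (m : ℕ) : ratio (4 * m + 2) = z m / (1 + z m) := by
  obtain ⟨-, -, h2, h3, -⟩ := abs_hR m
  have hY := Y_posR m
  have hX : (0 : ℝ) ≤ X m := by exact_mod_cast (XY_pos m).1
  unfold ratio z
  rw [show 4 * m + 2 + 1 = 4 * m + 3 by ring, h2, h3]
  have : (0 : ℝ) < X m + Y m := by linarith
  have : (0 : ℝ) < Y m + X m := by linarith
  field_simp
  ring

lemma ratio3 (m : ℕ) (hm : 1 ≤ m) :
    ratio (4 * m + 3) = (1 + ((t (m + 1) * t m : ℤ) : ℝ)) + 1 / z m := by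
  obtain ⟨-, -, -, h3, h4⟩ := abs_hR m
  have hz := z_pos hm
  have hY := Y_posR m
  have hX : (0 : ℝ) < X m := by
    unfold z at hz
    by_contra hcon
    push Not at hcon
    have := div_nonpos_of_nonpos_of_nonneg hcon hY.le
    linarith
  unfold ratio z
  rw [show 4 * m + 3 + 1 = 4 * m + 4 by ring, h3, h4, X_succ]
  push_cast
  field_simp

/-- `M` is a minimum of the ratio on the class `A` -/
def IsMin (A : Set ℕ) (M : ℕ) : Prop := M ∈ A ∧ ∀ M' ∈ A, ratio M ≤ ratio M'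

lemma isMin0 (j r : ℕ) (hr : r < 2 ^ j) : ∃ n, 1 ≤ 2 ^ j * n + r ∧
    ∀ n', 1 ≤ 2 ^ j * n' + r → ratio (4 * (2 ^ j * n + r)) ≤ ratio (4 * (2 ^ j * n' + r)) := by
  obtain ⟨⟨a, ha, hmax⟩, -⟩ := ext_class j r hr
  refine ⟨a, ha, fun n' hn' => ?_⟩
  rw [ratio0 _ ha, ratio0 _ hn']
  exact one_div_le_one_div_of_le (z_pos hn') (hmax n' hn')

lemma isMin1 (j r : ℕ) (hr : r < 2 ^ j) : ∃ n, 1 ≤ 2 ^ j * n + r ∧
    ∀ n', 1 ≤ 2 ^ j * n' + r →
      ratio (4 * (2 ^ j * n + r) + 1) ≤ ratio (4 * (2 ^ j * n' + r) + 1) := by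
  obtain ⟨-, ⟨b, hb, hmin⟩⟩ := ext_class j r hr
  refine ⟨b, hb, fun n' hn' => ?_⟩
  rw [ratio1, ratio1]
  linarith [hmin n' hn']

lemma isMin2 (j r : ℕ) (hr : r < 2 ^ j) : ∃ n, 1 ≤ 2 ^ j * n + r ∧
    ∀ n', 1 ≤ 2 ^ j * n' + r →
      ratio (4 * (2 ^ j * n + r) + 2) ≤ ratio (4 * (2 ^ j * n' + r) + 2) := by
  obtain ⟨-, ⟨b, hb, hmin⟩⟩ := ext_class j r hr
  refine ⟨b, hb, fun n' hn' => ?_⟩
  rw [ratio2, ratio2]
  have h1 := hmin n' hn'
  have h2 := z_nonneg (2 ^ j * b + r)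
  rw [div_le_div_iff₀ (by linarith) (by linarith)]
  nlinarith

lemma isMin3 (j r : ℕ) (hr : r < 2 ^ j) : ∃ n, 1 ≤ 2 ^ j * n + r ∧
    ∀ n', 1 ≤ 2 ^ j * n' + r →
      ratio (4 * (2 ^ j * n + r) + 3) ≤ ratio (4 * (2 ^ j * n' + r) + 3) := by
  rcases Nat.lt_or_ge (r + 1) (2 ^ j) with hr1 | hr1
  · obtain ⟨⟨a, ha, hmax⟩, -⟩ := ext_class j r hr
    refine ⟨a, ha, fun n' hn' => ?_⟩
    have hs : ∀ u, t (2 ^ j * u + r + 1) * t (2 ^ j * u + r) = t (r + 1) * t r := by
      intro u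
      rw [Nat.add_assoc, t_add j u (r + 1) hr1, t_add j u r hr]
      linear_combination t (r + 1) * t r * t_sq u
    rw [ratio3 _ ha, ratio3 _ hn', hs, hs]
    have := one_div_le_one_div_of_le (z_pos hn') (hmax n' hn')
    linarith
  · have hre : r = 2 ^ j - 1 := by omega
    subst hre
    have h1 : 1 ≤ 2 ^ j := Nat.one_le_two_pow
    have hs : ∀ u, t (2 ^ j * u + (2 ^ j - 1) + 1) * t (2 ^ j * u + (2 ^ j - 1)) =
        t (u + 1) * t u * (-1) ^ j := by
      intro u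
      have := t_boundary j u
      rwa [show 2 ^ j * (u + 1) = 2 ^ j * u + (2 ^ j - 1) + 1 by rw [mul_add, mul_one]; omega]
        at this
    rcases Nat.even_or_odd j with hj | hj
    · have ha : 1 ≤ 2 ^ j * 2 + (2 ^ j - 1) := by omega
      refine ⟨2, ha, fun n' hn' => ?_⟩
      rw [ratio3 _ ha, ratio3 _ hn', hs, hs, hj.neg_one_pow, mul_one, mul_one,
        show 2 + 1 = 3 from rfl, t3, t2, z_block j 2 _ (by omega), z_block j n' _ (by omega)]
      have hmax := even_max (rec_even hj) (B_mono hj) n'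
      have hz := z_pos hn'
      rw [z_block j n' _ (by omega)] at hz
      have h2 := one_div_le_one_div_of_le hz (B_mono hj _ _ (z_nonneg _) hmax)
      rcases tt_cases (n' + 1) n' with h | h <;> rw [h] <;> push_cast <;> linarith
    · have ha : 1 ≤ 2 ^ j * 5 + (2 ^ j - 1) := by omega
      refine ⟨5, ha, fun n' hn' => ?_⟩
      rw [ratio3 _ ha, ratio3 _ hn', hs, hs, hj.neg_one_pow, show 5 + 1 = 6 from rfl, t6, t5]
      rcases tt_cases (n' + 1) n' with h | h
      · rw [h, z_block j 5 _ (by omega), z_block j n' _ (by omega)]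
        have hodd : ∃ w, n' = 2 * w + 1 := by
          rcases Nat.even_or_odd' n' with ⟨w, rfl | rfl⟩
          · rw [s_odd w] at h; norm_num at h
          · exact ⟨w, rfl⟩
        obtain ⟨w, rfl⟩ := hodd
        have hw : t (w + 1) * t w = -1 := by
          rw [show 2 * w + 1 + 1 = 2 * w + 2 by ring, s_even w] at h
          linarith
        have h5 := (odd_chain (rec_odd hj) (B_anti hj) w hw).2
        have hz := z_pos hn'
        rw [z_block j _ _ (by omega)] at hz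
        have h6 := one_div_le_one_div_of_le hz (B_anti hj _ _ (z_nonneg _) h5)
        push_cast
        linarith
      · rw [h]
        have h7 := z_ge _ ha
        have h8 := z_le (2 ^ j * n' + (2 ^ j - 1))
        have h9 := one_div_le_one_div_of_le (by norm_num) h7
        have h10 := one_div_le_one_div_of_le (z_pos hn') h8
        norm_num at h9 h10 ⊢
        linarith

/-- the minimum of the ratios is attained in every class modulo `2 ^ k` -/
theorem attained (k i : ℕ) (hk : 1 ≤ k) (hi : i < 2 ^ k) :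
    ∃ n, 4 ≤ 2 ^ k * n + i ∧ ∀ n', 4 ≤ 2 ^ k * n' + i → ratio (2 ^ k * n + i) ≤ ratio (2 ^ k * n' + i) := by
  rcases Nat.lt_or_ge 1 k with hk2 | hk2
  · obtain ⟨j, rfl⟩ : ∃ j, k = j + 2 := ⟨k - 2, by omega⟩
    have e4 : ∀ n r c : ℕ, 2 ^ (j + 2) * n + (4 * r + c) = 4 * (2 ^ j * n + r) + c := by
      intro n r c; rw [pow_add]; ring
    obtain ⟨r, c, hc, rfl⟩ : ∃ r c, c < 4 ∧ i = 4 * r + c :=
      ⟨i / 4, i % 4, Nat.mod_lt _ (by norm_num), (Nat.div_add_mod i 4).symm⟩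
    have hr : r < 2 ^ j := by
      rw [pow_add] at hi; omega
    have hc' : c = 0 ∨ c = 1 ∨ c = 2 ∨ c = 3 := by omega
    have hiff : ∀ n, 4 ≤ 2 ^ (j + 2) * n + (4 * r + c) ↔ 1 ≤ 2 ^ j * n + r := by
      intro n; rw [e4]; omega
    simp_rw [hiff, e4]
    rcases hc' with rfl | rfl | rfl | rfl
    · exact isMin0 j r hr
    · exact isMin1 j r hr
    · exact isMin2 j r hr
    · exact isMin3 j r hr
  · have hk1 : k = 1 := by omega
    subst hk1
    rw [pow_one] at hi ⊢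
    have hi' : i = 0 ∨ i = 1 := by omega
    rcases hi' with rfl | rfl
    · refine ⟨7, by norm_num, fun n' hn' => ?_⟩
      have e : ratio (2 * 7 + 0) = 2 / 7 := by
        rw [show 2 * 7 + 0 = 4 * 3 + 2 by norm_num, ratio2, z_three]; norm_num
      rw [e, Nat.add_zero]
      rcases Nat.even_or_odd' n' with ⟨m, rfl | rfl⟩
      · have hm : 1 ≤ m := by omega
        rw [show 2 * (2 * m) = 4 * m by ring, ratio0 _ hm]
        have := one_div_le_one_div_of_le (z_pos hm) (z_le m)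
        norm_num at this ⊢
        linarith
      · have hm : 1 ≤ m := by omega
        rw [show 2 * (2 * m + 1) = 4 * m + 2 by ring, ratio2]
        have h1 := z_ge m hm
        rw [div_le_div_iff₀ (by norm_num) (by linarith)]
        linarith
    · refine ⟨5, by norm_num, fun n' hn' => ?_⟩
      have e : ratio (2 * 5 + 1) = 2 / 3 := by
        rw [show 2 * 5 + 1 = 4 * 2 + 3 by norm_num, ratio3 _ (by norm_num), z_two,
          show 2 + 1 = 3 from rfl, t3, t2]; norm_num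
      rw [e]
      rcases Nat.even_or_odd' n' with ⟨m, rfl | rfl⟩
      · rw [show 2 * (2 * m) + 1 = 4 * m + 1 by ring, ratio1]
        have := z_nonneg m
        linarith
      · have hm : 1 ≤ m := by omega
        rw [show 2 * (2 * m + 1) + 1 = 4 * m + 3 by ring, ratio3 _ hm]
        have := one_div_le_one_div_of_le (z_pos hm) (z_le m)
        rcases tt_cases (m + 1) m with h | h <;> rw [h] <;> norm_num at this ⊢ <;> linarith

/-- the infimum of the ratios in a class -/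
noncomputable def infRatio (k i : ℕ) : ℝ :=
  sInf {x : ℝ | ∃ n : ℕ, 4 ≤ 2 ^ k * n + i ∧ x = ratio (2 ^ k * n + i)}

lemma infRatio_eq (k i n : ℕ) (hn : 4 ≤ 2 ^ k * n + i)
    (hmin : ∀ n', 4 ≤ 2 ^ k * n' + i → ratio (2 ^ k * n + i) ≤ ratio (2 ^ k * n' + i)) :
    infRatio k i = ratio (2 ^ k * n + i) := by
  apply IsLeast.csInf_eq
  refine ⟨⟨n, hn, rfl⟩, ?_⟩
  rintro x ⟨n', hn', rfl⟩
  exact hmin n' hn'

/-- the value for `i = 0`: attained at the first or the second multiple -/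
lemma infRatio_zero (j a : ℕ) (ha : 1 ≤ a) (hmax : ∀ u, z (2 ^ j * u) ≤ z (2 ^ j * a)) :
    infRatio (j + 2) 0 = 1 / z (2 ^ j * a) := by
  have ha' : 1 ≤ 2 ^ j * a := Nat.one_le_iff_ne_zero.2 (by positivity)
  have e4 : ∀ n : ℕ, 2 ^ (j + 2) * n + 0 = 4 * (2 ^ j * n) := by
    intro n; rw [pow_add]; ring
  rw [infRatio_eq (j + 2) 0 a (by rw [e4]; omega), e4, ratio0 _ ha']
  intro n' hn'
  rw [e4] at hn' ⊢
  have hn1 : 1 ≤ 2 ^ j * n' := by omega
  rw [e4, ratio0 _ ha', ratio0 _ hn1]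
  exact one_div_le_one_div_of_le (z_pos hn1) (hmax n')

theorem infRatio_even (k : ℕ) : infRatio (2 * k + 2) 0 = 1 / z (2 ^ (2 * k + 1)) := by
  rw [infRatio_zero (2 * k) 2 (by norm_num) (even_max (rec_even (by simp)) (B_mono (by simp))),
    pow_succ]

theorem infRatio_odd (k : ℕ) : infRatio (2 * k + 3) 0 = 1 / z (2 ^ (2 * k + 1)) := by
  have hodd : Odd (2 * k + 1) := ⟨k, rfl⟩
  have := infRatio_zero (2 * k + 1) 1 (by norm_num) (odd_max (rec_odd hodd) (B_anti hodd))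
  rwa [mul_one] at this

end Pool.Agent.V7H10.E68
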