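import Pool.Agent.V7H10.KE2
import Pool.Agent.Results.MP_c59389_nt.StarshapedFrey

set_option autoImplicit false

/-! Frey's inequality for the Weil restrictions of elliptic curves with full two-torsion, all degrees and all slopes at the
same time (helper10). -/

open NumberField

namespace Pool.Agent.V7H10.FR

open Pool.Agent.Results.MP_c59389_nt
open Pool.Agent.Results.MP_c59389_nt.WeilRestrictions (jInv FullTwo badNorm Violators expo)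
open Pool.Agent.Results.MP_c59389_nt.StarshapedFrey (hF ht Exc count nonneg)
open Pool.Agent.N733.TG (LM Expanding)
open Pool.Agent.N760.IT (orb)
open Pool.Agent.N826.IT.Orb (AlmostAll)
open Pool.Agent.V7H10.KE (ThinH)

/-- Frey's inequality `h ≤ κ log N - c`, `N = badNorm W |D_L| ^ 2`, for ALL number fields `L` of degree `n` (in the algebraic
closure of `ℚ`) and ALL elliptic curves `W` over `L` with full two-torsion for which `h = n h_F(W)` satisfies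
`|exp (h) ^ (n + 1) - z| ≤ ρ` -/
def Frey (P : ℂ → UpperHalfPlane) (n : ℕ) (κ c z ρ : ℝ) : Prop :=
  ∀ (L : IntermediateField ℚ (AlgebraicClosure ℚ)) [NumberField L] (W : WeierstrassCurve L),
    Module.finrank ℚ L = n → W.Δ ≠ 0 → FullTwo W →
    |Real.exp (hF P (W.c₄ ^ 3 / W.Δ)) ^ (n + 1) - z| ≤ ρ →
      hF P (W.c₄ ^ 3 / W.Δ) ≤ κ * Real.log (badNorm W * |(NumberField.discr L : ℝ)| ^ 2) - c

theorem frey_mono {P : ℂ → UpperHalfPlane} {n : ℕ} {κ κ' c c' z ρ : ℝ} (hκ : κ' ≤ κ) (hc : c ≤ c')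
    (h : Frey P n κ' c' z ρ) : Frey P n κ c z ρ := by
  intro L _ W h1 h2 h3 h4
  have h5 := h L W h1 h2 h3 h4
  have h6 := mul_le_mul_of_nonneg_right hκ (nonneg W)
  linarith

/-- degrees, slopes and constants with small exceptional sets -/
abbrev Idx (e : ℕ → ℝ) (B : ℝ) : Type := {p : ℕ × ℚ × ℕ // 2 ≤ p.1 ∧ 0 < p.2.1 ∧
  e p.1 / ((p.1 + 1) * ((p.2.1 : ℚ) : ℝ)) < B}

/-- the exceptional curves -/
def Bad (P : ℂ → UpperHalfPlane) {e : ℕ → ℝ} {B : ℝ} (p : Idx e B) : Set StarshapedFrey.Num :=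
  Exc P p.1.1 ((p.1.2.1 : ℚ) : ℝ) (-(p.1.2.2 : ℝ))

/-- the heights -/
noncomputable def hgt (P : ℂ → UpperHalfPlane) {e : ℕ → ℝ} {B : ℝ} (p : Idx e B) (x : StarshapedFrey.Num) : ℝ :=
  Real.exp (ht P x) ^ (p.1.1 + 1)

/-- the exponents -/
noncomputable def expn {e : ℕ → ℝ} {B : ℝ} (p : Idx e B) : ℝ := e p.1.1 / ((p.1.1 + 1) * ((p.1.2.1 : ℚ) : ℝ))

theorem expn_nonneg {e : ℕ → ℝ} (he : ∀ n, 0 ≤ e n) {B : ℝ} (p : Idx e B) : 0 ≤ expn p := by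
  have h1 : (0 : ℝ) < ((p.1.2.1 : ℚ) : ℝ) := by exact_mod_cast p.2.2.1
  exact div_nonneg (he _) (by positivity)

/-- the function `e` of the starting theorem -/
theorem main : ∃ e : ℕ → ℝ, (∀ n, 0 ≤ e n) ∧ (∀ n : ℕ, 2 ≤ n → e n ≤ max (2 / 3) (expo n / 2)) ∧
    (∀ c : ℝ, 1 / (16 * (Real.log 2) ^ 2) < c → ∀ᶠ n : ℕ in Filter.atTop, e n ≤ c * (Real.log n) ^ 2) ∧
    ∀ P : ℂ → UpperHalfPlane, (∀ z, jInv (P z) = z) → ∀ (B : ℝ) (p : Idx e B), ThinH (Bad P p) (hgt P p) (expn p) := by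
  obtain ⟨e, he1, he2, he3⟩ := WeilRestrictions.result.1
  refine ⟨fun n => max (e n) 0, fun n => le_max_right _ _, fun n hn => max_le (he2 n hn) ?_,
    fun c hc => ?_, fun P hP B p => ?_⟩
  · exact le_trans (by norm_num) (le_max_left _ _)
  · have hc0 : 0 < c := lt_trans (by
      have := Real.log_pos (by norm_num : (1 : ℝ) < 2)
      positivity) hc
    filter_upwards [he1 c hc] with n hn
    exact max_le hn (by positivity)
  · obtain ⟨⟨n, κ, c⟩, hn, hκ, _⟩ := p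
    have hκ' : (0 : ℝ) < ((κ : ℚ) : ℝ) := by exact_mod_cast hκ
    intro ε hε
    exact count hP hn hκ' (fun δ hδ => he3 n hn _ (-(c : ℝ)) δ hκ' hδ) ε hε

/-- a rational slope -/
theorem slope {e : ℕ → ℝ} (he : ∀ n, 0 ≤ e n) {B : ℝ} (hB : 0 < B) {n : ℕ} (hn : 2 ≤ n) {κ : ℝ} (hκ : 0 < κ)
    (h : e n / ((n + 1) * κ) < B) (c : ℝ) : ∃ p : Idx e B, p.1.1 = n ∧ ((p.1.2.1 : ℚ) : ℝ) ≤ κ ∧ c ≤ (p.1.2.2 : ℝ) := by
  have hn0 : (0 : ℝ) < (n : ℝ) + 1 := by positivity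
  have h1 : e n / ((n + 1) * B) < κ := by
    rw [div_lt_iff₀ (by positivity)] at h ⊢
    calc e n < B * ((n + 1) * κ) := h
      _ = κ * ((n + 1) * B) := by ring
  have h0 : 0 ≤ e n / ((n + 1) * B) := div_nonneg (he n) (by positivity)
  obtain ⟨κ', h2, h3⟩ := exists_rat_btwn h1
  obtain ⟨c', hc'⟩ := exists_nat_ge c
  have h4 : (0 : ℝ) < ((κ' : ℚ) : ℝ) := lt_of_le_of_lt h0 h2
  refine ⟨⟨(n, κ', c'), hn, by exact_mod_cast h4, ?_⟩, rfl, h3.le, hc'⟩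
  rw [div_lt_iff₀ (by positivity)] at h2 ⊢
  calc e n < κ' * ((n + 1) * B) := h2
    _ = B * ((n + 1) * κ') := by ring

theorem frey_of {P : ℂ → UpperHalfPlane} {e : ℕ → ℝ} {B : ℝ} (p : Idx e B) {z ρ : ℝ}
    (h : ∀ x : StarshapedFrey.Num, |hgt P p x - z| ≤ ρ → x ∉ Bad P p) : Frey P p.1.1 ((p.1.2.1 : ℚ) : ℝ) (p.1.2.2 : ℝ) z ρ := by
  intro L hL W hd hW1 hW2 hw
  by_contra hcon
  push Not at hcon
  refine h ⟨⟨L, hL⟩, W.c₄ ^ 3 / W.Δ⟩ hw ⟨hd, W, hW1, hW2, rfl, ?_⟩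
  show ((p.1.2.1 : ℚ) : ℝ) * Real.log (badNorm W * |(NumberField.discr L : ℝ)| ^ 2) + -(p.1.2.2 : ℝ) <
    hF P (W.c₄ ^ 3 / W.Δ)
  linarith

end Pool.Agent.V7H10.FR
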