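import Pool.Agent.N603.DB.Per
import Pool.Agent.R482.ST.Vec
import Pool.Agent.V7H10.Diag

set_option autoImplicit false

/-! Members of a one-parameter family over all number fields, with heights near given numbers (helper10). -/

open NumberField

namespace Pool.Agent.V7H10.HP

open Pool.Agent Pool.Agent.Y890.MV Pool.Agent.Y890.SM Pool.Agent.R349.PC
open Pool.Agent.N603.DB (height one_le_height count)
open Pool.Agent.N733.TG (LM Expanding keep_good)
open Pool.Agent.N760.IT (orb orbit_good)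
open Pool.Agent.N826.IT.Orb (AlmostAll almostAll_mono almostAll_and)
open Pool.Agent.N375.AV (PD comp good)
open Pool.Agent.R482.ST (Starshaped Conv windows)
open Pool.Agent.V7H10.Diag (cnt logC expC steps almostAll_ev)

variable {X : Type} [Fintype X] [DecidableEq X] [Nonempty X] {ι : Type} [Fintype ι] [DecidableEq ι]
  {n : ι → ℕ}

/-- every member of the family over a point of `K` in `InnerM F.U k` whose height is at distance at most `r` from `c` is
good for the number `z` -/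
def Ok (F : SympFam X n) (K : IntermediateField ℚ ℂ) [NumberField K] (k : ℕ) (z : ℂ) (c r : ℝ) : Prop :=
  ∀ x : K, (fun _ : X => (x : ℂ)) ∈ InnerM F.U k → |height K x - c| ≤ r →
    Good F k K (algebraMap K ℂ) (height K x) z (fun _ => (x : ℂ))

/-- the index set: number fields in `ℂ`, natural numbers, elements of `Z` -/
abbrev Idx (Z : Set ℂ) : Type := {F : IntermediateField ℚ ℂ // FiniteDimensional ℚ F} × ℕ × Z

/-- the same for the indices -/
def OkI (F : SympFam X n) {Z : Set ℂ} (p : Idx Z) (c r : ℝ) : Prop :=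
  ∀ [NumberField p.1.1], Module.finrank ℚ p.1.1 ≤ p.2.1 → Ok F p.1.1 p.2.1 (p.2.2 : ℂ) c r

theorem countable_idx {Z : Set ℂ} (hZ : Z.Countable) : Countable (Idx Z) := by
  have hcount := N603.DA.countable_fields
  have hZc : Countable Z := hZ.to_subtype
  exact inferInstance

theorem of_idx {F : SympFam X n} {Z : Set ℂ} (K : IntermediateField ℚ ℂ) [hK : NumberField K] (k : ℕ)
    (hk : Module.finrank ℚ K ≤ k) (z : ℂ) (hz : z ∈ Z) {c r : ℝ}
    (h : OkI F ((⟨K, hK.to_finiteDimensional⟩, k, ⟨z, hz⟩) : Idx Z) c r) : Ok F K k z c r := h hk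

/-- Multiplicative functions. -/
theorem mult (F : SympFam X n) (hX : Fintype.card X = 1) {Z : Set ℂ} (hZ : Z.Countable) {f : ℕ → ℕ} (hf : LM f)
    {G : ℕ → ℝ} {d : ℝ} (hG : Expanding G d) {κ : ℝ} (hκ : 0 ≤ κ) (hκ1 : κ < 1) :
    ∃ R : Set ℕ, (∀ A : ℕ, ∃ N₀ : ℕ, ∀ N : ℕ, N₀ ≤ N → (cnt R N : ℝ) ≤ N / Real.log N ^ A) ∧
      ∀ (K : IntermediateField ℚ ℂ) [NumberField K] (k : ℕ), Module.finrank ℚ K ≤ k → ∀ z ∈ Z, ∃ m₀ : ℕ, ∀ m : ℕ,
        m₀ ≤ m → m ∉ R → Ok F K k z (G (f m)) ((f m : ℝ) ^ κ) := by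
  classical
  have := countable_idx hZ
  obtain ⟨R, hR, h⟩ := logC (ι := Idx Z) (fun p => {m : ℕ | ¬ OkI F p (G (f m)) ((f m : ℝ) ^ κ)}) (by
    rintro ⟨⟨K, hK⟩, k, z⟩ A
    have hNF : NumberField K := { to_charZero := inferInstance, to_finiteDimensional := hK }
    by_cases hk : Module.finrank ℚ K ≤ k
    · obtain ⟨N₀, hN₀⟩ := keep_good (T := K)
        (fun x => (fun _ : X => (x : ℂ)) ∈ InnerM F.U k)
        (fun x => Good F k K (algebraMap K ℂ) (height K x) (z : ℂ) (fun _ => (x : ℂ)))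
        (fun x => height K x) hf hG (s := 0) (κ := κ) le_rfl hκ (by rw [mul_zero, zero_add]; exact hκ1)
        (fun ε hε => by
          obtain ⟨C, hC⟩ := count F hX k K hk (algebraMap K ℂ) z hε
          refine ⟨C, fun Y hY => ?_⟩
          rw [zero_add]
          exact hC Y hY) A
      refine ⟨N₀, fun N hN => le_trans (Nat.cast_le.2 (Set.ncard_le_ncard ?_ ?_)) (hN₀ N hN)⟩
      · rintro m ⟨h1, h2, h3⟩
        refine ⟨h1, h2, fun h4 => h3 ?_⟩
        intro _ _ x hx hx2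
        exact h4 x hx hx2
      · apply (Set.finite_Icc 1 N).subset
        rintro m ⟨h1, h2, _⟩
        exact ⟨h1, h2⟩
    · refine ⟨0, fun N _ => ?_⟩
      have e : cnt {m : ℕ | ¬ OkI F (⟨K, hK⟩, k, z) (G (f m)) ((f m : ℝ) ^ κ)} N = 0 := by
        unfold cnt
        have e2 : {m : ℕ | 1 ≤ m ∧ m ≤ N ∧ m ∈ {m : ℕ | ¬ OkI F (⟨K, hK⟩, k, z) (G (f m)) ((f m : ℝ) ^ κ)}} = ∅ := by
          ext m
          constructor
          · rintro ⟨_, _, h3⟩
            exact absurd (fun [NumberField K] h => absurd h hk) h3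
          · intro h
            exact absurd h (Set.notMem_empty m)
        rw [e2, Set.ncard_empty]
      rw [e, Nat.cast_zero]
      exact div_nonneg (Nat.cast_nonneg _) (pow_nonneg (Real.log_natCast_nonneg N) _))
  refine ⟨R, hR, fun K hK k hk z hz => ?_⟩
  obtain ⟨m₀, hm₀⟩ := h (⟨K, hK.to_finiteDimensional⟩, k, ⟨z, hz⟩)
  refine ⟨m₀, fun m hm hmR => of_idx K k hk z hz ?_⟩
  by_contra hcon
  exact hmR (hm₀ m hm hcon)

/-- Orbits of Euler's function. -/
theorem orbit (F : SympFam X n) (hX : Fintype.card X = 1) {Z : Set ℂ} (hZ : Z.Countable) {f : ℕ → ℕ} (hf : LM f)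
    {G : ℕ → ℝ} {d : ℝ} (hG : Expanding G d) {κ : ℝ} (hκ : 0 ≤ κ) (hκ1 : κ < 1) :
    ∃ (M : Set ℕ) (J : ℕ → ℕ), AlmostAll (fun m => m ∈ M) ∧ Filter.Tendsto J Filter.atTop Filter.atTop ∧
      ∀ (K : IntermediateField ℚ ℂ) [NumberField K] (k : ℕ), Module.finrank ℚ K ≤ k → ∀ z ∈ Z, ∃ m₀ : ℕ, ∀ m : ℕ,
        m₀ ≤ m → m ∈ M → ∀ j ≤ J m, Ok F K k z (G (orb f j m)) ((orb f j m : ℝ) ^ κ) := by
  classical
  have := countable_idx hZ
  obtain ⟨M, J, hM, hJ, h⟩ := steps (ι := Idx Z)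
    (fun p j m => OkI F p (G (orb f j m)) ((orb f j m : ℝ) ^ κ)) (by
    rintro ⟨⟨K, hK⟩, k, z⟩ j
    have hNF : NumberField K := { to_charZero := inferInstance, to_finiteDimensional := hK }
    by_cases hk : Module.finrank ℚ K ≤ k
    · obtain ⟨J, hJ, hA⟩ := orbit_good (T := K)
        (fun x => (fun _ : X => (x : ℂ)) ∈ InnerM F.U k)
        (fun x => Good F k K (algebraMap K ℂ) (height K x) (z : ℂ) (fun _ => (x : ℂ)))
        (fun x => height K x) hf hG (s := 0) (κ := κ) le_rfl hκ (by rw [mul_zero, zero_add]; exact hκ1)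
        (fun ε hε => by
          obtain ⟨C, hC⟩ := count F hX k K hk (algebraMap K ℂ) z hε
          refine ⟨C, fun Y hY => ?_⟩
          rw [zero_add]
          exact hC Y hY)
      obtain ⟨m₀, hm₀⟩ := Filter.eventually_atTop.1 (hJ.eventually_ge_atTop j)
      refine almostAll_mono (almostAll_and hA (almostAll_ev (P := fun m => j ≤ J m) m₀ hm₀)) (fun m hm => ?_)
      intro _ _ x hx hx2
      exact hm.1 j hm.2 x hx hx2
    · exact almostAll_ev 0 (fun m _ => fun [NumberField K] h => absurd h hk))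
  refine ⟨M, J, hM, hJ, fun K hK k hk z hz => ?_⟩
  obtain ⟨m₀, hm₀⟩ := h (⟨K, hK.to_finiteDimensional⟩, k, ⟨z, hz⟩)
  exact ⟨m₀, fun m hm hmM j hj => of_idx K k hk z hz (hm₀ m hm hmM j hj)⟩

/-- Functions dominated by the largest prime factor. -/
theorem addi (F : SympFam X n) (hX : Fintype.card X = 1) {Z : Set ℂ} (hZ : Z.Countable) (fs : List (ℕ → ℕ))
    (hfs : ∀ f ∈ fs, PD f) {G : ℕ → ℝ} {d : ℝ} (hG : Expanding G d) {κ : ℝ} (hκ : 0 ≤ κ) (hκ1 : κ < 1) :
    ∃ R : Set ℕ, (∀ γ : ℝ, 0 < γ → γ < (1 : ℝ) / (fs.length + 1) → ∃ N₀ : ℕ, ∀ N : ℕ, N₀ ≤ N →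
        (cnt R N : ℝ) ≤ N * Real.exp (-(Real.log N ^ γ))) ∧
      ∀ (K : IntermediateField ℚ ℂ) [NumberField K] (k : ℕ), Module.finrank ℚ K ≤ k → ∀ z ∈ Z, ∃ m₀ : ℕ, ∀ m : ℕ,
        m₀ ≤ m → m ∉ R → Ok F K k z (G (comp fs m)) ((comp fs m : ℝ) ^ κ) := by
  classical
  have := countable_idx hZ
  obtain ⟨R, hR, h⟩ := expC (ι := Idx Z) (β := (1 : ℝ) / (fs.length + 1)) (by positivity)
    (fun p => {m : ℕ | ¬ OkI F p (G (comp fs m)) ((comp fs m : ℝ) ^ κ)}) (by
    rintro ⟨⟨K, hK⟩, k, z⟩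
    have hNF : NumberField K := { to_charZero := inferInstance, to_finiteDimensional := hK }
    by_cases hk : Module.finrank ℚ K ≤ k
    · obtain ⟨c, C, hc, hC⟩ := good (T := K)
        (fun x => (fun _ : X => (x : ℂ)) ∈ InnerM F.U k)
        (fun x => Good F k K (algebraMap K ℂ) (height K x) (z : ℂ) (fun _ => (x : ℂ)))
        (fun x => height K x) fs hfs hG (s := 0) (κ := κ) le_rfl hκ (by rw [mul_zero, zero_add]; exact hκ1)
        (fun ε hε => by
          obtain ⟨C, hC⟩ := count F hX k K hk (algebraMap K ℂ) z hε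
          refine ⟨C, fun Y hY => ?_⟩
          rw [zero_add]
          exact hC Y hY)
      refine ⟨c, C, hc, fun N hN => le_trans (Nat.cast_le.2 (Set.ncard_le_ncard ?_ ?_)) (hC N hN)⟩
      · rintro m ⟨h1, h2, h3⟩
        refine ⟨h1, h2, fun h4 => h3 ?_⟩
        intro _ _ x hx hx2
        exact h4 x hx hx2
      · apply (Set.finite_Icc 1 N).subset
        rintro m ⟨h1, h2, _⟩
        exact ⟨h1, h2⟩
    · refine ⟨1, 0, one_pos, fun N _ => ?_⟩
      have e : cnt {m : ℕ | ¬ OkI F (⟨K, hK⟩, k, z) (G (comp fs m)) ((comp fs m : ℝ) ^ κ)} N = 0 := by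
        unfold cnt
        have e2 : {m : ℕ | 1 ≤ m ∧ m ≤ N ∧
            m ∈ {m : ℕ | ¬ OkI F (⟨K, hK⟩, k, z) (G (comp fs m)) ((comp fs m : ℝ) ^ κ)}} = ∅ := by
          ext m
          constructor
          · rintro ⟨_, _, h3⟩
            exact absurd (fun [NumberField K] h => absurd h hk) h3
          · intro h
            exact absurd h (Set.notMem_empty m)
        rw [e2, Set.ncard_empty]
      rw [e, Nat.cast_zero, zero_mul, zero_mul])
  refine ⟨R, hR, fun K hK k hk z hz => ?_⟩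
  obtain ⟨m₀, hm₀⟩ := h (⟨K, hK.to_finiteDimensional⟩, k, ⟨z, hz⟩)
  refine ⟨m₀, fun m hm hmR => of_idx K k hk z hz ?_⟩
  by_contra hcon
  exact hmR (hm₀ m hm hcon)

/-- Starshaped sequences. -/
theorem star (F : SympFam X n) (hX : Fintype.card X = 1) {Z : Set ℂ} (hZ : Z.Countable) {f : ℕ → ℝ → ℝ} {a τ θ : ℝ}
    (hf : Starshaped a f) (hτ : 0 ≤ τ) (hv : Conv a f τ) (hθ : θ < 1) :
    ∃ E : Set ℝ, dimH E ≤ ENNReal.ofReal (τ / (1 - θ)) ∧ ∀ u : ℝ, a < u → u ∉ E →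
      ∀ (K : IntermediateField ℚ ℂ) [NumberField K] (k : ℕ), Module.finrank ℚ K ≤ k → ∀ z ∈ Z, ∀ c : ℝ, ∃ j₀ : ℕ,
        ∀ j : ℕ, j₀ ≤ j → Ok F K k z (f j u) (c * (f j u) ^ θ) := by
  classical
  have := countable_idx hZ
  have key : ∀ p : Idx Z, ∃ E : Set ℝ, dimH E ≤ ENNReal.ofReal (τ / (1 - θ)) ∧ ∀ u : ℝ, a < u → u ∉ E → ∀ c : ℝ,
      ∃ j₀ : ℕ, ∀ j : ℕ, j₀ ≤ j → OkI F p (f j u) (c * (f j u) ^ θ) := by
    rintro ⟨⟨K, hK⟩, k, z⟩
    have hNF : NumberField K := { to_charZero := inferInstance, to_finiteDimensional := hK }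
    by_cases hk : Module.finrank ℚ K ≤ k
    · obtain ⟨E, hE, h⟩ := windows (T := K) {x : K | (fun _ : X => (x : ℂ)) ∈ InnerM F.U k ∧
          ¬ Good F k K (algebraMap K ℂ) (height K x) (z : ℂ) (fun _ => (x : ℂ))} (fun x => height K x) hf hτ hv
          (s := 0) le_rfl hθ
        (fun ε hε => by
          obtain ⟨C, hC⟩ := count F hX k K hk (algebraMap K ℂ) z hε
          refine ⟨C, fun Y hY => ?_⟩
          rw [zero_add]
          exact hC Y hY)
      rw [zero_add] at hE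
      refine ⟨E, hE, fun u hu huE c => ?_⟩
      obtain ⟨j₀, hj₀⟩ := h u hu huE c
      refine ⟨j₀, fun j hj => ?_⟩
      intro _ _ x hx hx2
      by_contra hcon
      exact absurd hx2 (not_le.2 (hj₀ j hj x ⟨hx, hcon⟩))
    · exact ⟨∅, by simp, fun u _ _ c => ⟨0, fun j _ => fun [NumberField K] h => absurd h hk⟩⟩
  choose E hE hE2 using key
  refine ⟨⋃ p, E p, ?_, fun u hu huE K hK k hk z hz c => ?_⟩
  · rw [dimH_iUnion]
    exact iSup_le hE
  · obtain ⟨j₀, hj₀⟩ := hE2 (⟨K, hK.to_finiteDimensional⟩, k, ⟨z, hz⟩) u hu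
      (fun h => huE (Set.mem_iUnion.2 ⟨_, h⟩)) c
    exact ⟨j₀, fun j hj => of_idx K k hk z hz (hj₀ j hj)⟩

end Pool.Agent.V7H10.HP
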