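import Pool.Agent.V7H10.HP
import Pool.Agent.Results.MP_725b61_nt.SimultaneousApproximations

set_option autoImplicit false

/-! `e`, `1 / π`, Euler's constant and the periods of the members of a family with heights in a window (helper10). -/

open NumberField

namespace Pool.Agent.V7H10.HP7

open Pool.Agent Pool.Agent.Y890.MV Pool.Agent.Y890.SM Pool.Agent.R349.PC
open Pool.Agent.N603.DB (height)
open Pool.Agent.Results.MP_725b61_nt.SimultaneousApproximations (Value NontrivialValue)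
open Pool.Agent.V7H10.HP (Ok)

variable {X : Type} [Fintype X] [DecidableEq X] [Nonempty X] {ι : Type} [Fintype ι] [DecidableEq ι]
  {n : ι → ℕ}

/-- For EVERY member of the family over a point of the number field `K` in `InnerM F.U k` with a height within `r` of `c`:
`1 / π` is not a value at the periods, and `e` and `γ` are not nontrivial values, for the degree `k` and coefficients of
height at most `(height x) ^ k` -/
def Free3 (F : SympFam X n) (K : IntermediateField ℚ ℂ) [NumberField K] (k : ℕ) (c r : ℝ) : Prop :=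
  ∀ x : K, (fun _ : X => (x : ℂ)) ∈ InnerM F.U k → |height K x - c| ≤ r →
    ¬ Value F k K (algebraMap K ℂ) (height K x) ((1 / Real.pi : ℝ) : ℂ) (fun _ => (x : ℂ)) ∧
    ¬ NontrivialValue F k K (algebraMap K ℂ) (height K x) ((Real.exp 1 : ℝ) : ℂ) (fun _ => (x : ℂ)) ∧
    ¬ NontrivialValue F k K (algebraMap K ℂ) (height K x) ((Real.eulerMascheroniConstant : ℝ) : ℂ) (fun _ => (x : ℂ))

/-- The same for one number `z`: it is not a nontrivial value -/
def FreeZ (F : SympFam X n) (K : IntermediateField ℚ ℂ) [NumberField K] (k : ℕ) (z : ℂ) (c r : ℝ) : Prop :=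
  ∀ x : K, (fun _ : X => (x : ℂ)) ∈ InnerM F.U k → |height K x - c| ≤ r →
    ¬ NontrivialValue F k K (algebraMap K ℂ) (height K x) z (fun _ => (x : ℂ))

theorem freeZ_of_ok {F : SympFam X n} {K : IntermediateField ℚ ℂ} [NumberField K] {k : ℕ} {z : ℂ} (hz0 : z ≠ 0) {c r : ℝ}
    (h : Ok F K k z c r) : FreeZ F K k z c r := by
  intro x hx hx2
  have hgood := h x hx hx2
  rintro ⟨q, c, h5, h6, h7, h8, h9⟩
  rcases h9 with ⟨Y, hY, h10⟩ | h9
  · exact h10 (hgood.1 q c h6 h7 h8 Y hY)
  · exact hgood.2.1 hz0 q c h5 h6 h7 h9 h8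

theorem e_ne : ((Real.exp 1 : ℝ) : ℂ) ≠ 0 := by exact_mod_cast (Real.exp_pos 1).ne'

theorem gamma_ne : ((Real.eulerMascheroniConstant : ℝ) : ℂ) ≠ 0 := by
  have := Real.one_half_lt_eulerMascheroniConstant
  have h0 : Real.eulerMascheroniConstant ≠ 0 := by
    intro h0
    rw [h0] at this
    norm_num at this
  exact_mod_cast h0

theorem free3_of_ok {F : SympFam X n} {K : IntermediateField ℚ ℂ} [NumberField K] {k : ℕ} {c r : ℝ}
    (h : Ok F K k ((Real.exp 1 : ℝ) : ℂ) c r) (h' : Ok F K k ((Real.eulerMascheroniConstant : ℝ) : ℂ) c r) :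
    Free3 F K k c r := by
  intro x hx hx2
  refine ⟨?_, freeZ_of_ok e_ne h x hx hx2, freeZ_of_ok gamma_ne h' x hx hx2⟩
  have hgood := h x hx hx2
  rintro ⟨q, c, h5, h6, h7, h8⟩
  refine hgood.2.2.1 q c h5 h6 h7 ?_
  rw [← h8]
  push_cast
  rw [one_div]

/-- the numbers `e` and `γ` are added to `Z` -/
abbrev Zp (Z : Set ℂ) : Set ℂ := Z ∪ {((Real.exp 1 : ℝ) : ℂ), ((Real.eulerMascheroniConstant : ℝ) : ℂ)}

theorem countable_Zp {Z : Set ℂ} (hZ : Z.Countable) : (Zp Z).Countable :=
  hZ.union ((Set.finite_singleton _).insert _).countable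

theorem e_mem (Z : Set ℂ) : ((Real.exp 1 : ℝ) : ℂ) ∈ Zp Z := Or.inr (Or.inl rfl)

theorem gamma_mem (Z : Set ℂ) : ((Real.eulerMascheroniConstant : ℝ) : ℂ) ∈ Zp Z := Or.inr (Or.inr rfl)

end Pool.Agent.V7H10.HP7
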