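import Pool.Agent.V7H10.KE

set_option autoImplicit false

/-! Countably many thin sets of objects with heights, with different exponents (helper10). -/

namespace Pool.Agent.V7H10.KE

open Pool.Agent.N733.TG (LM Expanding keep_windows)
open Pool.Agent.N760.IT (orb orbit_windows)
open Pool.Agent.N826.IT.Orb (AlmostAll almostAll_mono almostAll_and)
open Pool.Agent.N375.AV (PD comp)
open Pool.Agent.V7H10.Diag (cnt logC expC steps almostAll_ev)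

variable {I : Type*} [Countable I] {T : I → Type} (S : ∀ i, Set (T i)) (h : ∀ i, T i → ℝ) {s : I → ℝ}

/-- Multiplicative functions. -/
theorem mult2 (hs : ∀ i, 0 ≤ s i) (hS : ∀ i, ThinH (S i) (h i) (s i)) {f : ℕ → ℕ} (hf : LM f)
    {G : ℕ → ℝ} {b : ℝ} (hG : Expanding G b) {κ : ℝ} (hκ : 0 ≤ κ) (h1 : ∀ i, b * s i + κ < 1) :
    ∃ R : Set ℕ, (∀ A : ℕ, ∃ N₀ : ℕ, ∀ N : ℕ, N₀ ≤ N → (cnt R N : ℝ) ≤ N / Real.log N ^ A) ∧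
      ∀ i, ∃ m₀ : ℕ, ∀ m : ℕ, m₀ ≤ m → m ∉ R → ∀ t : T i, |h i t - G (f m)| ≤ (f m : ℝ) ^ κ → t ∉ S i := by
  obtain ⟨R, hR, h2⟩ := logC (fun i => {m : ℕ | ∃ t ∈ S i, |h i t - G (f m)| ≤ (f m : ℝ) ^ κ}) (by
    intro i A
    exact keep_windows (S i) (h i) hf hG (hs i) hκ (h1 i) (hS i) A)
  refine ⟨R, hR, fun i => ?_⟩
  obtain ⟨m₀, hm₀⟩ := h2 i
  exact ⟨m₀, fun m hm hmR t ht htS => hmR (hm₀ m hm ⟨t, htS, ht⟩)⟩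

/-- Orbits of Euler's function. -/
theorem orbit2 (hs : ∀ i, 0 ≤ s i) (hS : ∀ i, ThinH (S i) (h i) (s i)) {f : ℕ → ℕ} (hf : LM f)
    {G : ℕ → ℝ} {b : ℝ} (hG : Expanding G b) {κ : ℝ} (hκ : 0 ≤ κ) (h1 : ∀ i, b * s i + κ < 1) :
    ∃ (M : Set ℕ) (J : ℕ → ℕ), AlmostAll (fun m => m ∈ M) ∧ Filter.Tendsto J Filter.atTop Filter.atTop ∧
      ∀ i, ∃ m₀ : ℕ, ∀ m : ℕ, m₀ ≤ m → m ∈ M → ∀ j ≤ J m, ∀ t : T i,
        |h i t - G (orb f j m)| ≤ (orb f j m : ℝ) ^ κ → t ∉ S i := by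
  obtain ⟨M, J, hM, hJ, h2⟩ := steps
    (fun i j m => ∀ t : T i, |h i t - G (orb f j m)| ≤ (orb f j m : ℝ) ^ κ → t ∉ S i) (by
    intro i j
    obtain ⟨J, hJ, hA⟩ := orbit_windows (S i) (h i) hf hG (hs i) hκ (h1 i) (hS i)
    obtain ⟨m₀, hm₀⟩ := Filter.eventually_atTop.1 (hJ.eventually_ge_atTop j)
    exact almostAll_mono (almostAll_and hA (almostAll_ev (P := fun m => j ≤ J m) m₀ hm₀))
      (fun m hm q hq hqS => hm.1 j hm.2 q hqS hq))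
  exact ⟨M, J, hM, hJ, h2⟩

/-- Functions dominated by the largest prime factor. -/
theorem addi2 (hs : ∀ i, 0 ≤ s i) (hS : ∀ i, ThinH (S i) (h i) (s i)) (fs : List (ℕ → ℕ)) (hfs : ∀ f ∈ fs, PD f)
    {G : ℕ → ℝ} {b : ℝ} (hG : Expanding G b) {κ : ℝ} (hκ : 0 ≤ κ) (h1 : ∀ i, b * s i + κ < 1) :
    ∃ R : Set ℕ, (∀ γ : ℝ, 0 < γ → γ < (1 : ℝ) / (fs.length + 1) → ∃ N₀ : ℕ, ∀ N : ℕ, N₀ ≤ N →
        (cnt R N : ℝ) ≤ N * Real.exp (-(Real.log N ^ γ))) ∧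
      ∀ i, ∃ m₀ : ℕ, ∀ m : ℕ, m₀ ≤ m → m ∉ R → ∀ t : T i,
        |h i t - G (comp fs m)| ≤ (comp fs m : ℝ) ^ κ → t ∉ S i := by
  obtain ⟨R, hR, h2⟩ := expC (β := (1 : ℝ) / (fs.length + 1)) (by positivity)
    (fun i => {m : ℕ | ∃ t ∈ S i, |h i t - G (comp fs m)| ≤ (comp fs m : ℝ) ^ κ}) (by
    intro i
    exact Pool.Agent.N375.AV.windows (S i) (h i) fs hfs hG (hs i) hκ (h1 i) (hS i))
  refine ⟨R, hR, fun i => ?_⟩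
  obtain ⟨m₀, hm₀⟩ := h2 i
  exact ⟨m₀, fun m hm hmR t ht htS => hmR (hm₀ m hm ⟨t, htS, ht⟩)⟩

/-- Denominators of good simultaneous approximations. -/
theorem approx2 (hs : ∀ i, 0 ≤ s i) (hS : ∀ i, ThinH (S i) (h i) (s i)) {G : ℕ → ℝ} {b B : ℝ}
    (hG : Pool.Agent.N671.DA.Expanding G b) (hB : ∀ i, b * s i ≤ B)
    {κ : ℝ} (hκ : 0 ≤ κ) (hκ1 : κ ≤ 1) {m : ℕ} (β : Fin m → ℝ) {τ : ℝ} (hτ : 0 < τ) :
    ∃ E : Set (Fin m → ℝ), dimH E ≤ ENNReal.ofReal ((m + (B + κ)) / (1 + τ)) ∧ ∀ α, α ∉ E → ∀ i, ∀ C : ℝ,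
      ∃ Q : ℕ, ∀ q : ℕ, Q ≤ q → Pool.Agent.N671.DA.Solves α β q (C * (q : ℝ) ^ (-τ)) →
        ∀ t : T i, |h i t - G q| ≤ (q : ℝ) ^ κ → t ∉ S i := by
  choose E hE h2 using fun i => Pool.Agent.N671.DA.approx_windows (S i) (h i) hG (hs i) hκ hκ1 (hS i) β hτ
  refine ⟨⋃ i, E i, ?_, fun α hα i C => ?_⟩
  · rw [dimH_iUnion]
    refine iSup_le fun i => (hE i).trans (ENNReal.ofReal_le_ofReal ?_)
    have h3 := hB i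
    exact div_le_div_of_nonneg_right (by linarith) (by linarith)
  · obtain ⟨Q, hQ⟩ := h2 i α (fun hh => hα (Set.mem_iUnion.2 ⟨i, hh⟩)) C
    exact ⟨Q, fun q hq hs t ht htS => hQ q hq hs t htS ht⟩

end Pool.Agent.V7H10.KE
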