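import Pool.Agent.Results.MP_79b4ff_gt.KnotoidTwist

set_option autoImplicit false

/-! Knotoid diagrams on a template whose normalised bracket has small span (helper10). -/

namespace Pool.Agent.V7H10.KN

open Pool.Agent.H891R2.Jones Pool.Agent.H891R2.MT Pool.Agent.H832R3.TW

lemma mono {P : Type} {s t : ℕ} (h : s ≤ t) {D : Diagram P} (hD : FSpanLE s D) : FSpanLE t D := by
  obtain ⟨lo, hlo⟩ := hD
  refine ⟨lo, fun j hj => ?_⟩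
  obtain ⟨h1, h2⟩ := hlo j hj
  exact ⟨h1, by omega⟩

/-- the twist vectors `n` such that some knotoid diagram on the twisted arcs of `n` has a normalised bracket supported in
an interval of length `4 s`, `s ≤ z` -/
def Bad {k : ℕ} (arcs : List (Corner k × Corner k)) (z : ℝ) (n : Fin k → ℤ) : Prop :=
  ∃ (s : ℕ) (D : Diagram (Ribbon.Pt n)), (s : ℝ) ≤ z ∧ Orients D (twisted arcs n) ∧ IsKnotoid D ∧ FSpanLE s D

lemma bad_mono {k : ℕ} {arcs : List (Corner k × Corner k)} {z z' : ℝ} (h : z ≤ z') {n : Fin k → ℤ} (hn : Bad arcs z n) :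
    Bad arcs z' n := by
  obtain ⟨s, D, h1, h2⟩ := hn
  exact ⟨s, D, h1.trans h, h2⟩

lemma finite_box (k : ℕ) (X : ℕ) : {n : Fin k → ℤ | ∀ e, |n e| ≤ (X : ℤ)}.Finite := by
  refine (Set.Finite.pi' (fun _ : Fin k => Set.finite_Icc (-(X : ℤ)) X)).subset ?_
  intro n hn e
  exact abs_le.1 (hn e)

/-- the number of the bad vectors -/
theorem count {k : ℕ} (hk : 1 ≤ k) (arcs : List (Corner k × Corner k)) (hN : ¬ Nugatory arcs) {σ : ℝ} (hσ : 0 ≤ σ) (X : ℕ)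
    (hX : 1 ≤ X) :
    (({n : Fin k → ℤ | (∀ e, |n e| ≤ (X : ℤ)) ∧ Bad arcs ((X : ℝ) ^ σ) n}.ncard : ℕ) : ℝ) ≤
      3 ^ k * (8 * k + 5) * 3 ^ (k - 1) * (X : ℝ) ^ ((k : ℝ) - (1 - σ)) := by
  have hX1 : (1 : ℝ) ≤ X := by exact_mod_cast hX
  have hX0 : (0 : ℝ) < X := by linarith
  obtain ⟨s, hs⟩ : ∃ s : ℕ, s = ⌊(X : ℝ) ^ σ⌋₊ := ⟨_, rfl⟩
  have hs1 : (s : ℝ) ≤ (X : ℝ) ^ σ := by rw [hs]; exact Nat.floor_le (by positivity)
  have hXσ : (1 : ℝ) ≤ (X : ℝ) ^ σ := Real.one_le_rpow hX1 hσ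
  have h1 := (Pool.Agent.Results.MP_79b4ff_gt.KnotoidTwist.result k arcs hN s).2 X
  have hsub : {n : Fin k → ℤ | (∀ e, |n e| ≤ (X : ℤ)) ∧ Bad arcs ((X : ℝ) ^ σ) n} ⊆
      {n : Fin k → ℤ | (∀ e, |n e| ≤ (X : ℤ)) ∧ ∃ D : Diagram (Ribbon.Pt n),
        Orients D (twisted arcs n) ∧ IsKnotoid D ∧ FSpanLE s D} := by
    rintro n ⟨h2, t, D, ht, h3, h4, h5⟩
    refine ⟨h2, D, h3, h4, mono ?_ h5⟩
    rw [hs]
    exact Nat.le_floor ht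
  have h2 := (Set.ncard_le_ncard hsub ((finite_box k X).subset fun n hn => hn.1)).trans h1
  have h3 : (({n : Fin k → ℤ | (∀ e, |n e| ≤ (X : ℤ)) ∧ Bad arcs ((X : ℝ) ^ σ) n}.ncard : ℕ) : ℝ) ≤
      3 ^ k * (8 * k + 2 * s + 3) * (2 * (X : ℝ) + 1) ^ (k - 1) := by exact_mod_cast h2
  refine h3.trans ?_
  calc (3 : ℝ) ^ k * (8 * k + 2 * s + 3) * (2 * (X : ℝ) + 1) ^ (k - 1)
      ≤ 3 ^ k * ((8 * k + 5) * (X : ℝ) ^ σ) * (3 * (X : ℝ)) ^ (k - 1) := by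
        gcongr
        · have : (0 : ℝ) ≤ k := Nat.cast_nonneg k
          nlinarith
        · linarith
    _ = 3 ^ k * (8 * k + 5) * 3 ^ (k - 1) * (X : ℝ) ^ ((k : ℝ) - (1 - σ)) := by
        have e : (X : ℝ) ^ ((k : ℝ) - (1 - σ)) = (X : ℝ) ^ ((k : ℝ) - 1) * (X : ℝ) ^ σ := by
          rw [← Real.rpow_add hX0]
          congr 1
          ring
        rw [e, mul_pow, ← Real.rpow_natCast (X : ℝ) (k - 1), Nat.cast_sub hk, Nat.cast_one]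
        ring

/-- the absolute values of the bad vectors -/
theorem count_abs {k : ℕ} (hk : 1 ≤ k) (arcs : List (Corner k × Corner k)) (hN : ¬ Nugatory arcs) {σ : ℝ} (hσ : 0 ≤ σ)
    (X : ℕ) (hX : 1 ≤ X) {z : ℝ} (hz : z ≤ (X : ℝ) ^ σ) :
    {w : Fin k → ℕ | w ∈ {w : Fin k → ℕ | ∃ n : Fin k → ℤ, (∀ e, (n e).natAbs = w e) ∧ Bad arcs z n} ∧
      ∀ i, w i ≤ X}.Finite ∧
    (({w : Fin k → ℕ | w ∈ {w : Fin k → ℕ | ∃ n : Fin k → ℤ, (∀ e, (n e).natAbs = w e) ∧ Bad arcs z n} ∧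
      ∀ i, w i ≤ X}.ncard : ℕ) : ℝ) ≤
      3 ^ k * (8 * k + 5) * 3 ^ (k - 1) * (X : ℝ) ^ ((k : ℝ) - (1 - σ)) := by
  have hsub : {w : Fin k → ℕ | w ∈ {w : Fin k → ℕ | ∃ n : Fin k → ℤ, (∀ e, (n e).natAbs = w e) ∧ Bad arcs z n} ∧
      ∀ i, w i ≤ X} ⊆ (fun n e => (n e).natAbs) ''
        {n : Fin k → ℤ | (∀ e, |n e| ≤ (X : ℤ)) ∧ Bad arcs ((X : ℝ) ^ σ) n} := by
    rintro w ⟨⟨n, h1, h2⟩, h3⟩
    refine ⟨n, ⟨fun e => ?_, bad_mono hz h2⟩, funext h1⟩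
    have := h3 e
    rw [← h1 e] at this
    rw [Int.abs_eq_natAbs]
    exact_mod_cast this
  have hfin : {n : Fin k → ℤ | (∀ e, |n e| ≤ (X : ℤ)) ∧ Bad arcs ((X : ℝ) ^ σ) n}.Finite :=
    (finite_box k X).subset fun n hn => hn.1
  refine ⟨(hfin.image _).subset hsub, ?_⟩
  refine le_trans ?_ (count hk arcs hN hσ X hX)
  exact_mod_cast (Set.ncard_le_ncard hsub (hfin.image _)).trans (Set.ncard_image_le hfin)

end Pool.Agent.V7H10.KN
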