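import Pool.Agent.V7H10.VT
import Pool.Agent.V7H10.KE
import Pool.Agent.Results.MP_2000e9_nt.ArgumentsNearValues

set_option autoImplicit false

/-! Multiple zeta values of one weight: the exceptional arguments for all patterns (helper10). -/

namespace Pool.Agent.V7H10.MZ

open Pool.Agent.N671.DA (Near Thin)
open Pool.Agent.N760.SC (BadTuples count_scales count_one)
open Pool.Agent.R482.ST (Starshaped Conv large)
open Pool.Agent.V7H10.KE (ThinH)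
open Pool.Agent.Results.MP_2000e9_nt
open Pool.Agent.Results.MP_2000e9_nt.PatternsOfOneWeight (Letter exceptional)
open Pool.Agent.Results.MP_2000e9_nt.ArgumentsNearValues (OneWeight NoRelation mono pow_bound exceptional_eq bounded)

/-- patterns, a bound for the coefficients, the ratio of the coordinates -/
abbrev Idx (k : ℕ) : Type := (Σ r : ℕ, Fin r → List (Letter k)) × ℕ × ℕ

/-- the exceptional tuples -/
def Bad {k : ℕ} (p : Idx k) : Set (Fin k → ℕ) :=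
  {s | OneWeight p.1.2 ∧ s ∈ BadTuples p.2.2 (fun T s => ¬ NoRelation p.1.2 ((p.2.1 : ℝ) ^ T) s)}

theorem thin {k : ℕ} (hk : 1 ≤ k) (p : Idx k) :
    Thin {q : Fin k → ℤ | (fun i => (q i).natAbs) ∈ Bad p} ((k : ℝ) - 1) := by
  have hk1 : (1 : ℝ) ≤ k := by exact_mod_cast hk
  refine VT.thin_abs (Bad p) (by linarith) (fun ε hε => ?_)
  obtain ⟨⟨r, w⟩, C, κ⟩ := p
  by_cases hw : OneWeight w
  · obtain ⟨K, hK⟩ := PatternsOfOneWeight.result w hw.1 hw.2.1 hw.2.2.1 hw.2.2.2 (2 * κ)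
    obtain ⟨N₁, hN₁⟩ := hK ((max |(C : ℝ)| 1) ^ 2)
    obtain ⟨C₀, hC₀, h⟩ := count_scales hk κ (fun T s => ¬ NoRelation w ((C : ℝ) ^ T) s)
      (fun N s => ¬ NoRelation w (((max |(C : ℝ)| 1) ^ 2) ^ N) s)
      (fun N T s h1 h2 h3 h4 => h3 (mono w (pow_bound C h2.le) s h4))
      ⟨K, N₁, fun N hN => by
        rw [exceptional_eq]
        exact hN₁ N hN⟩ ε hε
    refine ⟨C₀, hC₀, fun X hX => le_trans (Nat.cast_le.2 (Set.ncard_le_ncard ?_ ?_)) (h X hX)⟩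
    · rintro s ⟨⟨_, h2⟩, h3⟩
      exact ⟨h2, h3⟩
    · refine (Set.Finite.pi' (t := fun _ : Fin k => Set.Iic X) fun _ => Set.finite_Iic _).subset ?_
      intro s hs j
      exact hs.2 j
  · refine ⟨0, le_rfl, fun X _ => ?_⟩
    have e : {s : Fin k → ℕ | s ∈ Bad (⟨⟨r, w⟩, C, κ⟩ : Idx k) ∧ ∀ i, s i ≤ X} = ∅ := by
      ext s
      simp only [Set.mem_ofPred_eq, Set.mem_empty_iff_false, iff_false]
      rintro ⟨h1, _⟩
      exact hw h1.1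
    rw [e, Set.ncard_empty]
    simp

/-- tuples with comparable coordinates -/
theorem noRelation {k : ℕ} (hk : 1 ≤ k) {r : ℕ} {w : Fin r → List (Letter k)} (hw : OneWeight w) (C : ℝ) (κ : ℕ)
    (s : Fin k → ℕ) (hs : ∀ i, 1 ≤ s i) (hc : ∀ i j, s i ≤ κ * s j)
    (h : s ∉ Bad (⟨⟨r, w⟩, ⌈(max |C| 1) ^ (k * κ)⌉₊, κ⟩ : Idx k)) : NoRelation w (C ^ (∑ i, s i)) s := by
  have : Nonempty (Fin k) := ⟨⟨0, hk⟩⟩
  obtain ⟨i₀, hi₀⟩ := Finite.exists_min s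
  have h1 : NoRelation w (((⌈(max |C| 1) ^ (k * κ)⌉₊ : ℕ) : ℝ) ^ (s i₀)) s := by
    by_contra hcon
    exact h ⟨hw, s i₀, hs i₀, fun j => ⟨hi₀ j, hc j i₀⟩, hcon⟩
  refine mono w ?_ _ h1
  have h5 : (1 : ℝ) ≤ max |C| 1 := le_max_right _ _
  have h6 : ∑ i, s i ≤ (k * κ) * s i₀ := by
    calc ∑ i, s i ≤ ∑ _i : Fin k, κ * s i₀ := Finset.sum_le_sum fun i _ => hc i i₀
      _ = (k * κ) * s i₀ := by rw [Finset.sum_const, Finset.card_univ, Fintype.card_fin, smul_eq_mul, mul_assoc]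
  calc C ^ (∑ i, s i) ≤ |C ^ (∑ i, s i)| := le_abs_self _
    _ = |C| ^ (∑ i, s i) := abs_pow C _
    _ ≤ (max |C| 1) ^ (∑ i, s i) := pow_le_pow_left₀ (abs_nonneg C) (le_max_left _ _) _
    _ ≤ (max |C| 1) ^ ((k * κ) * s i₀) := pow_le_pow_right₀ h5 h6
    _ = ((max |C| 1) ^ (k * κ)) ^ s i₀ := pow_mul _ _ _
    _ ≤ _ := pow_le_pow_left₀ (by positivity) (Nat.le_ceil _) _

/-- **Near radial starshaped sequences.** -/
theorem star {k : ℕ} (hk : 1 ≤ k) {f : ℕ → ℝ → ℝ} {a τ θ : ℝ} (hf : Starshaped a f) (hτ : 0 ≤ τ) (hv : Conv a f τ)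
    (hθ : θ < 1) : ∃ E : Set (Fin k → ℝ), dimH E ≤ ENNReal.ofReal (((k : ℝ) - 1 + τ) / (1 - θ)) ∧
      ∀ u : Fin k → ℝ, a < ‖u‖ → (∀ i, 0 < u i) → u ∉ E → ∀ (r : ℕ) (w : Fin r → List (Letter k)), OneWeight w →
        ∀ C c : ℝ, ∃ j₀ : ℕ, ∀ j : ℕ, j₀ ≤ j → ∀ s : Fin k → ℕ,
          (∀ i, |(s i : ℝ) - f j ‖u‖ / ‖u‖ * u i| ≤ c * (f j ‖u‖) ^ θ) → NoRelation w (C ^ (∑ i, s i)) s := by
  have hk1 : (1 : ℝ) ≤ k := by exact_mod_cast hk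
  have hne : Nonempty (Fin k) := ⟨⟨0, hk⟩⟩
  obtain ⟨E, hE, h⟩ := VT.star (fun p : Idx k => {q : Fin k → ℤ | (fun i => (q i).natAbs) ∈ Bad p}) (s := (k : ℝ) - 1)
    (by linarith) (thin hk) hf hτ hv hθ
  refine ⟨E, hE, fun u hu hpos huE r w hw C c => ?_⟩
  have hu0 : 0 < ‖u‖ := lt_of_le_of_lt hf.1 hu
  obtain ⟨i₁, hi₁⟩ := Finite.exists_min u
  obtain ⟨δ, hδ⟩ : ∃ δ : ℝ, δ = u i₁ / ‖u‖ := ⟨_, rfl⟩
  have hδ0 : 0 < δ := by rw [hδ]; exact div_pos (hpos i₁) hu0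
  obtain ⟨κ, hκ⟩ := exists_nat_ge (4 / δ)
  obtain ⟨j₁, hj₁⟩ := h u hu huE (⟨⟨r, w⟩, ⌈(max |C| 1) ^ (k * κ)⌉₊, κ⟩ : Idx k) c
  -- `f j ‖u‖` is large
  have hfp : ∀ n, 0 < f n ‖u‖ := fun n => (hf.2 n ‖u‖ ‖u‖ hu le_rfl).1
  have hlarge := fun M => large hfp (show (0 : ℝ) < τ + 1 by linarith) (hv ‖u‖ hu (τ + 1) (by linarith)) M
  obtain ⟨M, hM⟩ : ∃ M : ℝ, ∀ x : ℝ, M ≤ x → 0 < x → |c| * x ^ θ ≤ δ / 2 * x ∧ 2 ≤ δ * x := by
    obtain ⟨M₁, hM₁⟩ : ∃ M₁ : ℝ, M₁ = (|c| * 2 / δ + 1) ^ (1 / (1 - θ)) := ⟨_, rfl⟩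
    refine ⟨max M₁ (2 / δ), fun x hx hx0 => ⟨?_, ?_⟩⟩
    · have h1θ : 0 < 1 - θ := by linarith
      have hb : 0 < |c| * 2 / δ + 1 := by positivity
      have h1 : |c| * 2 / δ + 1 ≤ x ^ (1 - θ) := by
        calc |c| * 2 / δ + 1 = ((|c| * 2 / δ + 1) ^ (1 / (1 - θ))) ^ (1 - θ) := by
              rw [← Real.rpow_mul hb.le, one_div_mul_cancel h1θ.ne', Real.rpow_one]
          _ = M₁ ^ (1 - θ) := by rw [hM₁]
          _ ≤ x ^ (1 - θ) := Real.rpow_le_rpow (by rw [hM₁]; positivity) ((le_max_left _ _).trans hx) h1θ.le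
      have h2 : x = x ^ (1 - θ) * x ^ θ := by
        rw [← Real.rpow_add hx0]
        simp
      have h3 : 0 < x ^ θ := Real.rpow_pos_of_pos hx0 _
      have h4 : (|c| * 2 / δ) * x ^ θ ≤ x := by
        calc (|c| * 2 / δ) * x ^ θ ≤ x ^ (1 - θ) * x ^ θ := mul_le_mul_of_nonneg_right (by linarith) h3.le
          _ = x := h2.symm
      calc |c| * x ^ θ = δ / 2 * ((|c| * 2 / δ) * x ^ θ) := by field_simp
        _ ≤ δ / 2 * x := mul_le_mul_of_nonneg_left h4 (by positivity)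
    · have h1 := (le_max_right M₁ (2 / δ)).trans hx
      rw [div_le_iff₀ hδ0] at h1
      linarith
  obtain ⟨j₂, hj₂⟩ := Filter.eventually_atTop.1 (hlarge M)
  refine ⟨max j₁ j₂, fun j hj s hs => ?_⟩
  have hj1 := (le_max_left j₁ j₂).trans hj
  have hj2 := (le_max_right j₁ j₂).trans hj
  obtain ⟨x, hx⟩ : ∃ x, x = f j ‖u‖ := ⟨_, rfl⟩
  have hx0 : 0 < x := by rw [hx]; exact hfp j
  obtain ⟨g1, g2⟩ := hM x (by rw [hx]; exact hj₂ j hj2) hx0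
  have hlow : ∀ i, δ / 2 * x ≤ s i := by
    intro i
    have h1 := (abs_le.1 (hs i)).1
    rw [← hx] at h1
    have h2 : δ * x ≤ x / ‖u‖ * u i := by
      rw [hδ]
      have := hi₁ i
      calc u i₁ / ‖u‖ * x = x / ‖u‖ * u i₁ := by ring
        _ ≤ x / ‖u‖ * u i := mul_le_mul_of_nonneg_left this (by positivity)
    have h3 : c * x ^ θ ≤ |c| * x ^ θ := mul_le_mul_of_nonneg_right (le_abs_self c) (Real.rpow_nonneg hx0.le _)
    linarith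
  have hδ1 : δ ≤ 1 := by
    rw [hδ, div_le_one hu0]
    exact (le_abs_self _).trans (norm_le_pi_norm u i₁)
  have hup : ∀ i, (s i : ℝ) ≤ 2 * x := by
    intro i
    have h1 := (abs_le.1 (hs i)).2
    rw [← hx] at h1
    have h2 : x / ‖u‖ * u i ≤ x := by
      have h3 : u i ≤ ‖u‖ := (le_abs_self _).trans (norm_le_pi_norm u i)
      calc x / ‖u‖ * u i ≤ x / ‖u‖ * ‖u‖ := mul_le_mul_of_nonneg_left h3 (by positivity)
        _ = x := by field_simp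
    have h3 : c * x ^ θ ≤ |c| * x ^ θ := mul_le_mul_of_nonneg_right (le_abs_self c) (Real.rpow_nonneg hx0.le _)
    nlinarith
  have hs1 : ∀ i, 1 ≤ s i := by
    intro i
    have h1 := hlow i
    have h2 : (1 : ℝ) ≤ s i := by linarith
    exact_mod_cast h2
  refine noRelation hk hw C κ s hs1 (fun i l => ?_) ?_
  · have h1 : (s i : ℝ) ≤ κ * s l := by
      calc (s i : ℝ) ≤ 2 * x := hup i
        _ = 4 / δ * (δ / 2 * x) := by field_simp; ring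
        _ ≤ κ * (s l) := mul_le_mul hκ (hlow l) (by positivity) (Nat.cast_nonneg _)
    exact_mod_cast h1
  · have h1 := hj₁ j hj1 (fun i => (s i : ℤ)) (fun i => by exact_mod_cast hs i)
    simpa only [Set.mem_ofPred_eq, Int.natAbs_natCast] using h1

/-- **Good approximations.** -/
theorem approx {k : ℕ} (hk : 1 ≤ k) {m : ℕ} (β : Fin m → ℝ) {τ : ℝ} (hτ : 0 < τ) :
    ∃ E : Set (Fin k × Fin m → ℝ), dimH E ≤ ENNReal.ofReal (((k : ℝ) - 1) * m + (m + ((k : ℝ) - 1)) / (1 + τ)) ∧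
      ∀ α, α ∉ E → ∀ (r : ℕ) (w : Fin r → List (Letter k)), OneWeight w → ∀ (C c : ℝ) (κ : ℕ), ∃ Q : ℝ,
        ∀ q : Fin k → ℤ, Q ≤ ‖q‖ → (∀ i, ‖q‖ ≤ κ * |(q i : ℝ)|) → Near α β q (c * ‖q‖ ^ (-τ)) →
          NoRelation w (C ^ (∑ i, (q i).natAbs)) (fun i => (q i).natAbs) := by
  have hk1 : (1 : ℝ) ≤ k := by exact_mod_cast hk
  obtain ⟨E, hE, h⟩ := VT.approx hk (fun p : Idx k => {q : Fin k → ℤ | (fun i => (q i).natAbs) ∈ Bad p})
    (s := (k : ℝ) - 1) (by linarith) (thin hk) β hτ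
  refine ⟨E, hE, fun α hα r w hw C c κ => ?_⟩
  obtain ⟨Q, hQ⟩ := h α hα (⟨⟨r, w⟩, ⌈(max |C| 1) ^ (k * κ)⌉₊, κ⟩ : Idx k) c
  refine ⟨max Q 1, fun q hq hc hn => ?_⟩
  have hq1 : 1 ≤ ‖q‖ := (le_max_right _ _).trans hq
  have habs : ∀ i, (((q i).natAbs : ℕ) : ℝ) = |(q i : ℝ)| := fun i => by rw [Nat.cast_natAbs, Int.cast_abs]
  refine noRelation hk hw C κ _ (fun i => ?_) (fun i l => ?_) (hQ q ((le_max_left _ _).trans hq) hn)
  · have h1 := hc i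
    rw [← habs] at h1
    by_contra hcon
    have h2 : (q i).natAbs = 0 := by omega
    rw [h2] at h1
    simp only [Nat.cast_zero, mul_zero] at h1
    linarith
  · have h1 : (((q i).natAbs : ℕ) : ℝ) ≤ κ * (((q l).natAbs : ℕ) : ℝ) := by
      rw [habs, habs]
      refine le_trans ?_ (hc l)
      have h2 := norm_le_pi_norm q i
      rwa [Int.norm_eq_abs] at h2
    exact_mod_cast h1

/-- patterns and a bound for the coefficients, one variable -/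
abbrev Data : Type := (Σ r : ℕ, Fin r → List (Letter 1)) × ℕ

/-- the exceptional arguments -/
def Bad1 (p : Data) : Set ℕ := {s | 1 ≤ s ∧ (OneWeight p.1.2 ∧ ¬ NoRelation p.1.2 ((p.2 : ℝ) ^ s) (fun _ : Fin 1 => s))}

theorem thin1 (p : Data) : ThinH (Bad1 p) (fun s : ℕ => (s : ℝ)) 0 := by
  intro ε hε
  obtain ⟨⟨r, w⟩, C⟩ := p
  obtain ⟨C₀, _, h⟩ := count_one (fun s => OneWeight w ∧ ¬ NoRelation w ((C : ℝ) ^ s) (fun _ : Fin 1 => s)) (by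
    by_cases hw : OneWeight w
    · obtain ⟨K, N₀, h1⟩ := bounded w hw (C : ℝ)
      refine ⟨K, N₀, fun N hN => le_trans (Set.ncard_le_ncard ?_ ?_) (h1 N hN)⟩
      · rintro s ⟨g1, g2, g3⟩
        exact ⟨g1, g2, g3.2⟩
      · exact (Set.finite_Icc N (2 * N)).subset (fun s hs => ⟨hs.1, hs.2.1⟩)
    · refine ⟨0, 0, fun N _ => ?_⟩
      have : {s : ℕ | N ≤ s ∧ s ≤ 2 * N ∧ OneWeight w ∧ ¬ NoRelation w ((C : ℝ) ^ s) (fun _ : Fin 1 => s)} = ∅ := by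
        ext s
        simp only [Set.mem_ofPred_eq, Set.mem_empty_iff_false, iff_false]
        rintro ⟨-, -, h1⟩
        exact hw h1.1
      rw [this, Set.ncard_empty]) ε hε
  refine ⟨C₀, fun X hX => ?_⟩
  obtain ⟨h1, h2⟩ := h X hX
  rw [zero_add]
  exact ⟨h1, h2⟩

theorem noRelation1 {r : ℕ} {w : Fin r → List (Letter 1)} (hw : OneWeight w) (C : ℝ) (s : ℕ) (hs : 1 ≤ s)
    (h : s ∉ Bad1 (⟨⟨r, w⟩, ⌈|C|⌉₊⟩ : Data)) : NoRelation w (C ^ s) (fun _ : Fin 1 => s) := by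
  have h1 : NoRelation w (((⌈|C|⌉₊ : ℕ) : ℝ) ^ s) (fun _ : Fin 1 => s) := by
    by_contra hcon
    exact h ⟨hs, hw, hcon⟩
  refine mono w ?_ _ h1
  calc C ^ s ≤ |C ^ s| := le_abs_self _
    _ = |C| ^ s := abs_pow C s
    _ ≤ _ := pow_le_pow_left₀ (abs_nonneg C) (Nat.le_ceil _) s

end Pool.Agent.V7H10.MZ
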