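import Pool.Agent.V7H10.VT
import Pool.Agent.Y722.ST.Nagao

set_option autoImplicit false

/-! Nagao's averages for the members of families of fibrations: the exceptional members (helper10). -/

namespace Pool.Agent.V7H10.NG

open Finset Pool.Agent.Y722.HS Pool.Agent.Y722.ST
open Pool.Agent.N671.DA (Thin thin_of_nat)

variable {n m : ℕ}

/-- Nagao's averages of the member `c`: for all sets `R` of primes `p < p₀` and divisors of `P(c)` and all `T` between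
`‖c‖ ^ ε` and `(‖c‖ / 8) ^ (1/4)` the sum of `(𝔄_p(c) + r) log p` over the primes `p < T` outside `R` is at most
`T ^ (1/2 + δ)` in absolute value. -/
def Tau (F₀ : MvPolynomial (Fin (m + 1)) ℤ) (h : Fin n → MvPolynomial (Fin (m + 1)) ℤ) (r : ℝ) (p₀ : ℕ)
    (P : MvPolynomial (Fin n) ℤ) (δ ε : ℝ) (c : Fin n → ℤ) : Prop :=
  ∀ R : Set ℕ, (∀ p ∈ R, p₀ ≤ p → (p : ℤ) ∣ MvPolynomial.eval c P) → ∀ T : ℕ, 2 ≤ T → ‖c‖ ^ ε ≤ (T : ℝ) →
    8 * (T : ℝ) ^ 4 ≤ ‖c‖ → |nag F₀ h r R c T| ≤ (T : ℝ) ^ (1 / 2 + δ)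

/-- the hypotheses of the starting theorem `HyperellipticSystems` -/
structure Hyp (F₀ : MvPolynomial (Fin (m + 1)) ℤ) (h : Fin n → MvPolynomial (Fin (m + 1)) ℤ) (r : ℝ) (p₀ : ℕ)
    (P : MvPolynomial (Fin n) ℤ) : Prop where
  pos : 1 ≤ m
  sep : ∀ p : ℕ, p.Prime → p₀ ≤ p → Sep2 h p
  bs : ∃ C₀ : ℝ, ∀ p : ℕ, p.Prime → p₀ ≤ p → |bsum F₀ h p - r * (p : ℝ) ^ m| ≤ C₀ * ((p : ℝ) ^ m / Real.sqrt p)
  ne : P ≠ 0

lemma log6 {δ : ℝ} (hδ : 0 < δ) {T : ℝ} (hT : 2 ≤ T) : Real.log T ^ 6 ≤ (6 / δ) ^ 6 * T ^ δ := by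
  have hT0 : 0 ≤ T := by linarith
  have h1 : Real.log T ≤ T ^ (δ / 6) / (δ / 6) := Real.log_le_rpow_div hT0 (by positivity)
  have h2 : 0 ≤ Real.log T := Real.log_nonneg (by linarith)
  calc Real.log T ^ 6 ≤ (T ^ (δ / 6) / (δ / 6)) ^ 6 := pow_le_pow_left₀ h2 h1 6
    _ = (6 / δ) ^ 6 * (T ^ (δ / 6)) ^ 6 := by
        field_simp
    _ = (6 / δ) ^ 6 * T ^ δ := by
        rw [← Real.rpow_natCast (T ^ (δ / 6)) 6, ← Real.rpow_mul hT0]
        congr 2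
        push_cast
        ring

lemma norm_le_iff {c : Fin n → ℤ} {X : ℝ} (hX : 0 ≤ X) : ‖c‖ ≤ X ↔ ∀ i, |(c i : ℝ)| ≤ X := by
  rw [pi_norm_le_iff_of_nonneg hX]
  exact forall_congr' fun i => by rw [Int.norm_eq_abs]

lemma card_box' (X : ℕ) : ((box (Fin n) X).card : ℝ) = (2 * (X : ℝ) + 1) ^ n := by
  unfold Pool.Agent.Y722.HS.box IH
  rw [Fintype.card_piFinset]
  simp only [Int.card_Icc, prod_const, card_univ, Fintype.card_fin]
  have e : ((X : ℤ) + 1 - -(X : ℤ)).toNat = 2 * X + 1 := by omega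
  rw [e]
  push_cast
  ring

lemma mem_box' {X : ℕ} {c : Fin n → ℤ} : c ∈ box (Fin n) X ↔ ∀ i, |c i| ≤ (X : ℤ) := by
  unfold Pool.Agent.Y722.HS.box IH
  rw [Fintype.mem_piFinset]
  exact forall_congr' fun i => by rw [Finset.mem_Icc, abs_le]

/-- few members are exceptional -/
theorem count (hn : 1 ≤ n) {F₀ : MvPolynomial (Fin (m + 1)) ℤ} {h : Fin n → MvPolynomial (Fin (m + 1)) ℤ} {r : ℝ}
    {p₀ : ℕ} {P : MvPolynomial (Fin n) ℤ} (H : Hyp F₀ h r p₀ P) {δ ε : ℝ} (hδ : 0 < δ) (hε : 0 < ε) :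
    ∃ C : ℝ, 0 ≤ C ∧ ∀ X : ℕ, 1 ≤ X →
      (({c : Fin n → ℤ | (∀ i, |c i| ≤ (X : ℤ)) ∧ ¬ Tau F₀ h r p₀ P δ ε c}.ncard : ℕ) : ℝ) ≤
        C * (X : ℝ) ^ ((n : ℝ) - min (δ * ε / 2) (1 / 2)) := by
  classical
  obtain ⟨C₀, hC₀⟩ := H.bs
  obtain ⟨C, hC⟩ := nagao (ι := Fin n) H.pos F₀ h p₀ r C₀ H.sep hC₀ P H.ne
  have hn1 : (1 : ℝ) ≤ n := by exact_mod_cast hn
  obtain ⟨η, hη⟩ : ∃ η : ℝ, η = min (δ * ε / 2) (1 / 2) := ⟨_, rfl⟩
  rw [← hη]
  have hη1 : η ≤ 1 / 2 := by rw [hη]; exact min_le_right _ _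
  have hη2 : η ≤ δ * ε / 2 := by rw [hη]; exact min_le_left _ _
  obtain ⟨K, hK⟩ : ∃ K : ℝ, K = |C| * 3 ^ n * (6 / δ) ^ 6 := ⟨_, rfl⟩
  have hK0 : 0 ≤ K := by rw [hK]; positivity
  refine ⟨257 ^ n + (3 ^ n + K), by positivity, fun X hX => ?_⟩
  have hX1 : (1 : ℝ) ≤ X := by exact_mod_cast hX
  have hX0 : (0 : ℝ) < X := by linarith
  have hpow : (1 : ℝ) ≤ (X : ℝ) ^ ((n : ℝ) - η) := Real.one_le_rpow hX1 (by linarith)
  have hfinbox : {c : Fin n → ℤ | ∀ i, |c i| ≤ (X : ℤ)}.Finite := by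
    refine (Finset.finite_toSet (box (Fin n) X)).subset ?_
    intro c hc
    rw [Finset.mem_coe, mem_box']
    exact hc
  by_cases hX128 : X < 128
  · have h1 : (({c : Fin n → ℤ | (∀ i, |c i| ≤ (X : ℤ)) ∧ ¬ Tau F₀ h r p₀ P δ ε c}.ncard : ℕ) : ℝ) ≤ 257 ^ n := by
      have h2 : {c : Fin n → ℤ | (∀ i, |c i| ≤ (X : ℤ)) ∧ ¬ Tau F₀ h r p₀ P δ ε c} ⊆ (box (Fin n) X : Set (Fin n → ℤ)) := by
        intro c hc
        rw [Finset.mem_coe, mem_box']
        exact hc.1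
      have h3 := Set.ncard_le_ncard h2 (Finset.finite_toSet _)
      rw [Set.ncard_coe_finset] at h3
      calc _ ≤ ((box (Fin n) X).card : ℝ) := by exact_mod_cast h3
        _ = (2 * (X : ℝ) + 1) ^ n := card_box' X
        _ ≤ 257 ^ n := by
            apply pow_le_pow_left₀ (by positivity)
            have : (X : ℝ) ≤ 128 := by exact_mod_cast hX128.le
            linarith
    calc _ ≤ (257 : ℝ) ^ n * 1 := by rw [mul_one]; exact h1
      _ ≤ (257 ^ n + (3 ^ n + K)) * (X : ℝ) ^ ((n : ℝ) - η) := by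
          apply mul_le_mul _ hpow (by norm_num) (by positivity)
          have : (0 : ℝ) ≤ 3 ^ n := by positivity
          linarith
  · push Not at hX128
    obtain ⟨Y, hY⟩ : ∃ Y : ℕ, Y = ⌊Real.sqrt X⌋₊ := ⟨_, rfl⟩
    have hsq : Real.sqrt X ≤ X := by
      rw [Real.sqrt_le_left (by linarith)]
      nlinarith
    have hsq1 : 1 ≤ Real.sqrt X := by
      rw [show (1 : ℝ) = Real.sqrt 1 by simp]
      exact Real.sqrt_le_sqrt hX1
    -- the small members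
    obtain ⟨B, hB⟩ : ∃ B : Finset (Fin n → ℤ), B = (box (Fin n) X).filter
      (fun c => ¬ Tau F₀ h r p₀ P δ ε c ∧ Real.sqrt X < ‖c‖) := ⟨_, rfl⟩
    have hsub : {c : Fin n → ℤ | (∀ i, |c i| ≤ (X : ℤ)) ∧ ¬ Tau F₀ h r p₀ P δ ε c} ⊆
        ((box (Fin n) Y ∪ B : Finset (Fin n → ℤ)) : Set (Fin n → ℤ)) := by
      rintro c ⟨h1, h2⟩
      rw [Finset.mem_coe, Finset.mem_union]
      by_cases h3 : ‖c‖ ≤ Real.sqrt X
      · left
        rw [mem_box']
        intro i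
        have h4 := (norm_le_iff (Real.sqrt_nonneg _)).1 h3 i
        have h5 : ((c i).natAbs : ℝ) ≤ Real.sqrt X := by
          rw [Nat.cast_natAbs, Int.cast_abs]
          exact h4
        have h6 : (c i).natAbs ≤ Y := by
          rw [hY]
          exact Nat.le_floor h5
        rw [Int.abs_eq_natAbs]
        exact_mod_cast h6
      · right
        push Not at h3
        rw [hB, Finset.mem_filter, mem_box']
        exact ⟨h1, h2, h3⟩
    have hcard1 : ((box (Fin n) Y).card : ℝ) ≤ 3 ^ n * (X : ℝ) ^ ((n : ℝ) - η) := by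
      rw [card_box']
      have h1 : (Y : ℝ) ≤ Real.sqrt X := by
        rw [hY]
        exact Nat.floor_le (Real.sqrt_nonneg _)
      calc (2 * (Y : ℝ) + 1) ^ n ≤ (3 * Real.sqrt X) ^ n := pow_le_pow_left₀ (by positivity) (by linarith) n
        _ = 3 ^ n * (Real.sqrt X) ^ n := mul_pow _ _ _
        _ = 3 ^ n * (X : ℝ) ^ ((n : ℝ) / 2) := by
            rw [Real.sqrt_eq_rpow, ← Real.rpow_natCast ((X : ℝ) ^ (1 / 2 : ℝ)) n, ← Real.rpow_mul hX0.le]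
            congr 2
            ring
        _ ≤ 3 ^ n * (X : ℝ) ^ ((n : ℝ) - η) := by
            apply mul_le_mul_of_nonneg_left _ (by positivity)
            exact Real.rpow_le_rpow_of_exponent_le hX1 (by linarith)
    -- the large members
    have hchoice : ∀ c : Fin n → ℤ, ∃ q : Set ℕ × ℕ, (2 ≤ q.2 ∧ 8 * q.2 ^ 4 ≤ X) ∧
        (∀ p ∈ q.1, p₀ ≤ p → (p : ℤ) ∣ MvPolynomial.eval c P) ∧
        (c ∈ B → ‖c‖ ^ ε ≤ (q.2 : ℝ) ∧ (q.2 : ℝ) ^ (1 / 2 + δ) < |nag F₀ h r q.1 c q.2|) := by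
      intro c
      by_cases hc : c ∈ B
      · have hc' := hc
        rw [hB, Finset.mem_filter, mem_box'] at hc'
        obtain ⟨h1, h2, h3⟩ := hc'
        unfold Tau at h2
        push Not at h2
        obtain ⟨R, h4, T, h5, h6, h7, h8⟩ := h2
        have h9 : ‖c‖ ≤ X := (norm_le_iff hX0.le).2 fun i => by exact_mod_cast h1 i
        exact ⟨(R, T), ⟨h5, by exact_mod_cast h7.trans h9⟩, h4, fun _ => ⟨h6, h8⟩⟩
      · exact ⟨(∅, 2), ⟨le_rfl, by norm_num; omega⟩, fun p hp => absurd hp (Set.notMem_empty p), fun h => absurd h hc⟩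
    choose q hq1 hq2 hq3 using hchoice
    have hsum := hC X (fun c => (q c).2) (fun c => (q c).1) hq1 hq2
    have hlow : ∀ c ∈ B, (δ / 6) ^ 6 * (X : ℝ) ^ (δ * ε / 2) ≤
        nag F₀ h r (q c).1 c (q c).2 ^ 2 / ((q c).2 * Real.log (q c).2 ^ 6) := by
      intro c hc
      obtain ⟨h1, h2⟩ := hq3 c hc
      have hT2 : (2 : ℝ) ≤ ((q c).2 : ℝ) := by exact_mod_cast (hq1 c).1
      have hT0 : (0 : ℝ) < ((q c).2 : ℝ) := by linarith
      have hlog : 0 < Real.log (q c).2 := Real.log_pos (by linarith)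
      have h3 : Real.sqrt X < ‖c‖ := by
        rw [hB, Finset.mem_filter] at hc
        exact hc.2.2
      have h4 : (X : ℝ) ^ (ε / 2) ≤ ((q c).2 : ℝ) := by
        calc (X : ℝ) ^ (ε / 2) = (Real.sqrt X) ^ ε := by
              rw [Real.sqrt_eq_rpow, ← Real.rpow_mul hX0.le]
              congr 1
              ring
          _ ≤ ‖c‖ ^ ε := Real.rpow_le_rpow (Real.sqrt_nonneg _) h3.le hε.le
          _ ≤ _ := h1
      have h5 : (X : ℝ) ^ (δ * ε / 2) ≤ ((q c).2 : ℝ) ^ δ := by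
        calc (X : ℝ) ^ (δ * ε / 2) = ((X : ℝ) ^ (ε / 2)) ^ δ := by
              rw [← Real.rpow_mul hX0.le]
              congr 1
              ring
          _ ≤ _ := Real.rpow_le_rpow (by positivity) h4 hδ.le
      have h6 : ((q c).2 : ℝ) * ((q c).2 : ℝ) ^ (2 * δ) ≤ nag F₀ h r (q c).1 c (q c).2 ^ 2 := by
        have e : ((q c).2 : ℝ) * ((q c).2 : ℝ) ^ (2 * δ) = (((q c).2 : ℝ) ^ (1 / 2 + δ)) ^ 2 := by
          rw [← Real.rpow_natCast (((q c).2 : ℝ) ^ (1 / 2 + δ)) 2, ← Real.rpow_mul hT0.le]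
          conv_lhs => rw [show ((q c).2 : ℝ) * ((q c).2 : ℝ) ^ (2 * δ) = ((q c).2 : ℝ) ^ (1 : ℝ) * ((q c).2 : ℝ) ^ (2 * δ) by
            rw [Real.rpow_one]]
          rw [← Real.rpow_add hT0]
          congr 1
          push_cast
          ring
        rw [e, ← sq_abs (nag F₀ h r (q c).1 c (q c).2)]
        exact pow_le_pow_left₀ (by positivity) h2.le 2
      have h7 := log6 hδ hT2
      rw [le_div_iff₀ (by positivity)]
      have e2 : ((q c).2 : ℝ) ^ (2 * δ) = ((q c).2 : ℝ) ^ δ * ((q c).2 : ℝ) ^ δ := by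
        rw [← Real.rpow_add hT0]
        congr 1
        ring
      calc (δ / 6) ^ 6 * (X : ℝ) ^ (δ * ε / 2) * (((q c).2 : ℝ) * Real.log (q c).2 ^ 6)
          ≤ (δ / 6) ^ 6 * ((q c).2 : ℝ) ^ δ * (((q c).2 : ℝ) * ((6 / δ) ^ 6 * ((q c).2 : ℝ) ^ δ)) := by
            apply mul_le_mul _ _ (by positivity) (by positivity)
            · exact mul_le_mul_of_nonneg_left h5 (by positivity)
            · exact mul_le_mul_of_nonneg_left h7 hT0.le
        _ = ((q c).2 : ℝ) * ((q c).2 : ℝ) ^ (2 * δ) := by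
            rw [e2]
            field_simp
        _ ≤ _ := h6
    have hBcard : (B.card : ℝ) ≤ K * (X : ℝ) ^ ((n : ℝ) - η) := by
      have h1 : (B.card : ℝ) * ((δ / 6) ^ 6 * (X : ℝ) ^ (δ * ε / 2)) ≤ |C| * (2 * (X : ℝ) + 1) ^ n := by
        calc (B.card : ℝ) * ((δ / 6) ^ 6 * (X : ℝ) ^ (δ * ε / 2))
            = ∑ _c ∈ B, (δ / 6) ^ 6 * (X : ℝ) ^ (δ * ε / 2) := by rw [sum_const, nsmul_eq_mul]
          _ ≤ ∑ c ∈ B, nag F₀ h r (q c).1 c (q c).2 ^ 2 / ((q c).2 * Real.log (q c).2 ^ 6) := sum_le_sum hlow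
          _ ≤ ∑ c ∈ box (Fin n) X, nag F₀ h r (q c).1 c (q c).2 ^ 2 / ((q c).2 * Real.log (q c).2 ^ 6) := by
              apply sum_le_sum_of_subset_of_nonneg
              · rw [hB]
                exact filter_subset _ _
              · intro c _ _
                have hT2 : (2 : ℝ) ≤ ((q c).2 : ℝ) := by exact_mod_cast (hq1 c).1
                have hlog : 0 < Real.log (q c).2 := Real.log_pos (by linarith)
                positivity
          _ ≤ C * ((box (Fin n) X).card : ℝ) := hsum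
          _ ≤ |C| * (2 * (X : ℝ) + 1) ^ n := by
              rw [card_box']
              exact mul_le_mul_of_nonneg_right (le_abs_self C) (by positivity)
      have h2 : (2 * (X : ℝ) + 1) ^ n ≤ 3 ^ n * (X : ℝ) ^ (n : ℝ) := by
        rw [Real.rpow_natCast, ← mul_pow]
        exact pow_le_pow_left₀ (by positivity) (by linarith) n
      have h3 : (X : ℝ) ^ (n : ℝ) = (X : ℝ) ^ ((n : ℝ) - δ * ε / 2) * (X : ℝ) ^ (δ * ε / 2) := by
        rw [← Real.rpow_add hX0]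
        congr 1
        ring
      have h4 : (0 : ℝ) < (X : ℝ) ^ (δ * ε / 2) := Real.rpow_pos_of_pos hX0 _
      have h5 : (B.card : ℝ) * ((δ / 6) ^ 6 * (X : ℝ) ^ (δ * ε / 2)) ≤
          (|C| * 3 ^ n * (X : ℝ) ^ ((n : ℝ) - δ * ε / 2)) * (X : ℝ) ^ (δ * ε / 2) := by
        calc _ ≤ |C| * (2 * (X : ℝ) + 1) ^ n := h1
          _ ≤ |C| * (3 ^ n * (X : ℝ) ^ (n : ℝ)) := mul_le_mul_of_nonneg_left h2 (abs_nonneg C)
          _ = _ := by rw [h3]; ring
      have h6 : (B.card : ℝ) * (δ / 6) ^ 6 ≤ |C| * 3 ^ n * (X : ℝ) ^ ((n : ℝ) - δ * ε / 2) := by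
        rw [← mul_assoc] at h5
        exact le_of_mul_le_mul_right h5 h4
      have h7 : (B.card : ℝ) = (6 / δ) ^ 6 * ((B.card : ℝ) * (δ / 6) ^ 6) := by
        field_simp
      calc (B.card : ℝ) = (6 / δ) ^ 6 * ((B.card : ℝ) * (δ / 6) ^ 6) := h7
        _ ≤ (6 / δ) ^ 6 * (|C| * 3 ^ n * (X : ℝ) ^ ((n : ℝ) - δ * ε / 2)) :=
            mul_le_mul_of_nonneg_left h6 (by positivity)
        _ = K * (X : ℝ) ^ ((n : ℝ) - δ * ε / 2) := by rw [hK]; ring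
        _ ≤ K * (X : ℝ) ^ ((n : ℝ) - η) := by
            apply mul_le_mul_of_nonneg_left _ hK0
            exact Real.rpow_le_rpow_of_exponent_le hX1 (by linarith)
    have h1 := Set.ncard_le_ncard hsub (Finset.finite_toSet _)
    rw [Set.ncard_coe_finset] at h1
    have h2 := h1.trans (Finset.card_union_le _ _)
    have h3 : (({c : Fin n → ℤ | (∀ i, |c i| ≤ (X : ℤ)) ∧ ¬ Tau F₀ h r p₀ P δ ε c}.ncard : ℕ) : ℝ) ≤
        ((box (Fin n) Y).card : ℝ) + (B.card : ℝ) := by exact_mod_cast h2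
    have h4 : 0 ≤ (257 : ℝ) ^ n * (X : ℝ) ^ ((n : ℝ) - η) := by positivity
    calc _ ≤ ((box (Fin n) Y).card : ℝ) + (B.card : ℝ) := h3
      _ ≤ 3 ^ n * (X : ℝ) ^ ((n : ℝ) - η) + K * (X : ℝ) ^ ((n : ℝ) - η) := add_le_add hcard1 hBcard
      _ ≤ _ := by linarith

/-- the constant `r` is determined by the family -/
theorem r_unique {F₀ : MvPolynomial (Fin (m + 1)) ℤ} {h : Fin n → MvPolynomial (Fin (m + 1)) ℤ} {r r' : ℝ} {p₀ : ℕ}
    {P : MvPolynomial (Fin n) ℤ} (H : Hyp F₀ h r p₀ P) (H' : Hyp F₀ h r' p₀ P) : r = r' := by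
  obtain ⟨C, hC⟩ := H.bs
  obtain ⟨C', hC'⟩ := H'.bs
  by_contra hne
  have hd : 0 < |r - r'| := abs_pos.2 (sub_ne_zero.2 hne)
  obtain ⟨A, hA⟩ := exists_nat_gt (((C + C') / |r - r'|) ^ 2)
  obtain ⟨p, hp1, hp⟩ := Nat.exists_infinite_primes (max p₀ A)
  have hp0 : (0 : ℝ) < p := by exact_mod_cast hp.pos
  have h1 := hC p hp ((le_max_left _ _).trans hp1)
  have h2 := hC' p hp ((le_max_left _ _).trans hp1)
  have hs : 0 < Real.sqrt p := Real.sqrt_pos.2 hp0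
  have hpm : (0 : ℝ) < (p : ℝ) ^ m := by positivity
  have h3 : |r - r'| * (p : ℝ) ^ m ≤ (C + C') * ((p : ℝ) ^ m / Real.sqrt p) := by
    calc |r - r'| * (p : ℝ) ^ m = |(bsum F₀ h p - r' * (p : ℝ) ^ m) - (bsum F₀ h p - r * (p : ℝ) ^ m)| := by
          rw [show (bsum F₀ h p - r' * (p : ℝ) ^ m) - (bsum F₀ h p - r * (p : ℝ) ^ m) = (r - r') * (p : ℝ) ^ m by ring,
            abs_mul, abs_of_pos hpm]
      _ ≤ |bsum F₀ h p - r' * (p : ℝ) ^ m| + |bsum F₀ h p - r * (p : ℝ) ^ m| := abs_sub _ _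
      _ ≤ C' * ((p : ℝ) ^ m / Real.sqrt p) + C * ((p : ℝ) ^ m / Real.sqrt p) := add_le_add h2 h1
      _ = _ := by ring
  have h4 : |r - r'| * Real.sqrt p ≤ C + C' := by
    rw [← mul_div_assoc, le_div_iff₀ hs] at h3
    have h5 : (|r - r'| * Real.sqrt p) * (p : ℝ) ^ m ≤ (C + C') * (p : ℝ) ^ m := by linarith
    exact le_of_mul_le_mul_right h5 hpm
  have h6 : Real.sqrt p ≤ (C + C') / |r - r'| := by
    rw [le_div_iff₀ hd]
    linarith
  have h7 : (p : ℝ) ≤ ((C + C') / |r - r'|) ^ 2 := by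
    calc (p : ℝ) = Real.sqrt p ^ 2 := (Real.sq_sqrt hp0.le).symm
      _ ≤ _ := pow_le_pow_left₀ hs.le h6 2
  have h8 : (A : ℝ) ≤ p := by exact_mod_cast (le_max_right _ _).trans hp1
  linarith

/-- the families with `n` parameters -/
abbrev Fam (n : ℕ) : Type :=
  Σ m : ℕ, MvPolynomial (Fin (m + 1)) ℤ × (Fin n → MvPolynomial (Fin (m + 1)) ℤ) × MvPolynomial (Fin n) ℤ × ℕ

instance countable_mvPoly (k : ℕ) : Countable (MvPolynomial (Fin k) ℤ) := by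
  rw [← Cardinal.mk_le_aleph0_iff]
  refine (MvPolynomial.cardinalMk_le_max).trans ?_
  simp

theorem countable_fam (n : ℕ) : Countable (Fam n) := inferInstance

/-- the exceptional members of a family -/
def Bad (δ ε : ℝ) {n : ℕ} (p : Fam n) : Set (Fin n → ℤ) :=
  {c | ∃ r : ℝ, Hyp p.2.1 p.2.2.1 r p.2.2.2.2 p.2.2.2.1 ∧ ¬ Tau p.2.1 p.2.2.1 r p.2.2.2.2 p.2.2.2.1 δ ε c}

theorem thin (hn : 1 ≤ n) {δ ε : ℝ} (hδ : 0 < δ) (hε : 0 < ε) (p : Fam n) :
    Thin (Bad δ ε p) ((n : ℝ) - min (δ * ε / 2) (1 / 2)) := by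
  have hn1 : (1 : ℝ) ≤ n := by exact_mod_cast hn
  by_cases hr : ∃ r : ℝ, Hyp p.2.1 p.2.2.1 r p.2.2.2.2 p.2.2.2.1
  · obtain ⟨r, hr⟩ := hr
    obtain ⟨C, _, hC⟩ := count hn hr hδ hε
    refine thin_of_nat (by linarith [min_le_right (δ * ε / 2) (1 / 2)]) (C₀ := C) (fun X hX => ?_)
    have e : {q : Fin n → ℤ | (∀ i, |q i| ≤ (X : ℤ)) ∧ q ∈ Bad δ ε p} =
        {c : Fin n → ℤ | (∀ i, |c i| ≤ (X : ℤ)) ∧ ¬ Tau p.2.1 p.2.2.1 r p.2.2.2.2 p.2.2.2.1 δ ε c} := by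
      ext c
      constructor
      · rintro ⟨h1, r', hr', h2⟩
        rw [r_unique hr hr']
        exact ⟨h1, h2⟩
      · rintro ⟨h1, h2⟩
        exact ⟨h1, r, hr, h2⟩
    rw [e]
    exact hC X hX
  · refine thin_of_nat (by linarith [min_le_right (δ * ε / 2) (1 / 2)]) (C₀ := 0) (fun X _ => ?_)
    have e : {q : Fin n → ℤ | (∀ i, |q i| ≤ (X : ℤ)) ∧ q ∈ Bad δ ε p} = ∅ := by
      ext c
      simp only [Set.mem_ofPred_eq, Set.mem_empty_iff_false, iff_false]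
      rintro ⟨_, r, hr', _⟩
      exact hr ⟨r, hr'⟩
    rw [e, Set.ncard_empty]
    simp

theorem tau_of {F₀ : MvPolynomial (Fin (m + 1)) ℤ} {h : Fin n → MvPolynomial (Fin (m + 1)) ℤ} {r : ℝ} {p₀ : ℕ}
    {P : MvPolynomial (Fin n) ℤ} (H : Hyp F₀ h r p₀ P) {δ ε : ℝ} {c : Fin n → ℤ}
    (hc : c ∉ Bad δ ε (⟨m, F₀, h, P, p₀⟩ : Fam n)) : Tau F₀ h r p₀ P δ ε c := by
  by_contra hcon
  exact hc ⟨r, H, hcon⟩

/-- the explicit families -/
theorem explicit {D r e k : ℕ} (hD : r + 2 ≤ D) (he : 1 ≤ e) (σ : Fin n ≃ Ex D r e k) {P : MvPolynomial (Fin n) ℤ}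
    (hP : P ≠ 0) : Hyp (Fr D r k) (fun i => hr D r e k (σ i)) r (r + 1) P where
  pos := by omega
  ne := hP
  sep := by
    intro p hp _
    have := Fact.mk hp
    intro x y hxy hx
    obtain ⟨i, hi⟩ := hx
    obtain ⟨c, h1, h2⟩ := sep_hr hD he p x y hxy ⟨σ i, hi⟩
    refine ⟨fun i => c (σ i), ?_, ?_⟩
    · rw [σ.sum_comp (fun i => c i * MvPolynomial.aeval x (hr D r e k i))]
      exact h1
    · rw [σ.sum_comp (fun i => c i * MvPolynomial.aeval y (hr D r e k i))]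
      exact h2
  bs := by
    refine ⟨r, fun p hp hge => ?_⟩
    have := Fact.mk hp
    have e0 : bsum (Fr D r k) (fun i => hr D r e k (σ i)) p = bsum (Fr D r k) (hr D r e k) p := by
      unfold bsum
      rw [dif_pos hp, dif_pos hp]
      have e1 : base (fun i => hr D r e k (σ i)) p = base (hr D r e k) p := by
        ext x
        unfold base
        simp only [Finset.mem_filter, Finset.mem_univ, true_and]
        exact σ.forall_congr_left.trans (forall_congr' fun i => by rw [Equiv.apply_symm_apply])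
      rw [e1]
    rw [e0]
    have hp0 : (0 : ℝ) < p := by exact_mod_cast hp.pos
    have hp1 : (1 : ℝ) ≤ p := by exact_mod_cast hp.one_lt.le
    rw [bsum_hr (by omega) (by omega)]
    have e1 : (r : ℝ) * (((p : ℝ) - 1) * (p : ℝ) ^ k) - r * (p : ℝ) ^ (k + 1) = -(r * (p : ℝ) ^ k) := by ring
    rw [e1, abs_neg, abs_of_nonneg (by positivity)]
    have hsp : 0 < Real.sqrt p := Real.sqrt_pos.mpr hp0
    have h1 : (p : ℝ) ^ k ≤ (p : ℝ) ^ (k + 1) / Real.sqrt p := by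
      rw [le_div_iff₀ hsp, pow_succ]
      have h2 : Real.sqrt p ≤ p := by
        rw [Real.sqrt_le_left (by linarith)]
        nlinarith
      gcongr
    gcongr

end Pool.Agent.V7H10.NG
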