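import Mathlib

set_option autoImplicit false


namespace Pool.Agent.V7H10.NestedIso

/-!
The counterexample is `d = 1`, `U = {1, 9}`.  For a finite set `A` of integers let `r` be the number
of `x ∈ A` with `x + 1 ∉ A` and `c` the number of `x ∈ A` with `x + 9 ∉ A`; the edge boundary is
`2 r + 2 c`.  If `c < 9` then `|A| ≤ r c`.  Hence an optimal set with 26 elements (boundary 20) is an
interval, and an optimal set with 16 elements (boundary 16) is not contained in an interval with
26 elements.
-/

/-- number of `x ∈ A` with `x + u ∉ A` -/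
def bd (A : Finset ℤ) (u : ℤ) : ℕ := (A.filter (fun x => x + u ∉ A)).card

theorem bd_neg (A : Finset ℤ) (u : ℤ) : bd A (-u) = bd A u := by
  unfold bd
  have h1 : (A.filter (fun x => x + -u ∉ A)).card + (A.filter (fun x => x + -u ∈ A)).card = A.card := by
    rw [add_comm]; exact Finset.card_filter_add_card_filter_not _
  have h2 : (A.filter (fun x => x + u ∉ A)).card + (A.filter (fun x => x + u ∈ A)).card = A.card := by
    rw [add_comm]; exact Finset.card_filter_add_card_filter_not _
  have h3 : (A.filter (fun x => x + -u ∈ A)).card = (A.filter (fun x => x + u ∈ A)).card := by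
    refine Finset.card_bij (fun x _ => x + -u) ?_ ?_ ?_
    · intro x hx
      rw [Finset.mem_filter] at hx ⊢
      refine ⟨hx.2, ?_⟩
      rw [neg_add_cancel_right]
      exact hx.1
    · intro x _ y _ hxy
      linarith
    · intro y hy
      rw [Finset.mem_filter] at hy
      refine ⟨y + u, ?_, by ring⟩
      rw [Finset.mem_filter]
      refine ⟨hy.2, ?_⟩
      rw [add_neg_cancel_right]
      exact hy.1
  omega

/-- every class modulo `9` which meets `A` contains an element `t ∈ A` with `t + 9 ∉ A`, `t` above -/
theorem top_exists (A : Finset ℤ) (x : ℤ) (hx : x ∈ A) :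
    ∃ k : ℕ, x + 9 * k ∈ A.filter (fun y => y + 9 ∉ A) ∧ ∀ i : ℕ, i ≤ k → x + 9 * i ∈ A := by
  classical
  by_contra hcon
  push Not at hcon
  have hall : ∀ i : ℕ, x + 9 * i ∈ A := by
    intro i
    induction i using Nat.strong_induction_on with
    | _ i ih =>
      rcases Nat.eq_zero_or_pos i with rfl | hi
      · simpa using hx
      · obtain ⟨j, rfl⟩ : ∃ j, i = j + 1 := ⟨i - 1, by omega⟩
        have hj := ih j (by omega)
        by_contra hno
        obtain ⟨i', hi', hni⟩ := hcon j (by
          rw [Finset.mem_filter]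
          refine ⟨hj, ?_⟩
          have : x + 9 * (j : ℤ) + 9 = x + 9 * ((j + 1 : ℕ) : ℤ) := by push_cast; ring
          rw [this]
          exact hno)
        exact hni (ih i' (by omega))
  have hinf : Set.Infinite (A : Set ℤ) := by
    refine Set.infinite_of_injective_forall_mem (f := fun i : ℕ => x + 9 * (i : ℤ)) ?_ hall
    intro i j hij
    have : x + 9 * (i : ℤ) = x + 9 * (j : ℤ) := hij
    omega
  exact hinf A.finite_toSet

/-- consecutive elements: at most nine of them give a lower bound for `bd A 9` -/
theorem run_le (A : Finset ℤ) (x : ℤ) (j : ℕ) (hj : j ≤ 9) (h : ∀ i : ℕ, i < j → x + i ∈ A) :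
    j ≤ bd A 9 := by
  classical
  have h1 : ∀ i : ℕ, i < j → ∃ t ∈ A.filter (fun y => y + 9 ∉ A), t % 9 = (x + i) % 9 := by
    intro i hi
    obtain ⟨k, hk, -⟩ := top_exists A (x + i) (h i hi)
    exact ⟨_, hk, by omega⟩
  unfold bd
  have h2 : ((Finset.range j).image (fun i : ℕ => (x + i) % 9)).card = j := by
    rw [Finset.card_image_of_injOn, Finset.card_range]
    intro a ha b hb hab
    have ha' : a < j := by simpa using ha
    have hb' : b < j := by simpa using hb
    have : (x + (a : ℤ)) % 9 = (x + (b : ℤ)) % 9 := hab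
    omega
  calc j = ((Finset.range j).image (fun i : ℕ => (x + i) % 9)).card := h2.symm
    _ ≤ ((A.filter (fun y => y + 9 ∉ A)).image (fun t => t % 9)).card := by
        apply Finset.card_le_card
        intro y hy
        rw [Finset.mem_image] at hy ⊢
        obtain ⟨i, hi, rfl⟩ := hy
        obtain ⟨t, ht, he⟩ := h1 i (by simpa using hi)
        exact ⟨t, ht, he⟩
    _ ≤ _ := Finset.card_image_le

/-- the end of the run that contains `x` -/
theorem run_end (A : Finset ℤ) (hc : bd A 9 < 9) (x : ℤ) (hx : x ∈ A) :
    ∃ k : ℕ, k < bd A 9 ∧ x + k ∈ A.filter (fun y => y + 1 ∉ A) := by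
  classical
  by_contra hcon
  push Not at hcon
  have hall : ∀ i : ℕ, i ≤ bd A 9 → x + i ∈ A := by
    intro i
    induction i with
    | zero => intro _; simpa using hx
    | succ i ih =>
      intro hi
      have h1 := ih (by omega)
      by_contra hno
      apply hcon i (by omega)
      rw [Finset.mem_filter]
      refine ⟨h1, ?_⟩
      have : x + (i : ℤ) + 1 = x + ((i + 1 : ℕ) : ℤ) := by push_cast; ring
      rw [this]
      exact hno
  have := run_le A x (bd A 9 + 1) (by omega) (fun i hi => hall i (by omega))
  omega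

theorem card_le (A : Finset ℤ) (hc : bd A 9 < 9) : A.card ≤ bd A 1 * bd A 9 := by
  classical
  have hsub : A ⊆ ((A.filter (fun y => y + 1 ∉ A)) ×ˢ (Finset.range (bd A 9))).image
      (fun p : ℤ × ℕ => p.1 - p.2) := by
    intro x hx
    obtain ⟨k, hk, hk2⟩ := run_end A hc x hx
    rw [Finset.mem_image]
    refine ⟨(x + k, k), ?_, by simp⟩
    rw [Finset.mem_product]
    exact ⟨hk2, by simpa using hk⟩
  calc A.card ≤ _ := Finset.card_le_card hsub
    _ ≤ _ := Finset.card_image_le
    _ = _ := by rw [Finset.card_product, Finset.card_range]; rfl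

theorem bd_one_pos (A : Finset ℤ) (hA : A.Nonempty) : 1 ≤ bd A 1 := by
  classical
  unfold bd
  rw [Nat.one_le_iff_ne_zero, ← Nat.pos_iff_ne_zero, Finset.card_pos]
  refine ⟨A.max' hA, ?_⟩
  rw [Finset.mem_filter]
  refine ⟨A.max'_mem hA, fun h => ?_⟩
  have := A.le_max' _ h
  omega

/-- an optimal set with 26 elements lies in an interval with 26 elements -/
theorem opt26 (A : Finset ℤ) (hA : A.card = 26) (hb : bd A 1 + bd A 9 ≤ 10) :
    ∃ e : ℤ, ∀ x ∈ A, e - 25 ≤ x ∧ x ≤ e := by
  classical
  have hne : A.Nonempty := by rw [← Finset.card_pos, hA]; norm_num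
  have h1 := bd_one_pos A hne
  rcases Nat.lt_or_ge (bd A 9) 9 with hc | hc
  · exfalso
    have h2 := card_le A hc
    rw [hA] at h2
    have h3 : bd A 9 ≤ 10 - bd A 1 := by omega
    have h4 : bd A 1 ≤ 10 := by omega
    have h5 : bd A 1 * bd A 9 ≤ bd A 1 * (10 - bd A 1) := Nat.mul_le_mul_left _ h3
    have h6 : bd A 1 * (10 - bd A 1) ≤ 25 := by
      generalize bd A 1 = r at h4
      interval_cases r <;> norm_num
    omega
  · have hr : bd A 1 = 1 := by omega
    unfold bd at hr
    rw [Finset.card_eq_one] at hr
    obtain ⟨e, he⟩ := hr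
    have heA : e ∈ A := by
      have : e ∈ A.filter (fun x => x + 1 ∉ A) := by rw [he]; simp
      exact (Finset.mem_filter.1 this).1
    refine ⟨e, fun x hx => ?_⟩
    have hle : x ≤ e := by
      by_contra hcon
      push Not at hcon
      -- the maximum of A is a run end
      have hm : A.max' hne ∈ A.filter (fun x => x + 1 ∉ A) := by
        rw [Finset.mem_filter]
        refine ⟨A.max'_mem hne, fun h => ?_⟩
        have := A.le_max' _ h
        omega
      rw [he, Finset.mem_singleton] at hm
      have := A.le_max' _ hx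
      omega
    refine ⟨?_, hle⟩
    -- all integers between x and e are in A
    have hall : ∀ i : ℕ, x + i ≤ e → x + i ∈ A := by
      intro i
      induction i with
      | zero => intro _; simpa using hx
      | succ i ih =>
        intro hi
        push_cast at hi
        have h7 := ih (by omega)
        by_contra hno
        have h8 : x + (i : ℤ) ∈ A.filter (fun x => x + 1 ∉ A) := by
          rw [Finset.mem_filter]
          refine ⟨h7, ?_⟩
          have : x + (i : ℤ) + 1 = x + ((i + 1 : ℕ) : ℤ) := by push_cast; ring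
          rw [this]
          exact hno
        rw [he, Finset.mem_singleton] at h8
        omega
    have hsub : Finset.Icc x e ⊆ A := by
      intro y hy
      rw [Finset.mem_Icc] at hy
      have h9 := hall (y - x).toNat (by omega)
      have : x + ((y - x).toNat : ℤ) = y := by omega
      rwa [this] at h9
    have hcard := Finset.card_le_card hsub
    rw [Int.card_Icc, hA] at hcard
    omega

/-- an optimal set with 16 elements does not lie in an interval with 26 elements -/
theorem opt16 (A : Finset ℤ) (hA : A.card = 16) (hb : bd A 1 + bd A 9 ≤ 8) (e : ℤ)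
    (he : ∀ x ∈ A, e - 25 ≤ x ∧ x ≤ e) : False := by
  classical
  have hne : A.Nonempty := by rw [← Finset.card_pos, hA]; norm_num
  have h1 := bd_one_pos A hne
  have h2 := card_le A (by omega)
  have h3 : A.card ≤ bd A 9 * 3 := by
    have hsub : A ⊆ ((A.filter (fun y => y + 9 ∉ A)) ×ˢ (Finset.range 3)).image
        (fun p : ℤ × ℕ => p.1 - 9 * p.2) := by
      intro x hx
      obtain ⟨k, hk, hk2⟩ := top_exists A x hx
      have hk3 : k < 3 := by
        by_contra hcon
        have h4 := he _ (hk2 3 (by omega))
        have h5 := he _ hx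
        push_cast at h4
        omega
      rw [Finset.mem_image]
      refine ⟨(x + 9 * k, k), ?_, by simp⟩
      rw [Finset.mem_product]
      exact ⟨hk, by simpa using hk3⟩
    calc A.card ≤ _ := Finset.card_le_card hsub
      _ ≤ _ := Finset.card_image_le
      _ = _ := by rw [Finset.card_product, Finset.card_range]; rfl
  rw [hA] at h2 h3
  have h4 : 6 ≤ bd A 9 := by omega
  have h5 : bd A 1 ≤ 2 := by omega
  have h6 : bd A 9 ≤ 8 - bd A 1 := by omega
  have h7 : bd A 1 * bd A 9 ≤ bd A 1 * (8 - bd A 1) := Nat.mul_le_mul_left _ h6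
  have h8 : bd A 1 * (8 - bd A 1) ≤ 12 := by
    generalize bd A 1 = r at h5
    interval_cases r <;> norm_num
  omega

/-! ### Transfer to functions on `Fin 1` -/

/-- the constant function -/
def cst (x : ℤ) : Fin 1 → ℤ := fun _ => x

theorem cst_inj : Function.Injective cst := fun x y h => congrFun h 0

theorem cst_apply (v : Fin 1 → ℤ) : cst (v 0) = v := by
  funext i
  rw [Subsingleton.elim i 0]
  rfl

/-- the generating set -/
def U : Finset (Fin 1 → ℤ) := {cst 1, cst 9}

theorem U_sym : U ∪ U.image (fun u => -u) = ({1, 9, -1, -9} : Finset ℤ).image cst := by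
  decide

theorem boundary_eq (A : Finset ℤ) :
    (((A.image cst) ×ˢ (U ∪ U.image (fun u => -u))).filter
      (fun p => p.1 + p.2 ∉ A.image cst)).card = 2 * bd A 1 + 2 * bd A 9 := by
  classical
  have hmem : ∀ x u : ℤ, (cst x + cst u ∉ A.image cst) ↔ (x + u ∉ A) := by
    intro x u
    rw [not_iff_not, Finset.mem_image]
    constructor
    · rintro ⟨a, ha, he⟩
      have := congrFun he 0
      have h2 : a = x + u := this
      rwa [← h2]
    · intro h
      exact ⟨x + u, h, rfl⟩
  rw [U_sym]
  have e1 : (((A.image cst) ×ˢ (({1, 9, -1, -9} : Finset ℤ).image cst)).filter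
      (fun p => p.1 + p.2 ∉ A.image cst)).card =
      ((A ×ˢ ({1, 9, -1, -9} : Finset ℤ)).filter (fun p => p.1 + p.2 ∉ A)).card := by
    symm
    refine Finset.card_bij (fun p _ => (cst p.1, cst p.2)) ?_ ?_ ?_
    · intro p hp
      rw [Finset.mem_filter, Finset.mem_product] at hp ⊢
      refine ⟨⟨Finset.mem_image_of_mem _ hp.1.1, Finset.mem_image_of_mem _ hp.1.2⟩, ?_⟩
      exact (hmem _ _).2 hp.2
    · intro p _ p' _ h
      rw [Prod.mk.injEq] at h
      exact Prod.ext (cst_inj h.1) (cst_inj h.2)
    · rintro ⟨v, w⟩ hp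
      rw [Finset.mem_filter, Finset.mem_product] at hp
      obtain ⟨⟨h1, h2⟩, h3⟩ := hp
      obtain ⟨x, hx, rfl⟩ := Finset.mem_image.1 h1
      obtain ⟨u, hu, rfl⟩ := Finset.mem_image.1 h2
      refine ⟨(x, u), ?_, rfl⟩
      rw [Finset.mem_filter, Finset.mem_product]
      exact ⟨⟨hx, hu⟩, (hmem _ _).1 h3⟩
  rw [e1, Finset.card_filter, Finset.sum_product_right]
  have e2 : ∀ u : ℤ, (∑ x ∈ A, if x + u ∉ A then 1 else 0) = bd A u := by
    intro u
    rw [← Finset.card_filter]
    rfl
  simp only [e2]
  rw [Finset.sum_insert (by decide), Finset.sum_insert (by decide), Finset.sum_insert (by decide),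
    Finset.sum_singleton, bd_neg A 1, bd_neg A 9]
  ring

/-- The negation of the preceding statement: For every d ≥ 1 and finite generating set U of ℤ^d not containing 0, some enumeration of ℤ^d has every initial segment of size n with edge boundary in the Cayley graph at most that of any n-element set. -/
theorem not_nested :
    ¬ (∀ d : ℕ, 1 ≤ d → ∀ U : Finset (Fin d → ℤ), (0 : Fin d → ℤ) ∉ U →
      AddSubgroup.closure (U : Set (Fin d → ℤ)) = ⊤ →
      ∃ e : ℕ ≃ (Fin d → ℤ), ∀ n : ℕ, 1 ≤ n → ∀ S : Finset (Fin d → ℤ), S.card = n →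
        ((((Finset.range n).image ⇑e) ×ˢ (U ∪ U.image (fun u => -u))).filter
            (fun p => p.1 + p.2 ∉ (Finset.range n).image ⇑e)).card ≤
        ((S ×ˢ (U ∪ U.image (fun u => -u))).filter (fun p => p.1 + p.2 ∉ S)).card) := by
  intro H
  obtain ⟨e, he⟩ := H 1 le_rfl U (by decide) (by
    rw [eq_top_iff]
    intro v _
    have h1 : cst 1 ∈ AddSubgroup.closure (U : Set (Fin 1 → ℤ)) :=
      AddSubgroup.subset_closure (by simp [U])
    have h2 := AddSubgroup.zsmul_mem _ h1 (v 0)
    have h3 : v 0 • cst 1 = v := by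
      funext i
      rw [Subsingleton.elim i 0]
      simp [cst]
    rwa [h3] at h2)
  -- the initial segments as sets of integers
  let A : ℕ → Finset ℤ := fun n => ((Finset.range n).image ⇑e).image (fun v => v 0)
  have hAimg : ∀ n, (A n).image cst = (Finset.range n).image ⇑e := by
    intro n
    show (((Finset.range n).image ⇑e).image (fun v => v 0)).image cst = _
    rw [Finset.image_image]
    have : (cst ∘ fun v : Fin 1 → ℤ => v 0) = id := by
      funext v
      exact cst_apply v
    rw [this, Finset.image_id]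
  have hAcard : ∀ n, (A n).card = n := by
    intro n
    have h1 : ((A n).image cst).card = (A n).card := Finset.card_image_of_injective _ cst_inj
    rw [← h1, hAimg, Finset.card_image_of_injective _ e.injective, Finset.card_range]
  have hopt : ∀ n, 1 ≤ n → ∀ S : Finset ℤ, S.card = n →
      2 * bd (A n) 1 + 2 * bd (A n) 9 ≤ 2 * bd S 1 + 2 * bd S 9 := by
    intro n hn S hS
    have h1 := he n hn (S.image cst) (by rw [Finset.card_image_of_injective _ cst_inj, hS])
    rw [← hAimg n, boundary_eq (A n), boundary_eq S] at h1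
    exact h1
  have h16 := hopt 16 (by norm_num)
    (((Finset.range 4) ×ˢ (Finset.range 4)).image (fun p : ℕ × ℕ => (9 * p.1 + p.2 : ℤ)))
    (by decide +kernel)
  have h26 := hopt 26 (by norm_num) ((Finset.range 26).image (fun i : ℕ => (i : ℤ)))
    (by decide +kernel)
  have e16 : bd (((Finset.range 4) ×ˢ (Finset.range 4)).image
      (fun p : ℕ × ℕ => (9 * p.1 + p.2 : ℤ))) 1 = 4 ∧
      bd (((Finset.range 4) ×ˢ (Finset.range 4)).image
      (fun p : ℕ × ℕ => (9 * p.1 + p.2 : ℤ))) 9 = 4 := by decide +kernel
  have e26 : bd ((Finset.range 26).image (fun i : ℕ => (i : ℤ))) 1 = 1 ∧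
      bd ((Finset.range 26).image (fun i : ℕ => (i : ℤ))) 9 = 9 := by decide +kernel
  rw [e16.1, e16.2] at h16
  rw [e26.1, e26.2] at h26
  obtain ⟨t, ht⟩ := opt26 (A 26) (hAcard 26) (by omega)
  refine opt16 (A 16) (hAcard 16) (by omega) t fun x hx => ht x ?_
  have hsub : A 16 ⊆ A 26 := by
    apply Finset.image_subset_image
    apply Finset.image_subset_image
    intro y hy
    rw [Finset.mem_range] at hy ⊢
    omega
  exact hsub hx

end Pool.Agent.V7H10.NestedIso
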