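import Pool.Agent.Results.MP_e0aac0_nt.PowerSavingIndependence

set_option autoImplicit false

/-! Independence of the values of `Ω` but a power saving of the shifts, with the shift `0` among the shifts (helper10). -/

namespace Pool.Agent.V7H10.OM

open Finset Filter Topology
open ArithmeticFunction (cardFactors)
open Pool.Agent.Results.MP_e0aac0_nt.PowerSavingIndependence (root NonExceptional num dens rest Independent num_eq)

lemma cnt_shift (N a : ℕ) (F : ℕ → Prop) :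
    |num (Icc 1 N) (fun n => F (n + a)) - num (Icc 1 N) F| ≤ a := by
  classical
  rw [num_eq, num_eq]
  have e : ((Icc 1 N).filter (fun n => F (n + a))).card = ((Icc (1 + a) (N + a)).filter F).card := by
    apply card_bij (fun n _ => n + a)
    · intro n hn
      rw [mem_filter, mem_Icc] at hn ⊢
      exact ⟨⟨by omega, by omega⟩, hn.2⟩
    · intro x _ y _ h
      exact Nat.add_right_cancel h
    · intro b hb
      rw [mem_filter, mem_Icc] at hb
      refine ⟨b - a, ?_, by omega⟩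
      rw [mem_filter, mem_Icc]
      refine ⟨⟨by omega, by omega⟩, ?_⟩
      rw [Nat.sub_add_cancel (by omega)]
      exact hb.2
  rw [e]
  have h1 : (Icc (1 + a) (N + a)).filter F ⊆ (Icc 1 N).filter F ∪ Ioc N (N + a) := by
    intro n hn
    rw [mem_filter, mem_Icc] at hn
    rw [mem_union, mem_filter, mem_Icc, mem_Ioc]
    by_cases h : n ≤ N
    · exact Or.inl ⟨⟨by omega, h⟩, hn.2⟩
    · exact Or.inr ⟨by omega, by omega⟩
  have h2 : (Icc 1 N).filter F ⊆ (Icc (1 + a) (N + a)).filter F ∪ Ioc 0 a := by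
    intro n hn
    rw [mem_filter, mem_Icc] at hn
    rw [mem_union, mem_filter, mem_Icc, mem_Ioc]
    by_cases h : n ≤ a
    · exact Or.inr ⟨by omega, h⟩
    · exact Or.inl ⟨⟨by omega, by omega⟩, hn.2⟩
  have h3 := (card_le_card h1).trans (card_union_le _ _)
  have h4 := (card_le_card h2).trans (card_union_le _ _)
  rw [Nat.card_Ioc] at h3 h4
  have h5 : (((Icc (1 + a) (N + a)).filter F).card : ℝ) ≤ (((Icc 1 N).filter F).card : ℝ) + a := by
    exact_mod_cast (by omega :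
      ((Icc (1 + a) (N + a)).filter F).card ≤ ((Icc 1 N).filter F).card + a)
  have h6 : (((Icc 1 N).filter F).card : ℝ) ≤ (((Icc (1 + a) (N + a)).filter F).card : ℝ) + a := by
    exact_mod_cast (by omega :
      ((Icc 1 N).filter F).card ≤ ((Icc (1 + a) (N + a)).filter F).card + a)
  rw [abs_le]
  constructor <;> linarith

lemma dens_shift {N : ℕ} (hN : 1 ≤ N) (a : ℕ) (F : ℕ → Prop) :
    |dens N (fun n => F (n + a)) - dens N F| ≤ a / N := by
  have hN0 : (0 : ℝ) < N := by exact_mod_cast hN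
  unfold Pool.Agent.Results.MP_e0aac0_nt.PowerSavingIndependence.dens
  rw [← sub_div, abs_div, abs_of_pos hN0]
  exact div_le_div_of_nonneg_right (cnt_shift N a F) hN0.le

lemma dens_nonneg (N : ℕ) (F : ℕ → Prop) : 0 ≤ dens N F := by
  classical
  unfold Pool.Agent.Results.MP_e0aac0_nt.PowerSavingIndependence.dens
  rw [num_eq]
  positivity

lemma dens_le_one (N : ℕ) (F : ℕ → Prop) : dens N F ≤ 1 := by
  classical
  unfold Pool.Agent.Results.MP_e0aac0_nt.PowerSavingIndependence.dens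
  rw [num_eq]
  apply div_le_one_of_le₀ _ (Nat.cast_nonneg _)
  have := card_filter_le (Icc 1 N) F
  rw [Nat.card_Icc, Nat.add_sub_cancel] at this
  exact_mod_cast this

lemma indep_shift {r : ℕ} (s : ℕ) {ε : ℝ} (hε : 0 < ε) {N : ℕ} (hN : 1 ≤ N) (a : ℕ) (h : Fin (r + 1) → ℕ)
    (ha : (a : ℝ) / N ≤ ε / 8) (H : Independent s (ε / 4) N (fun i => a + h i)) : Independent s ε N h := by
  constructor
  · intro i S T
    have h1 := H.1 i S T
    have e1 : (fun n => cardFactors (n + (a + h i)) / s ∈ S ∧ rest (fun i => a + h i) i n ∈ T) =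
        fun n => (fun n => cardFactors (n + h i) / s ∈ S ∧ rest h i n ∈ T) (n + a) := by
      funext n
      unfold rest
      simp only [Nat.add_assoc]
    have e2 : (fun n => rest (fun i => a + h i) i n ∈ T) = fun n => (fun n => rest h i n ∈ T) (n + a) := by
      funext n
      unfold rest
      simp only [Nat.add_assoc]
    rw [e1, e2] at h1
    have h2 := (dens_shift hN a (fun n => cardFactors (n + h i) / s ∈ S ∧ rest h i n ∈ T)).trans ha
    have h3 := (dens_shift hN a (fun n => rest h i n ∈ T)).trans ha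
    have h4 := dens_nonneg N (fun n => cardFactors n / s ∈ S)
    have h5 := dens_le_one N (fun n => cardFactors n / s ∈ S)
    rw [abs_le] at h1 h2 h3 ⊢
    constructor <;> nlinarith
  · intro S
    have h1 := H.2 S
    have e1 : (fun n => ∀ i, cardFactors (n + (a + h i)) / s ∈ S i) =
        fun n => (fun n => ∀ i, cardFactors (n + h i) / s ∈ S i) (n + a) := by
      funext n
      simp only [Nat.add_assoc]
    rw [e1] at h1
    have h2 := (dens_shift hN a (fun n => ∀ i, cardFactors (n + h i) / s ∈ S i)).trans ha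
    rw [abs_le] at h1 h2 ⊢
    constructor <;> linarith

lemma count {r : ℕ} (A N x₀ : ℕ) (hx : x₀ ≤ N) (Bad : (Fin (r + 1) → ℕ) → Prop) (Bad0 : (Fin r → ℕ) → Prop)
    (hB : ∀ h, Bad0 h → ∀ a, 1 ≤ a → a ≤ x₀ → Bad (fun i => a + (Fin.cons 0 h : Fin (r + 1) → ℕ) i)) :
    (x₀ : ℝ) * num (Fintype.piFinset fun _ : Fin r => Icc 1 (A * N)) Bad0 ≤
      num (Fintype.piFinset fun i => Icc 1 ((Fin.cons x₀ (fun _ => (A + 1) * N) : Fin (r + 1) → ℕ) i)) Bad := by
  classical
  rw [num_eq, num_eq]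
  have h1 : ((Icc 1 x₀) ×ˢ ((Fintype.piFinset fun _ : Fin r => Icc 1 (A * N)).filter Bad0)).card ≤
      ((Fintype.piFinset fun i => Icc 1 ((Fin.cons x₀ (fun _ => (A + 1) * N) : Fin (r + 1) → ℕ) i)).filter Bad).card := by
    apply card_le_card_of_injOn (fun q i => q.1 + (Fin.cons 0 q.2 : Fin (r + 1) → ℕ) i)
    · rintro ⟨a, h⟩ hq
      rw [mem_coe, mem_product, mem_Icc, mem_filter, Fintype.mem_piFinset] at hq
      obtain ⟨⟨ha1, ha2⟩, hh, hb⟩ := hq
      rw [mem_coe, mem_filter, Fintype.mem_piFinset]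
      refine ⟨fun i => ?_, hB h hb a ha1 ha2⟩
      dsimp only at ha1 ha2 hh ⊢
      refine Fin.cases ?_ (fun j => ?_) i
      · rw [Fin.cons_zero, Fin.cons_zero, mem_Icc]
        omega
      · have := hh j
        rw [mem_Icc] at this
        rw [Fin.cons_succ, Fin.cons_succ, mem_Icc, Nat.add_mul, one_mul]
        omega
    · rintro ⟨a, h⟩ _ ⟨b, g⟩ _ hq
      dsimp only at hq
      have h0 := congrFun hq 0
      simp only [Fin.cons_zero, add_zero] at h0
      subst h0
      have h2 : h = g := by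
        funext j
        have := congrFun hq j.succ
        simp only [Fin.cons_succ] at this
        omega
      rw [h2]
  rw [card_product, Nat.card_Icc, Nat.add_sub_cancel] at h1
  exact_mod_cast h1

/-- Independence but a power saving of the shifts, the shift `0` included. -/
theorem base0 (A r : ℕ) (ε : ℝ) (hε : 0 < ε) :
    ∃ E D : ℕ, 1 ≤ E ∧ 6 * E + 2 ≤ D ∧ ∃ δ : ℝ, 0 < δ ∧
      (∃ N₀ : ℕ, ∀ N : ℕ, N₀ ≤ N →
        num (Fintype.piFinset fun _ : Fin r => Icc 1 (A * N))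
            (fun h => ¬ Independent 2 ε N (Fin.cons 0 h : Fin (r + 1) → ℕ)) ≤ ((A : ℝ) + 1) ^ r * (N : ℝ) ^ ((r : ℝ) - δ) ∧
        (NonExceptional E D N → num (Fintype.piFinset fun _ : Fin r => Icc 1 (A * N))
            (fun h => ¬ Independent 1 ε N (Fin.cons 0 h : Fin (r + 1) → ℕ)) ≤
              ((A : ℝ) + 1) ^ r * (N : ℝ) ^ ((r : ℝ) - δ))) ∧
      ∀ N₁ : ℕ, ∃ N : ℕ, N₁ ≤ N ∧ NonExceptional E D N := by
  obtain ⟨E, D, hE, hD, δ, hδ, ⟨N₀, hN₀⟩, hex⟩ :=
    Pool.Agent.Results.MP_e0aac0_nt.PowerSavingIndependence.result (A + 1) r (ε / 4) (by positivity)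
  refine ⟨E, D, hE, hD, δ, hδ, ?_, hex⟩
  have hlim : Tendsto (fun N : ℕ => (N : ℝ) ^ (-δ) + 1 / (N : ℝ)) atTop (𝓝 (0 + 0)) := by
    apply Tendsto.add
    · exact (tendsto_rpow_neg_atTop hδ).comp tendsto_natCast_atTop_atTop
    · exact tendsto_one_div_atTop_nhds_zero_nat
  rw [add_zero] at hlim
  obtain ⟨N₁, hN₁⟩ := eventually_atTop.1 (hlim.eventually (gt_mem_nhds (show (0 : ℝ) < ε / 8 by positivity)))
  refine ⟨max N₀ (max N₁ 1), fun N hN => ?_⟩
  have hN1 : 1 ≤ N := le_trans (by simp) hN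
  have hN0 : (0 : ℝ) < N := by exact_mod_cast hN1
  have hN1' : (1 : ℝ) ≤ N := by exact_mod_cast hN1
  obtain ⟨x₀, hx₀⟩ : ∃ x₀ : ℕ, x₀ = ⌈(N : ℝ) ^ (1 - δ)⌉₊ := ⟨_, rfl⟩
  have hx1 : (N : ℝ) ^ (1 - δ) ≤ x₀ := by rw [hx₀]; exact Nat.le_ceil _
  have hxN : x₀ ≤ N := by
    rw [hx₀]
    apply Nat.ceil_le.2
    calc (N : ℝ) ^ (1 - δ) ≤ (N : ℝ) ^ (1 : ℝ) := Real.rpow_le_rpow_of_exponent_le hN1' (by linarith)
      _ = N := Real.rpow_one _
  have hx2 : (x₀ : ℝ) ≤ (N : ℝ) ^ (1 - δ) + 1 := by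
    rw [hx₀]
    exact (Nat.ceil_lt_add_one (by positivity)).le
  have hx0 : (0 : ℝ) < x₀ := lt_of_lt_of_le (by positivity) hx1
  have hsmall : (x₀ : ℝ) / N ≤ ε / 8 := by
    have h1 := hN₁ N (le_trans ((le_max_left _ _).trans (le_max_right _ _)) hN)
    refine le_trans ?_ h1.le
    rw [div_le_iff₀ hN0, add_mul, one_div, inv_mul_cancel₀ hN0.ne']
    have e : (N : ℝ) ^ (-δ) * N = (N : ℝ) ^ (1 - δ) := by
      rw [sub_eq_add_neg, Real.rpow_add hN0, Real.rpow_one, mul_comm]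
    rw [e]
    exact hx2
  have hcond : ∀ i, (Fin.cons x₀ (fun _ => (A + 1) * N) : Fin (r + 1) → ℕ) i ≤ (A + 1) * N ∧
      (N : ℝ) ^ (1 - δ) ≤ ((Fin.cons x₀ (fun _ => (A + 1) * N) : Fin (r + 1) → ℕ) i : ℕ) := by
    intro i
    refine Fin.cases ?_ (fun j => ?_) i
    · rw [Fin.cons_zero]
      exact ⟨hxN.trans (Nat.le_mul_of_pos_left _ (Nat.succ_pos _)), hx1⟩
    · rw [Fin.cons_succ]
      refine ⟨le_rfl, hx1.trans ?_⟩
      exact_mod_cast hxN.trans (Nat.le_mul_of_pos_left _ (Nat.succ_pos _))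
  have hprod : (∏ i, (((Fin.cons x₀ (fun _ => (A + 1) * N) : Fin (r + 1) → ℕ) i : ℕ) : ℝ)) =
      x₀ * (((A : ℝ) + 1) * N) ^ r := by
    rw [Fin.prod_univ_succ, Fin.cons_zero]
    simp only [Fin.cons_succ]
    rw [prod_const, card_univ, Fintype.card_fin]
    push_cast
    ring
  have key : ∀ s : ℕ, num (Fintype.piFinset fun i => Icc 1 ((Fin.cons x₀ (fun _ => (A + 1) * N) : Fin (r + 1) → ℕ) i))
      (fun h => ¬ Independent s (ε / 4) N h) ≤
        (∏ i, (((Fin.cons x₀ (fun _ => (A + 1) * N) : Fin (r + 1) → ℕ) i : ℕ) : ℝ)) * (N : ℝ) ^ (-δ) →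
      num (Fintype.piFinset fun _ : Fin r => Icc 1 (A * N))
            (fun h => ¬ Independent s ε N (Fin.cons 0 h : Fin (r + 1) → ℕ)) ≤
              ((A : ℝ) + 1) ^ r * (N : ℝ) ^ ((r : ℝ) - δ) := by
    intro s hs
    have h1 := count A N x₀ hxN (fun h => ¬ Independent s (ε / 4) N h)
      (fun h => ¬ Independent s ε N (Fin.cons 0 h : Fin (r + 1) → ℕ)) (fun h hh a _ ha2 hcon => hh (by
        refine indep_shift s hε hN1 a _ (le_trans ?_ hsmall) hcon
        apply div_le_div_of_nonneg_right _ hN0.le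
        exact_mod_cast ha2))
    have h2 := h1.trans hs
    rw [hprod, mul_assoc] at h2
    have h3 := le_of_mul_le_mul_left h2 hx0
    refine h3.trans (le_of_eq ?_)
    rw [mul_pow, sub_eq_add_neg, Real.rpow_add hN0, Real.rpow_natCast, mul_assoc]
  have h3 := hN₀ N ((le_max_left _ _).trans hN) _ hcond
  exact ⟨key 2 h3.1, fun hne => key 1 (h3.2 hne)⟩

end Pool.Agent.V7H10.OM
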