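import Pool.Agent.V7H10.OM

set_option autoImplicit false

/-! The pairs (scale, shifts) without independence of the values of `Ω` are few (helper10). -/

namespace Pool.Agent.V7H10.OMG

open Finset
open Pool.Agent.Results.MP_e0aac0_nt.PowerSavingIndependence (NonExceptional Independent num num_eq)

/-- For a scale `N`, the shifts `0, h_1, …, h_r`: the values `Ω(n + h_i)` (with `h_0 = 0`), `n ≤ N`, are independent up to
`ε` in the sense of the starting theorem for the integer parts of `Ω / 2`, and for `Ω` itself if the scale is not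
exceptional. -/
def Good (E D : ℕ) (ε : ℝ) {r : ℕ} (N : ℕ) (h : Fin r → ℕ) : Prop :=
  Independent 2 ε N (Fin.cons 0 h : Fin (r + 1) → ℕ) ∧
    (NonExceptional E D N → Independent 1 ε N (Fin.cons 0 h : Fin (r + 1) → ℕ))

open Classical in
/-- the bad tuples of shifts at the scale `N` -/
noncomputable def bad (A E D : ℕ) (ε : ℝ) (r N : ℕ) : Finset (Fin r → ℕ) :=
  (Fintype.piFinset fun _ : Fin r => Icc 1 (A * N)).filter (fun h => ¬ Good E D ε N h)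

lemma mem_bad {A E D : ℕ} {ε : ℝ} {r N : ℕ} {h : Fin r → ℕ} :
    h ∈ bad A E D ε r N ↔ (∀ i, 1 ≤ h i ∧ h i ≤ A * N) ∧ ¬ Good E D ε N h := by
  classical
  unfold bad
  rw [mem_filter, Fintype.mem_piFinset]
  simp only [mem_Icc]

/-- **Base.** -/
theorem base (A r : ℕ) (ε : ℝ) (hε : 0 < ε) :
    ∃ E D : ℕ, 1 ≤ E ∧ 6 * E + 2 ≤ D ∧ ∃ δ : ℝ, 0 < δ ∧ δ ≤ 1 ∧ ∃ C : ℝ, 0 ≤ C ∧
      (∃ N₀ : ℕ, ∀ N : ℕ, N₀ ≤ N → ((bad A E D ε r N).card : ℝ) ≤ C * (N : ℝ) ^ ((r : ℝ) - δ)) ∧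
      (∀ N₁ : ℕ, ∃ N : ℕ, N₁ ≤ N ∧ NonExceptional E D N) := by
  classical
  obtain ⟨E, D, hE, hD, δ, hδ, ⟨N₀, hN₀⟩, hex⟩ := Pool.Agent.V7H10.OM.base0 A r ε hε
  refine ⟨E, D, hE, hD, min δ 1, lt_min hδ one_pos, min_le_right _ _, 2 * ((A : ℝ) + 1) ^ r, by positivity,
    ⟨max N₀ 1, fun N hN => ?_⟩, hex⟩
  obtain ⟨h2, h1⟩ := hN₀ N ((le_max_left _ _).trans hN)
  have hN1 : (1 : ℝ) ≤ N := by exact_mod_cast (le_max_right _ _).trans hN
  have hsub : bad A E D ε r N ⊆ (Fintype.piFinset fun _ : Fin r => Icc 1 (A * N)).filter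
        (fun h => ¬ Independent 2 ε N (Fin.cons 0 h : Fin (r + 1) → ℕ)) ∪
      (Fintype.piFinset fun _ : Fin r => Icc 1 (A * N)).filter
        (fun h => NonExceptional E D N ∧ ¬ Independent 1 ε N (Fin.cons 0 h : Fin (r + 1) → ℕ)) := by
    intro h hh
    unfold bad at hh
    rw [mem_filter] at hh
    rw [mem_union, mem_filter, mem_filter]
    by_cases h3 : Independent 2 ε N (Fin.cons 0 h : Fin (r + 1) → ℕ)
    · right
      refine ⟨hh.1, ?_⟩
      by_contra h4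
      push Not at h4
      exact hh.2 ⟨h3, h4⟩
    · exact Or.inl ⟨hh.1, h3⟩
  have h3 : (((bad A E D ε r N).card : ℕ) : ℝ) ≤ (((Fintype.piFinset fun _ : Fin r => Icc 1 (A * N)).filter
        (fun h => ¬ Independent 2 ε N (Fin.cons 0 h : Fin (r + 1) → ℕ))).card : ℝ) +
      (((Fintype.piFinset fun _ : Fin r => Icc 1 (A * N)).filter
        (fun h => NonExceptional E D N ∧ ¬ Independent 1 ε N (Fin.cons 0 h : Fin (r + 1) → ℕ))).card : ℝ) := by
    exact_mod_cast (card_le_card hsub).trans (card_union_le _ _)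
  have h4 : (((Fintype.piFinset fun _ : Fin r => Icc 1 (A * N)).filter
        (fun h => ¬ Independent 2 ε N (Fin.cons 0 h : Fin (r + 1) → ℕ))).card : ℝ) ≤
      ((A : ℝ) + 1) ^ r * (N : ℝ) ^ ((r : ℝ) - δ) := by
    rw [num_eq] at h2
    exact h2
  have h5 : (((Fintype.piFinset fun _ : Fin r => Icc 1 (A * N)).filter
        (fun h => NonExceptional E D N ∧ ¬ Independent 1 ε N (Fin.cons 0 h : Fin (r + 1) → ℕ))).card : ℝ) ≤
      ((A : ℝ) + 1) ^ r * (N : ℝ) ^ ((r : ℝ) - δ) := by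
    by_cases hne : NonExceptional E D N
    · have h6 := h1 hne
      rw [num_eq] at h6
      refine le_trans (Nat.cast_le.2 (card_le_card fun h hh => ?_)) h6
      rw [mem_filter] at hh ⊢
      exact ⟨hh.1, hh.2.2⟩
    · rw [filter_false_of_mem (fun h _ h7 => hne h7.1), card_empty, Nat.cast_zero]
      positivity
  have h6 : (N : ℝ) ^ ((r : ℝ) - δ) ≤ (N : ℝ) ^ ((r : ℝ) - min δ 1) :=
    Real.rpow_le_rpow_of_exponent_le hN1 (by linarith [min_le_left δ 1])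
  calc (((bad A E D ε r N).card : ℕ) : ℝ) ≤ 2 * ((A : ℝ) + 1) ^ r * (N : ℝ) ^ ((r : ℝ) - δ) := by linarith
    _ ≤ _ := mul_le_mul_of_nonneg_left h6 (by positivity)

/-- the count of the pairs (scale, shifts), from the counts for the scales -/
theorem total {A E D : ℕ} {ε : ℝ} {r : ℕ} (hr : 1 ≤ r) {δ C : ℝ} (hδ1 : δ ≤ 1) (hC : 0 ≤ C)
    (h : ∃ N₀ : ℕ, ∀ N : ℕ, N₀ ≤ N → ((bad A E D ε r N).card : ℝ) ≤ C * (N : ℝ) ^ ((r : ℝ) - δ)) :
    ∃ K : ℝ, ∀ H : ℕ, 1 ≤ H → ({z : Fin (r + 1) → ℕ | z 0 ≤ H ∧ (∀ i : Fin r, 1 ≤ z i.succ ∧ z i.succ ≤ A * z 0) ∧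
      ¬ Good E D ε (z 0) (fun i => z i.succ)}.ncard : ℝ) ≤ K * (H : ℝ) ^ ((r : ℝ) + 1 - δ) := by
  classical
  obtain ⟨N₀, hN₀⟩ := h
  refine ⟨((N₀ : ℝ) + 1) * ((A : ℝ) * N₀ + 1) ^ r + 2 * C, fun H hH => ?_⟩
  have hH1 : (1 : ℝ) ≤ H := by exact_mod_cast hH
  have hr1 : (1 : ℝ) ≤ r := by exact_mod_cast hr
  have hsub : {z : Fin (r + 1) → ℕ | z 0 ≤ H ∧ (∀ i : Fin r, 1 ≤ z i.succ ∧ z i.succ ≤ A * z 0) ∧
      ¬ Good E D ε (z 0) (fun i => z i.succ)} ⊆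
      (((range (H + 1)).sigma (fun N => bad A E D ε r N)).image (fun q => (Fin.cons q.1 q.2 : Fin (r + 1) → ℕ)) :
        Finset (Fin (r + 1) → ℕ)) := by
    rintro z ⟨h1, h2, h3⟩
    rw [mem_coe, mem_image]
    refine ⟨⟨z 0, fun i => z i.succ⟩, ?_, ?_⟩
    · rw [mem_sigma, mem_range]
      exact ⟨by simp only; omega, mem_bad.2 ⟨h2, h3⟩⟩
    · funext i
      refine Fin.cases ?_ (fun j => ?_) i
      · rw [Fin.cons_zero]
      · rw [Fin.cons_succ]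
  have h1 := Set.ncard_le_ncard hsub (finite_toSet _)
  rw [Set.ncard_coe_finset] at h1
  have h2 := h1.trans card_image_le
  rw [card_sigma] at h2
  have h3 : ∀ N ∈ range (H + 1), ((bad A E D ε r N).card : ℝ) ≤
      (if N < N₀ then ((A : ℝ) * N₀ + 1) ^ r else 0) + C * (H : ℝ) ^ ((r : ℝ) - δ) := by
    intro N hN
    rw [mem_range] at hN
    split_ifs with hlt
    · have h4 : ((bad A E D ε r N).card : ℝ) ≤ ((A : ℝ) * N₀ + 1) ^ r := by
        have h5 : (bad A E D ε r N).card ≤ (A * N) ^ r := by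
          unfold bad
          refine (card_filter_le _ _).trans ?_
          rw [Fintype.card_piFinset, prod_const, card_univ, Fintype.card_fin, Nat.card_Icc, Nat.add_sub_cancel]
        have h6 : ((bad A E D ε r N).card : ℝ) ≤ ((A : ℝ) * N) ^ r := by exact_mod_cast h5
        refine h6.trans (pow_le_pow_left₀ (by positivity) ?_ r)
        have h7 : (N : ℝ) ≤ N₀ := by exact_mod_cast hlt.le
        have h8 : (0 : ℝ) ≤ A := Nat.cast_nonneg _
        nlinarith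
      have : 0 ≤ C * (H : ℝ) ^ ((r : ℝ) - δ) := by positivity
      linarith
    · rw [zero_add]
      refine (hN₀ N (not_lt.1 hlt)).trans (mul_le_mul_of_nonneg_left ?_ hC)
      apply Real.rpow_le_rpow (Nat.cast_nonneg _) _ (by linarith)
      exact_mod_cast (by omega : N ≤ H)
  have h4 : (((∑ N ∈ range (H + 1), (bad A E D ε r N).card : ℕ)) : ℝ) ≤
      (N₀ : ℝ) * ((A : ℝ) * N₀ + 1) ^ r + ((H : ℝ) + 1) * (C * (H : ℝ) ^ ((r : ℝ) - δ)) := by
    push_cast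
    refine (sum_le_sum h3).trans ?_
    rw [sum_add_distrib, sum_const, card_range, nsmul_eq_mul, ← sum_filter, sum_const, nsmul_eq_mul]
    have h5 : ((((range (H + 1)).filter (fun N => N < N₀)).card : ℕ) : ℝ) ≤ N₀ := by
      have h6 : ((range (H + 1)).filter (fun N => N < N₀)).card ≤ (range N₀).card := by
        apply card_le_card
        intro N hN
        rw [mem_filter] at hN
        exact mem_range.2 hN.2
      rw [card_range] at h6
      exact_mod_cast h6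
    push_cast
    have h7 : (0 : ℝ) ≤ ((A : ℝ) * N₀ + 1) ^ r := by positivity
    nlinarith
  have e1 : (H : ℝ) ^ ((r : ℝ) + 1 - δ) = (H : ℝ) ^ ((r : ℝ) - δ) * H := by
    rw [show (r : ℝ) + 1 - δ = ((r : ℝ) - δ) + 1 by ring, Real.rpow_add_one (by positivity)]
  have h5 : (1 : ℝ) ≤ (H : ℝ) ^ ((r : ℝ) + 1 - δ) := Real.one_le_rpow hH1 (by linarith)
  calc (({z : Fin (r + 1) → ℕ | z 0 ≤ H ∧ (∀ i : Fin r, 1 ≤ z i.succ ∧ z i.succ ≤ A * z 0) ∧
      ¬ Good E D ε (z 0) (fun i => z i.succ)}.ncard : ℕ) : ℝ)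
      ≤ (((∑ N ∈ range (H + 1), (bad A E D ε r N).card : ℕ)) : ℝ) := by exact_mod_cast h2
    _ ≤ (N₀ : ℝ) * ((A : ℝ) * N₀ + 1) ^ r + ((H : ℝ) + 1) * (C * (H : ℝ) ^ ((r : ℝ) - δ)) := h4
    _ ≤ ((N₀ : ℝ) + 1) * ((A : ℝ) * N₀ + 1) ^ r * (H : ℝ) ^ ((r : ℝ) + 1 - δ) +
        2 * C * (H : ℝ) ^ ((r : ℝ) + 1 - δ) := by
        have h6 : 0 ≤ C * (H : ℝ) ^ ((r : ℝ) - δ) := by positivity
        have h7 : (0 : ℝ) ≤ ((A : ℝ) * N₀ + 1) ^ r := by positivity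
        have h8 : ((H : ℝ) + 1) * (C * (H : ℝ) ^ ((r : ℝ) - δ)) ≤ 2 * C * (H : ℝ) ^ ((r : ℝ) + 1 - δ) := by
          rw [e1]
          nlinarith
        have h9 : (N₀ : ℝ) * ((A : ℝ) * N₀ + 1) ^ r ≤
            ((N₀ : ℝ) + 1) * ((A : ℝ) * N₀ + 1) ^ r * (H : ℝ) ^ ((r : ℝ) + 1 - δ) := by
          have h10 : (0 : ℝ) ≤ ((N₀ : ℝ) + 1) * ((A : ℝ) * N₀ + 1) ^ r := by positivity
          nlinarith
        linarith
    _ = _ := by ring

end Pool.Agent.V7H10.OMG
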