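import Pool.Agent.V11146.MK.Transfer

set_option autoImplicit false

/-!
# Residue patterns of consecutive sifted integers
-/

namespace Pool.Agent.V7H10.Rs

open Polynomial Finset Filter
open Pool.Agent.W123.RP Pool.Agent.H373R2.T7 Pool.Agent.W123.RU Pool.Agent.W123.RU.Poly
open Pool.Agent.TH464.PW Pool.Agent.TH464.PO Pool.Agent.V11146.MK

/-- the ratio of two frequencies -/
lemma ratio (A : ℕ) (hA : 1 ≤ A) (ε : ℝ) (hε : 0 < ε) : ∃ e : ℝ, 0 < e ∧ ∀ t c0 c1 : ℝ, 0 < t →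
    |c0 - t / (A : ℝ) ^ 1| ≤ e * t → |c1 - t / (A : ℝ) ^ 2| ≤ e * t → 0 < c0 ∧ |c1 / c0 - 1 / A| ≤ ε := by
  have hAr : (1 : ℝ) ≤ A := by exact_mod_cast hA
  have hA0 : (0 : ℝ) < A := by linarith
  refine ⟨min (1 / (2 * (A : ℝ))) (ε / (4 * (A : ℝ))), by positivity, ?_⟩
  intro t c0 c1 ht h1 h2
  obtain ⟨e, he⟩ : ∃ e : ℝ, e = min (1 / (2 * (A : ℝ))) (ε / (4 * (A : ℝ))) := ⟨_, rfl⟩
  rw [← he] at h1 h2
  have he0 : 0 < e := by rw [he]; positivity
  have he1 : e ≤ 1 / (2 * A) := by rw [he]; exact min_le_left _ _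
  have he2 : e ≤ ε / (4 * A) := by rw [he]; exact min_le_right _ _
  rw [le_div_iff₀ (by positivity)] at he1 he2
  rw [pow_one] at h1
  obtain ⟨g1, g2⟩ := abs_le.1 h1
  have hc0 : t / (2 * A) ≤ c0 := by
    have h3 : e * t ≤ t / (2 * A) := by
      rw [le_div_iff₀ (by positivity)]
      nlinarith
    have h4 : t / A = t / (2 * A) + t / (2 * A) := by field_simp; ring
    linarith
  have hc0p : 0 < c0 := lt_of_lt_of_le (by positivity) hc0
  refine ⟨hc0p, ?_⟩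
  have e1 : c1 / c0 - 1 / A = (c1 - c0 / A) / c0 := by
    field_simp
  rw [e1, abs_div, abs_of_pos hc0p, div_le_iff₀ hc0p]
  have h5 : |c0 / A - t / (A : ℝ) ^ 2| ≤ e * t := by
    have : c0 / A - t / (A : ℝ) ^ 2 = (c0 - t / A) / A := by
      field_simp
    rw [this, abs_div, abs_of_pos hA0]
    exact (div_le_self (abs_nonneg _) hAr).trans h1
  have h6 : |c1 - c0 / A| ≤ 2 * (e * t) := by
    have : c1 - c0 / A = (c1 - t / (A : ℝ) ^ 2) - (c0 / A - t / (A : ℝ) ^ 2) := by ring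
    rw [this]
    refine (abs_sub _ _).trans ?_
    linarith
  refine h6.trans ?_
  have h7 : t ≤ 2 * A * c0 := by
    rw [div_le_iff₀ (by positivity)] at hc0
    linarith
  calc 2 * (e * t) ≤ 2 * (e * (2 * A * c0)) := by gcongr
    _ = e * (4 * A) * c0 := by ring
    _ ≤ ε * c0 := by gcongr

open Classical in
/-- **Residue patterns modulo a prime**, relative form. -/
theorem res_sys {ι : Type} [Fintype ι] [Nonempty ι] (f : ι → ℤ[X]) (hf : Sys f) (hT : NoTr f) (l k : ℕ)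
    (hl : l.Prime) (S : ℕ → ℕ → Prop) (hS : ∀ y n, S y n ↔ Sf (Q f) y n) (ε : ℝ) (hε : 0 < ε) :
    ∃ K y0 : ℕ, ∀ y : ℕ, y0 ≤ y → ∀ Z Y : ℕ, y ^ K ≤ Y →
      0 < ((Ioc Z (Z + Y)).filter (S y)).card ∧
      ∀ a : ℕ → ℕ, (∀ i ≤ k, a i < l ∧ ¬ Q f l (a i)) →
        |(((Ioc Z (Z + Y)).filter (fun g => Runs (S y) (fun n => n % l) k a g)).card : ℝ) -
          ((Ioc Z (Z + Y)).filter (S y)).card / ((cls (Q f) l).card : ℝ) ^ (k + 1)| ≤
          ε * ((Ioc Z (Z + Y)).filter (S y)).card := by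
  obtain ⟨K, y0, h⟩ := rel_pat f hf hT l k hl 1 0 one_pos S 0
    (fun y _ n => by
      constructor
      · intro h
        exact ⟨n, by ring, (hS y n).1 h⟩
      · rintro ⟨m, rfl, hm⟩
        rw [one_mul, add_zero]
        exact (hS y m).2 hm) (fun n => n % l) id (cls (Q f) l)
    (fun b _ m => by simp) (fun b hb => hb) ε hε
  refine ⟨K, y0, ?_⟩
  intro y hy Z Y hY
  obtain ⟨h1, h2⟩ := h y hy Z Y hY (Or.inl (Nat.zero_le _))
  refine ⟨h1, fun a ha => h2 a (fun i hi => ?_)⟩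
  rw [mem_cls]
  exact ha i hi

end Pool.Agent.V7H10.Rs
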