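import Pool.Agent.Results.MP_4aec10_nt.MultiplicativeValues

set_option autoImplicit false

/-! Translates of a point of `Lie (E × G_m)^n` by logarithms of integral vectors: the exceptional vectors (helper10). -/

open scoped PeriodPair

namespace Pool.Agent.V7H10.SA

open Pool.Agent.Results.MP_4aec10_nt.SemiabelianTranslates (integers IsTranslate FreeOverImage)
open Pool.Agent.Results.MP_4aec10_nt.MultiplicativeValues (integers_one card_integers)

/-- all translates of `(z, s)` by logarithms of the points `((v_i, y_i), v_i)` are free over their image and `w`, for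
relations of degree at most `δ` over number fields of degree at most `d` -/
def AllFree (Λ : PeriodPair) {n q : ℕ} (δ d : ℕ) (w : Fin q → ℂ) (z s : Fin n → ℂ) (v : Fin n → ℤ) : Prop :=
  ∀ u t : Fin n → ℂ, IsTranslate Λ z s (fun i => (v i : ℂ)) u t → FreeOverImage Λ δ d w u t

/-- the number of the exceptional vectors, uniformly in `w`, `z`, `s` -/
theorem count (Λ : PeriodPair) (a b : ℚ) (ha : Λ.g₂ = a) (hb : Λ.g₃ = b) (n q : ℕ) (δ d : ℕ) :
    ∃ c : ℝ, 0 < c ∧ c < 1 ∧ ∃ C : ℝ, 0 ≤ C ∧ ∀ (w : Fin q → ℂ) (z s : Fin n → ℂ) (X : ℕ), 1 ≤ X →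
      {v : Fin n → ℤ | (∀ i, |v i| ≤ (X : ℤ)) ∧ ¬ AllFree Λ δ d w z s v}.Finite ∧
      (({v : Fin n → ℤ | (∀ i, |v i| ≤ (X : ℤ)) ∧ ¬ AllFree Λ δ d w z s v}.ncard : ℕ) : ℝ) ≤
        C * (X : ℝ) ^ ((n : ℝ) - c) := by
  obtain ⟨c₀, hc₀, C, h⟩ :=
    Pool.Agent.Results.MP_4aec10_nt.SemiabelianTranslates.result Λ a b ha hb n q 1 le_rfl δ d
  obtain ⟨c, hc0, hc1, hcc⟩ : ∃ c : ℝ, 0 < c ∧ c < 1 ∧ c ≤ c₀ :=
    ⟨min c₀ (1 / 2), lt_min hc₀ (by norm_num), (min_le_right _ _).trans_lt (by norm_num), min_le_left _ _⟩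
  refine ⟨c, hc0, hc1, |C| * 3 ^ n, by positivity, fun w z s X hX => ?_⟩
  obtain ⟨hf, hle⟩ := h w z s X hX
  have hX1 : (1 : ℝ) ≤ X := by exact_mod_cast hX
  have hX0 : (0 : ℝ) < X := by linarith
  have hfin0 : {v : Fin n → ℤ | ∀ i, |v i| ≤ (X : ℤ)}.Finite := by
    refine (Set.Finite.pi' (fun _ : Fin n => Set.finite_Icc (-(X : ℤ)) X)).subset ?_
    intro v hv e
    exact abs_le.1 (hv e)
  refine ⟨hfin0.subset fun v hv => hv.1, ?_⟩
  have hsub : (fun (v : Fin n → ℤ) (i : Fin n) => (v i : ℂ)) ''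
      {v : Fin n → ℤ | (∀ i, |v i| ≤ (X : ℤ)) ∧ ¬ AllFree Λ δ d w z s v} ⊆
      {α : Fin n → ℂ | (∀ i, α i ∈ integers 1 X) ∧
        ¬ ∀ u t : Fin n → ℂ, IsTranslate Λ z s α u t → FreeOverImage Λ δ d w u t} := by
    rintro _ ⟨v, ⟨hv1, hv2⟩, rfl⟩
    exact ⟨fun i => integers_one (hv1 i), hv2⟩
  have hinj : Function.Injective (fun (v : Fin n → ℤ) (i : Fin n) => (v i : ℂ)) := by
    intro u v huv
    funext i
    exact Int.cast_injective (congrFun huv i)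
  have hfin : {α : Fin n → ℂ | (∀ i, α i ∈ integers 1 X) ∧
        ¬ ∀ u t : Fin n → ℂ, IsTranslate Λ z s α u t → FreeOverImage Λ δ d w u t}.Finite := by
    apply (Set.Finite.pi' fun _ : Fin n => hf).subset
    rintro α ⟨h1, _⟩
    exact h1
  have h2 := Set.ncard_le_ncard hsub hfin
  rw [Set.ncard_image_of_injective _ hinj] at h2
  have h3 : ((integers 1 X).ncard : ℝ) ^ n ≤ (3 * (X : ℝ)) ^ n :=
    pow_le_pow_left₀ (Nat.cast_nonneg _) (card_integers X hX) n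
  have h4 : (X : ℝ) ^ (-c₀) ≤ (X : ℝ) ^ (-c) := Real.rpow_le_rpow_of_exponent_le hX1 (by linarith)
  have h5 : 0 ≤ (X : ℝ) ^ (-c₀) := Real.rpow_nonneg hX0.le _
  calc _ ≤ (({α : Fin n → ℂ | (∀ i, α i ∈ integers 1 X) ∧
        ¬ ∀ u t : Fin n → ℂ, IsTranslate Λ z s α u t → FreeOverImage Λ δ d w u t}.ncard : ℕ) : ℝ) := by
          exact_mod_cast h2
    _ ≤ C * (X : ℝ) ^ (-c₀) * ((integers 1 X).ncard : ℝ) ^ n := hle
    _ ≤ |C| * (X : ℝ) ^ (-c) * (3 * (X : ℝ)) ^ n := by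
        have h6 : C * (X : ℝ) ^ (-c₀) ≤ |C| * (X : ℝ) ^ (-c) :=
          (mul_le_mul_of_nonneg_right (le_abs_self C) h5).trans
            (mul_le_mul_of_nonneg_left h4 (abs_nonneg C))
        exact mul_le_mul h6 h3 (by positivity) (by positivity)
    _ = |C| * 3 ^ n * (X : ℝ) ^ ((n : ℝ) - c) := by
        rw [mul_pow, sub_eq_add_neg (n : ℝ), Real.rpow_add hX0, Real.rpow_natCast]
        ring

end Pool.Agent.V7H10.SA
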