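import Pool.Agent.V7H10.BG
import Pool.Agent.V7H10.Res
import Pool.Agent.Y879.GL.Pattern

set_option autoImplicit false

/-!
# Rough tuples of a given shape in a residue class modulo 30
-/

namespace Pool.Agent.V7H10.Tp

open Polynomial Finset Filter
open Pool.Agent.W123.RP Pool.Agent.H373R2.T7 Pool.Agent.W123.RU Pool.Agent.W123.RU.Poly
open Pool.Agent.TH464.PW Pool.Agent.TH464.PO Pool.Agent.Y879.GL

/-- `p` divides one of the numbers `30 m + r + d`, `d ∈ D` -/
def Dv (D : Finset ℕ) (r p m : ℕ) : Prop := ∃ d ∈ D, p ∣ 30 * m + r + d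

lemma pr30 (p : ℕ) (hp : p.Prime) : p ∣ 30 ↔ p ≤ 5 := by
  constructor
  · intro h
    have h1 : p ∣ 2 * (3 * 5) := by simpa using h
    rcases (Nat.Prime.dvd_mul hp).1 h1 with h2 | h2
    · have := (Nat.prime_dvd_prime_iff_eq hp Nat.prime_two).1 h2
      omega
    · rcases (Nat.Prime.dvd_mul hp).1 h2 with h3 | h3
      · have := (Nat.prime_dvd_prime_iff_eq hp Nat.prime_three).1 h3
        omega
      · have := (Nat.prime_dvd_prime_iff_eq hp Nat.prime_five).1 h3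
        omega
  · intro h
    have := hp.two_le
    interval_cases p
    · norm_num
    · norm_num
    · exact absurd hp (by norm_num)
    · norm_num

/-- the properties of a shape -/
structure Shape (k : ℕ) (D : Finset ℕ) (r : ℕ) (h : Fin k → ℕ) : Prop where
  pat : Pool.Agent.Y879.GL.Pat 5 30 r h
  lt : ∀ i, h i < 30
  mem : ∀ x, x ∈ D ↔ ∃ i, h i = x

lemma no_small (z : ℤ) (hz : z = 2 ∨ z = 4 ∨ z = 6 ∨ z = 8 ∨ z = 10 ∨ z = -2 ∨ z = -4 ∨ z = -6 ∨ z = -8 ∨ z = -10)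
    (p : ℕ) (hp : p.Prime) (hp5 : 5 < p) : ¬ (p : ℤ) ∣ z := by
  intro hd
  have h1 : ∀ n : ℕ, (n = 2 ∨ n = 4 ∨ n = 6 ∨ n = 8 ∨ n = 10) → ¬ p ∣ n := by
    intro n hn hpn
    have h6 : p ∣ 2 * 2 * 2 * 3 * 5 := by
      rcases hn with rfl | rfl | rfl | rfl | rfl
      · exact hpn.trans (by norm_num)
      · exact hpn.trans (by norm_num)
      · exact hpn.trans (by norm_num)
      · exact hpn.trans (by norm_num)
      · exact hpn.trans (by norm_num)
    rcases (Nat.Prime.dvd_mul hp).1 h6 with h2 | h2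
    · rcases (Nat.Prime.dvd_mul hp).1 h2 with h2 | h2
      · rcases (Nat.Prime.dvd_mul hp).1 h2 with h2 | h2
        · rcases (Nat.Prime.dvd_mul hp).1 h2 with h2 | h2
          · have := Nat.le_of_dvd (by norm_num) h2
            omega
          · have := Nat.le_of_dvd (by norm_num) h2
            omega
        · have := Nat.le_of_dvd (by norm_num) h2
          omega
      · have := Nat.le_of_dvd (by norm_num) h2
        omega
    · have := Nat.le_of_dvd (by norm_num) h2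
      omega
  have h2 : p ∣ z.natAbs := Int.natCast_dvd.1 hd
  exact h1 z.natAbs (by omega) h2

lemma shape4 (D : Finset ℕ) (hD : D = {0, 2, 6, 8} ∨ D = {0, 4, 6, 10}) (r : ℕ) (hr : r < 30)
    (hc : ∀ d ∈ D, Nat.Coprime 30 (r + d)) : ∃ h : Fin 4 → ℕ, Shape 4 D r h := by
  rcases hD with rfl | rfl
  · refine ⟨![0, 2, 6, 8], ⟨⟨by norm_num, hr, by norm_num, by norm_num, pr30, ?_, ?_, ?_⟩, ?_, ?_⟩⟩
    · intro i
      apply hc
      fin_cases i <;> simp
    · intro i j h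
      fin_cases i <;> fin_cases j <;> simp_all
    · intro i j hij p hp hp5
      apply no_small _ _ p hp hp5
      fin_cases i <;> fin_cases j <;> simp_all
    · intro i
      fin_cases i <;> simp
    · intro x
      simp only [mem_insert, mem_singleton, Fin.exists_fin_succ, Matrix.cons_val_zero, Matrix.cons_val_succ,
        IsEmpty.exists_iff, or_false]
      tauto
  · refine ⟨![0, 4, 6, 10], ⟨⟨by norm_num, hr, by norm_num, by norm_num, pr30, ?_, ?_, ?_⟩, ?_, ?_⟩⟩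
    · intro i
      apply hc
      fin_cases i <;> simp
    · intro i j h
      fin_cases i <;> fin_cases j <;> simp_all
    · intro i j hij p hp hp5
      apply no_small _ _ p hp hp5
      fin_cases i <;> fin_cases j <;> simp_all
    · intro i
      fin_cases i <;> simp
    · intro x
      simp only [mem_insert, mem_singleton, Fin.exists_fin_succ, Matrix.cons_val_zero, Matrix.cons_val_succ,
        IsEmpty.exists_iff, or_false]
      tauto

lemma shape3 (D : Finset ℕ) (hD : D = {0, 2, 6} ∨ D = {0, 4, 6}) (r : ℕ) (hr : r < 30)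
    (hc : ∀ d ∈ D, Nat.Coprime 30 (r + d)) : ∃ h : Fin 3 → ℕ, Shape 3 D r h := by
  rcases hD with rfl | rfl
  · refine ⟨![0, 2, 6], ⟨⟨by norm_num, hr, by norm_num, by norm_num, pr30, ?_, ?_, ?_⟩, ?_, ?_⟩⟩
    · intro i
      apply hc
      fin_cases i <;> simp
    · intro i j h
      fin_cases i <;> fin_cases j <;> simp_all
    · intro i j hij p hp hp5
      apply no_small _ _ p hp hp5
      fin_cases i <;> fin_cases j <;> simp_all
    · intro i
      fin_cases i <;> simp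
    · intro x
      simp only [mem_insert, mem_singleton, Fin.exists_fin_succ, Matrix.cons_val_zero, Matrix.cons_val_succ,
        IsEmpty.exists_iff, or_false]
      tauto
  · refine ⟨![0, 4, 6], ⟨⟨by norm_num, hr, by norm_num, by norm_num, pr30, ?_, ?_, ?_⟩, ?_, ?_⟩⟩
    · intro i
      apply hc
      fin_cases i <;> simp
    · intro i j h
      fin_cases i <;> fin_cases j <;> simp_all
    · intro i j hij p hp hp5
      apply no_small _ _ p hp hp5
      fin_cases i <;> fin_cases j <;> simp_all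
    · intro i
      fin_cases i <;> simp
    · intro x
      simp only [mem_insert, mem_singleton, Fin.exists_fin_succ, Matrix.cons_val_zero, Matrix.cons_val_succ,
        IsEmpty.exists_iff, or_false]
      tauto

variable {k : ℕ} {D : Finset ℕ} {r : ℕ} {h : Fin k → ℕ}

lemma QT_iff (H : Shape k D r h) (p m : ℕ) : Q (sy 30 r h) p m ↔ Dv D r p m := by
  rw [Pool.Agent.Y879.GL.Q_iff]
  unfold Dv
  constructor
  · rintro ⟨i, hi⟩
    exact ⟨h i, (H.mem _).2 ⟨i, rfl⟩, hi⟩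
  · rintro ⟨d, hd, hp⟩
    obtain ⟨i, rfl⟩ := (H.mem d).1 hd
    exact ⟨i, hp⟩

/-- exact blocks of rough tuples, in all intervals -/
theorem short (H : Shape k D r h) (K : ℕ) (x0 ε : ℝ) (hε : 0 < ε) :
    ∃ s y0 : ℕ, ∀ y : ℕ, y0 ≤ y → ∀ Z Y : ℕ, y ^ s ≤ Y → ∀ H : Finset ℕ, H.card ≤ K → 0 ∈ H →
      ∀ L : ℕ, (∀ x ∈ H, x ≤ L) → L * BG.V (Dv D r) {0} y ≤ x0 →
        |(BG.blocks (Dv D r) H L y Z Y : ℝ) - Y * BG.V (Dv D r) H y * Real.exp (-(L * BG.V (Dv D r) {0} y))| ≤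
          ε * (Y * BG.V (Dv D r) H y * Real.exp (-(L * BG.V (Dv D r) {0} y))) := by
  have : Nonempty (Fin k) := ⟨⟨0, H.pat.hk⟩⟩
  exact BG.short (sy 30 r h) (Dv D r) (sy_sys H.pat) (sy_noTr H.pat H.lt) (QT_iff H) K x0 ε hε

/-- exact blocks of rough tuples, with a prime -/
theorem withPrime (H : Shape k D r h) (d : ℕ) (hd : d ∈ D) (K : ℕ) (x0 ε δ : ℝ)
    (hε : 0 < ε) (hδ : 0 < δ) (hδ1 : δ ≤ 1) :
    ∃ s y0 : ℕ, ∀ y : ℕ, y0 ≤ y → ∀ X : ℕ, y ^ s ≤ X → ∀ H : Finset ℕ, H.card ≤ K → 0 ∈ H →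
      ∀ h ∈ H, ∀ L : ℕ, (∀ x ∈ H, x ≤ L) → L * BG.V (Dv D r) {0} y ≤ x0 →
      ∀ Z Y : ℕ, δ * X ≤ Z → δ * X ≤ Y → Z + Y ≤ X →
        |(BG.pblocks (Dv D r) 30 (30 * h + (r + d)) H L y Z Y : ℝ) * Real.log X -
          Y * (BG.V (Dv D r) H y / ∏ p ∈ (Icc 1 y).filter Nat.Prime, (1 - 1 / (p : ℝ))) *
            Real.exp (-(L * BG.V (Dv D r) {0} y))| ≤
          ε * (Y * (BG.V (Dv D r) H y / ∏ p ∈ (Icc 1 y).filter Nat.Prime, (1 - 1 / (p : ℝ))) *
            Real.exp (-(L * BG.V (Dv D r) {0} y))) := by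
  have : Nonempty (Fin k) := ⟨⟨0, H.pat.hk⟩⟩
  obtain ⟨i, hi⟩ := (H.mem d).1 hd
  have hsq : Squarefree 30 := by
    rw [show (30 : ℕ) = 2 * (3 * 5) by norm_num, Nat.squarefree_mul (by norm_num), Nat.squarefree_mul (by norm_num)]
    exact ⟨Nat.prime_two.squarefree, Nat.prime_three.squarefree, Nat.prime_five.squarefree⟩
  refine BG.withPrime (sy 30 r h) (Dv D r) (sy_sys H.pat) (sy_noTr H.pat H.lt) (QT_iff H) 30 (r + d) hsq ?_ ?_ ?_
    K x0 ε δ hε hδ hδ1
  · rw [← hi]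
    exact H.pat.cop i
  · rintro p n hp hp30 ⟨d', hd', hdiv⟩
    obtain ⟨j, hj⟩ := (H.mem d').1 hd'
    have h1 : p ∣ r + d' := by
      have h2 : p ∣ 30 * n := hp30.mul_right n
      rw [add_assoc] at hdiv
      exact (Nat.dvd_add_right h2).1 hdiv
    have h2 : p ∣ Nat.gcd 30 (r + d') := Nat.dvd_gcd hp30 h1
    rw [← hj, H.pat.cop j] at h2
    exact hp.one_lt.ne' (Nat.dvd_one.1 h2)
  · intro p n _ _ hn
    exact ⟨d, hd, by rw [add_assoc]; exact hn⟩

/-- the possible residues -/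
def Al (D : Finset ℕ) (r l b : ℕ) : Prop := b < l ∧ ¬ Dv D r l b

open Classical in
/-- residue patterns -/
theorem residues (H : Shape k D r h) (l j : ℕ) (hl : l.Prime) (ε : ℝ) (hε : 0 < ε) :
    ∃ K y0 : ℕ, ∀ y : ℕ, y0 ≤ y → ∀ Z Y : ℕ, y ^ K ≤ Y →
      0 < ((Ioc Z (Z + Y)).filter (BG.Rg (Dv D r) y)).card ∧
      ∀ a : ℕ → ℕ, (∀ i ≤ j, a i < l ∧ ¬ Dv D r l (a i)) →
        |(((Ioc Z (Z + Y)).filter (fun g => Pool.Agent.V11146.MK.Runs (BG.Rg (Dv D r) y) (fun n => n % l) j a g)).card : ℝ) -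
          ((Ioc Z (Z + Y)).filter (BG.Rg (Dv D r) y)).card /
            (((range l).filter (Al D r l)).card : ℝ) ^ (j + 1)| ≤
          ε * ((Ioc Z (Z + Y)).filter (BG.Rg (Dv D r) y)).card := by
  have : Nonempty (Fin k) := ⟨⟨0, H.pat.hk⟩⟩
  obtain ⟨K, y0, h1⟩ := Rs.res_sys (sy 30 r h) (sy_sys H.pat) (sy_noTr H.pat H.lt) l j hl (BG.Rg (Dv D r))
    (BG.rg_iff (sy 30 r h) (Dv D r) (QT_iff H)) ε hε
  refine ⟨K, y0, ?_⟩
  intro y hy Z Y hY
  obtain ⟨h2, h3⟩ := h1 y hy Z Y hY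
  refine ⟨h2, fun a ha => ?_⟩
  have h4 := h3 a (fun i hi => by
    rw [QT_iff H]
    exact ha i hi)
  have e : (Pool.Agent.V11146.MK.cls (Q (sy 30 r h)) l).card =
      ((range l).filter (Al D r l)).card := by
    unfold Pool.Agent.V11146.MK.cls Al
    apply congrArg
    ext b
    simp only [mem_filter, mem_range, QT_iff H]
    tauto
  rw [e] at h4
  exact h4

end Pool.Agent.V7H10.Tp
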