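import Pool.Agent.N671.DA.Tup
import Pool.Agent.R482.ST.Vec

set_option autoImplicit false

/-! Countably many thin sets of integral vectors: points near radial starshaped sequences, good approximations
(helper10). -/

namespace Pool.Agent.V7H10.VT

open MeasureTheory
open Pool.Agent.N671.DA (Near Thin approx_vectors)
open Pool.Agent.R482.ST (Starshaped Conv vec_windows_nat)

/-- intersections of sets of smaller and smaller dimension -/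
theorem dim_inter {X : Type*} [EMetricSpace X] {t θ : ℝ} (ht : 0 ≤ t) (hθ : θ < 1) (E : ℕ → Set X)
    (hE : ∀ j : ℕ, dimH (E j) ≤ ENNReal.ofReal (t + 1 / ((j : ℝ) + 1) / (1 - θ))) :
    dimH (⋂ j, E j) ≤ ENNReal.ofReal t := by
  have h1 : 0 < 1 - θ := by linarith
  apply ENNReal.le_of_forall_pos_le_add
  intro ε hε _
  have hε' : (0 : ℝ) < ε := by exact_mod_cast hε
  obtain ⟨j, hj⟩ := exists_nat_one_div_lt (show (0 : ℝ) < ε * (1 - θ) by positivity)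
  refine (dimH_mono (Set.iInter_subset E j)).trans ((hE j).trans ?_)
  have h2 : t + 1 / ((j : ℝ) + 1) / (1 - θ) ≤ t + ε := by
    have h3 : 1 / ((j : ℝ) + 1) / (1 - θ) ≤ ε := by
      rw [div_le_iff₀ h1]
      exact hj.le
    linarith
  refine (ENNReal.ofReal_le_ofReal h2).trans ?_
  rw [ENNReal.ofReal_add ht hε'.le, ENNReal.ofReal_coe_nnreal]

lemma count_nat {k : ℕ} {W : Set (Fin k → ℤ)} {s : ℝ} (hW : Thin W s) {ε : ℝ} (hε : 0 < ε) :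
    ∃ C : ℝ, ∀ H : ℕ, 1 ≤ H → ({z : Fin k → ℤ | (∀ i, |z i| ≤ (H : ℤ)) ∧ z ∈ W}.ncard : ℝ) ≤ C * (H : ℝ) ^ (s + ε) := by
  obtain ⟨C, hC⟩ := hW ε hε
  refine ⟨C, fun H hH => ?_⟩
  have h1 := hC (H : ℝ) (by exact_mod_cast hH)
  have e : {z : Fin k → ℤ | (∀ i, |z i| ≤ (H : ℤ)) ∧ z ∈ W} = {q : Fin k → ℤ | q ∈ W ∧ ∀ i, |(q i : ℝ)| ≤ (H : ℝ)} := by
    ext q
    simp only [Set.mem_ofPred_eq]
    constructor
    · rintro ⟨h2, h3⟩
      exact ⟨h3, fun i => by exact_mod_cast h2 i⟩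
    · rintro ⟨h2, h3⟩
      exact ⟨fun i => by exact_mod_cast h3 i, h2⟩
  rw [e]
  exact h1

/-- **Points near radial starshaped sequences.** -/
theorem star {ι : Type*} [Countable ι] {k : ℕ} (W : ι → Set (Fin k → ℤ)) {s : ℝ} (hs : 0 ≤ s)
    (hW : ∀ i, Thin (W i) s) {f : ℕ → ℝ → ℝ} {a τ θ : ℝ} (hf : Starshaped a f) (hτ : 0 ≤ τ) (hv : Conv a f τ)
    (hθ : θ < 1) :
    ∃ E : Set (Fin k → ℝ), dimH E ≤ ENNReal.ofReal ((s + τ) / (1 - θ)) ∧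
      ∀ u : Fin k → ℝ, a < ‖u‖ → u ∉ E → ∀ i, ∀ c : ℝ, ∃ j₀ : ℕ, ∀ j : ℕ, j₀ ≤ j → ∀ z : Fin k → ℤ,
        (∀ l, |(z l : ℝ) - f j ‖u‖ / ‖u‖ * u l| ≤ c * (f j ‖u‖) ^ θ) → z ∉ W i := by
  have h1θ : 0 < 1 - θ := by linarith
  have hstep : ∀ (i : ι) (n : ℕ), ∃ E : Set (Fin k → ℝ),
      dimH E ≤ ENNReal.ofReal ((s + 1 / ((n : ℝ) + 1) + τ) / (1 - θ)) ∧
      ∀ u : Fin k → ℝ, a < ‖u‖ → u ∉ E → ∀ c : ℝ, ∃ j₀ : ℕ, ∀ j : ℕ, j₀ ≤ j → ∀ z : Fin k → ℤ,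
        (∀ l, |(z l : ℝ) - f j ‖u‖ / ‖u‖ * u l| ≤ c * (f j ‖u‖) ^ θ) → ¬ z ∈ W i := fun i n =>
    vec_windows_nat (ι := Fin k) (fun z _ => z ∈ W i) (fun _ _ _ _ h => h)
      (s := s + 1 / ((n : ℝ) + 1)) (by positivity) (count_nat (hW i) (by positivity)) f a τ θ hf hτ hv hθ
  choose E hE h using hstep
  refine ⟨⋃ i, ⋂ n, E i n, ?_, fun u hu huE i c => ?_⟩
  · rw [dimH_iUnion]
    refine iSup_le fun i => dim_inter (div_nonneg (by linarith) h1θ.le) hθ (E i) (fun n => (hE i n).trans (le_of_eq ?_))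
    congr 1
    field_simp
    ring
  · have h1 : u ∉ ⋂ n, E i n := fun h => huE (Set.mem_iUnion.2 ⟨i, h⟩)
    rw [Set.mem_iInter, not_forall] at h1
    obtain ⟨n, hn⟩ := h1
    exact h i n u hu hn c

/-- **Good approximations.** -/
theorem approx {ι : Type*} [Countable ι] {k : ℕ} (hk : 1 ≤ k) (W : ι → Set (Fin k → ℤ)) {s : ℝ} (hs : 0 ≤ s)
    (hW : ∀ i, Thin (W i) s) {m : ℕ} (β : Fin m → ℝ) {τ : ℝ} (hτ : 0 < τ) :
    ∃ E : Set (Fin k × Fin m → ℝ), dimH E ≤ ENNReal.ofReal (((k : ℝ) - 1) * m + (m + s) / (1 + τ)) ∧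
      ∀ α, α ∉ E → ∀ i, ∀ c : ℝ, ∃ Q : ℝ, ∀ q : Fin k → ℤ, Q ≤ ‖q‖ → Near α β q (c * ‖q‖ ^ (-τ)) → q ∉ W i := by
  choose E hE h using fun i => approx_vectors hk (W i) hs (hW i) β hτ
  refine ⟨⋃ i, E i, ?_, fun α hα i c => h i α (fun hh => hα (Set.mem_iUnion.2 ⟨i, hh⟩)) c⟩
  rw [dimH_iUnion]
  exact iSup_le hE

/-- vectors the absolute values of whose coordinates are in a set -/
theorem thin_abs {k : ℕ} (B : Set (Fin k → ℕ)) {s : ℝ} (hs : 0 ≤ s)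
    (hB : ∀ ε : ℝ, 0 < ε → ∃ C : ℝ, 0 ≤ C ∧ ∀ X : ℕ, 1 ≤ X →
      ({w : Fin k → ℕ | w ∈ B ∧ ∀ i, w i ≤ X}.ncard : ℝ) ≤ C * (X : ℝ) ^ (s + ε)) :
    Thin {q : Fin k → ℤ | (fun i => (q i).natAbs) ∈ B} s := by
  intro ε hε
  obtain ⟨C, hC, h⟩ := hB ε hε
  refine ⟨2 ^ k * C, fun X hX => ?_⟩
  obtain ⟨T, hT⟩ : ∃ T : ℕ, T = ⌊X⌋₊ := ⟨_, rfl⟩
  have hT1 : 1 ≤ T := by rw [hT]; exact Nat.le_floor (by exact_mod_cast hX)
  have hTX : (T : ℝ) ≤ X := by rw [hT]; exact Nat.floor_le (by linarith)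
  obtain ⟨A, hA⟩ : ∃ A : Set (Fin k → ℕ), A = {w : Fin k → ℕ | w ∈ B ∧ ∀ i, w i ≤ T} := ⟨_, rfl⟩
  have hAfin : A.Finite := by
    rw [hA]
    refine (Set.Finite.pi' (t := fun _ : Fin k => Set.Iic T) fun _ => Set.finite_Iic _).subset ?_
    intro w hw i
    exact hw.2 i
  have hcard : ({q : Fin k → ℤ | q ∈ {q : Fin k → ℤ | (fun i => (q i).natAbs) ∈ B} ∧
      ∀ i, |(q i : ℝ)| ≤ X}.ncard) ≤ 2 ^ k * A.ncard := by
    obtain ⟨φ, hφ⟩ : ∃ φ : (Fin k → ℤ) → (Fin k → Bool) × (Fin k → ℕ),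
      φ = fun q => (fun i => decide (0 ≤ q i), fun i => (q i).natAbs) := ⟨_, rfl⟩
    have hinj : Function.Injective φ := by
      intro q q' h
      rw [hφ] at h
      simp only [Prod.mk.injEq] at h
      obtain ⟨h1, h2⟩ := h
      funext i
      have h3 : (0 ≤ q i) ↔ (0 ≤ q' i) := decide_eq_decide.1 (congrFun h1 i)
      have h4 : (q i).natAbs = (q' i).natAbs := congrFun h2 i
      omega
    have hmaps : Set.MapsTo φ {q : Fin k → ℤ | q ∈ {q : Fin k → ℤ | (fun i => (q i).natAbs) ∈ B} ∧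
        ∀ i, |(q i : ℝ)| ≤ X} ((Set.univ : Set (Fin k → Bool)) ×ˢ A) := by
      rintro q ⟨h1, h2⟩
      rw [hφ, hA]
      refine ⟨Set.mem_univ _, h1, fun i => ?_⟩
      simp only
      rw [hT]
      apply Nat.le_floor
      have h3 := h2 i
      have h4 : (((q i).natAbs : ℕ) : ℝ) = |(q i : ℝ)| := by
        rw [Nat.cast_natAbs, Int.cast_abs]
      rw [h4]
      exact h3
    have h1 := Set.ncard_le_ncard_of_injOn φ hmaps hinj.injOn (Set.finite_univ.prod hAfin)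
    rw [Set.ncard_prod, Set.ncard_univ, Nat.card_eq_fintype_card, Fintype.card_fun, Fintype.card_bool,
      Fintype.card_fin] at h1
    exact h1
  have h2 := h T hT1
  rw [← hA] at h2
  calc (({q : Fin k → ℤ | q ∈ {q : Fin k → ℤ | (fun i => (q i).natAbs) ∈ B} ∧ ∀ i, |(q i : ℝ)| ≤ X}.ncard : ℕ) : ℝ)
      ≤ 2 ^ k * (A.ncard : ℝ) := by exact_mod_cast hcard
    _ ≤ 2 ^ k * (C * (T : ℝ) ^ (s + ε)) := by gcongr
    _ ≤ 2 ^ k * (C * X ^ (s + ε)) := by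
        have h3 : (T : ℝ) ^ (s + ε) ≤ X ^ (s + ε) := Real.rpow_le_rpow (Nat.cast_nonneg _) hTX (by linarith)
        gcongr
    _ = _ := by ring

end Pool.Agent.V7H10.VT
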